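import Pool.Agent.H43.BC.Pres

/-!
# Module PosC: the Einstein constant is positive

Compare `Pool/Agent/H98/FL/PosC.lean`. Among the pairs `α ≠ β` with `dm α β ≠ 0` choose one with the largest `ξ α β`. For `γ ≠ α, β` with
`wt α β γ ≠ 0`: `dm α γ ≠ 0` and `dm β γ ≠ 0` (`dm_wt_symm`, `dm_symm`), so `ξ α γ, ξ β γ ≤ ξ α β` and
`(ξ α γ ^ 2 + ξ β γ ^ 2 - ξ α β ^ 2) / (ξ α γ * ξ β γ) ≤ 1` (`ξ_αγ² + ξ_βγ² - ξ_αβ² ≤ min(ξ_αγ, ξ_βγ)² ≤ ξ_αγ ξ_βγ`). Also `wt α β γ ≥ 0`: `wt α β γ = N γ`, or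
`γ = fl α` or `γ = fl β` (not both) and `wt = N γ + e` with `N γ ≥ 1` (`N γ = N α ≥ 1` or `N γ = N β ≥ 1` as `dm α β ≠ 0`), `e ≥ -1`. So the right side is at most
`∑_{γ ≠ α, β} wt α β γ`. If `e = 1` this is `≤ ∑N - N α - N β + 2 < 2 (∑N + 2)`. If `e = -1` it is `≤ ∑N - N α - N β`, and
`∑N - N α - N β < 2 (∑N - 2)`, i.e. `∑N + N α + N β > 4`: if `α, β` are not `none` and `β ≠ fl α` then
`∑N ≥ 2 N α + 2 N β ≥ 4` (four different blocks), total `≥ 6`; if one of them is `none`, say `β`, then `∑N ≥ 2 N α + N β`, total `≥ 5`; if `β = fl α` then `N α ≥ 2`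
(because `N α (N α - 1) ≠ 0`), `∑N ≥ 2 N α`, total `≥ 8`. So `2 c ξ α β > 0`.
-/

set_option autoImplicit false

namespace Pool.Agent.H43.BC

open Matrix Stmt

variable {k : ℕ} {S : Setup k} {N : Pb k → ℕ} {e : ℝ}

private theorem PosC_fl_none {p : Pb k} (h : fl p = p) : p = none := by
  rcases p with _ | ⟨i, b⟩
  · rfl
  · rw [fl_some] at h
    cases b <;> simp at h

/-- the quotient is at most 1 at a maximal pair -/
private theorem PosC_quot {p q M : ℝ} (hp : 0 < p) (hq : 0 < q) (hpM : p ≤ M) (hqM : q ≤ M) :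
    (p ^ 2 + q ^ 2 - M ^ 2) / (p * q) ≤ 1 := by
  have h1 : p ^ 2 + q ^ 2 - M ^ 2 ≤ p * q := by
    rcases le_total p q with h2 | h2
    · have h3 : q ^ 2 ≤ M ^ 2 := by nlinarith
      nlinarith
    · have h3 : p ^ 2 ≤ M ^ 2 := by nlinarith
      nlinarith
  rw [div_le_one (mul_pos hp hq)]
  exact h1

/-- the entries of a present module are at least 1 -/
private theorem PosC_one {N : Pb k → ℕ} {e : ℝ} (hN : ∀ p, N (fl p) = N p) {α β : Pb k}
    (hd : dm (fun p => (N p : ℝ)) e α β ≠ 0) : 1 ≤ N α ∧ 1 ≤ N β := by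
  constructor
  · refine Nat.one_le_iff_ne_zero.2 fun h => hd ?_
    unfold dm
    simp only [h, Nat.cast_zero, zero_mul]
  · refine Nat.one_le_iff_ne_zero.2 fun h => hd ?_
    rw [dm_symm (fun p => (N p : ℝ)) e (fun p => by simp only [hN])]
    unfold dm
    simp only [h, Nat.cast_zero, zero_mul]

/-- the weights are nonnegative -/
private theorem PosC_wt_nonneg {N : Pb k → ℕ} {e : ℝ} (he : e = 1 ∨ e = -1)
    (hN : ∀ p, N (fl p) = N p) {α β γ : Pb k} (h : α ≠ β) (hα : 1 ≤ N α) (hβ : 1 ≤ N β) :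
    0 ≤ wt (fun p => (N p : ℝ)) e α β γ := by
  classical
  unfold wt
  beta_reduce
  have h0 : (0 : ℝ) ≤ N γ := Nat.cast_nonneg _
  have he1 : -1 ≤ e := by rcases he with h | h <;> rw [h]; norm_num
  by_cases h1 : γ = fl α
  · have h2 : ¬ γ = fl β := fun h3 => h (fl_inj.1 (h1.symm.trans h3))
    rw [if_pos h1, if_neg h2]
    have h4 : (1 : ℝ) ≤ N γ := by
      rw [h1, hN]
      exact_mod_cast hα
    linarith
  · rw [if_neg h1]
    by_cases h2 : γ = fl β
    · rw [if_pos h2]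
      have h4 : (1 : ℝ) ≤ N γ := by
        rw [h2, hN]
        exact_mod_cast hβ
      linarith
    · rw [if_neg h2]
      linarith

/-- the total size is large if `e = -1` -/
private theorem PosC_big {N : Pb k → ℕ} (hN : ∀ p, N (fl p) = N p) {α β : Pb k} (h : α ≠ β)
    (hd : dm (fun p => (N p : ℝ)) (-1) α β ≠ 0) : (4 : ℝ) < (∑ p, (N p : ℝ)) + N α + N β := by
  classical
  obtain ⟨hα, hβ⟩ := PosC_one hN hd
  have key : 4 < (∑ p, N p) + N α + N β := by
    by_cases hf : β = fl α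
    · have h1 : N β = N α := by rw [hf, hN]
      have h2 : 2 ≤ N β := by
        by_contra h3
        have h4 : N β = 1 := by omega
        apply hd
        unfold dm
        beta_reduce
        rw [if_pos hf, h4]
        norm_num
      have h3 : ∑ p ∈ {α, β}, N p ≤ ∑ p, N p :=
        Finset.sum_le_sum_of_subset (Finset.subset_univ _)
      rw [Finset.sum_pair h] at h3
      omega
    · obtain ⟨γ, hγα, hγβ, hγ⟩ : ∃ γ, γ ≠ α ∧ γ ≠ β ∧ 1 ≤ N γ := by
        by_cases hα0 : α = none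
        · refine ⟨fl β, ?_, ?_, by rw [hN]; exact hβ⟩
          · intro h1
            exact hf (by rw [← h1, fl_fl])
          · intro h1
            exact h (by rw [hα0, PosC_fl_none h1])
        · refine ⟨fl α, ?_, fun h1 => hf h1.symm, by rw [hN]; exact hα⟩
          intro h1
          exact hα0 (PosC_fl_none h1)
      have h3 : ∑ p ∈ {γ, α, β}, N p ≤ ∑ p, N p :=
        Finset.sum_le_sum_of_subset (Finset.subset_univ _)
      rw [Finset.sum_insert (by simp [hγα, hγβ]), Finset.sum_pair h] at h3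
      omega
  exact_mod_cast key

theorem pos_c {N : Pb k → ℕ} {e : ℝ} (he : e * e = 1) (hN : ∀ p, N (fl p) = N p)
    {ξ : Pb k → Pb k → ℝ} (hs : ∀ α β, ξ α β = ξ β α)
    (hp : ∀ α β, 0 < ξ α β) (c : ℝ)
    (hE : ∀ α β, α ≠ β → dm (fun p => (N p : ℝ)) e α β ≠ 0 →
      2 * ((∑ p, (N p : ℝ)) + 2 * e) - 2 * c * ξ α β =
      ∑ γ, if γ = α ∨ γ = β then 0 else wt (fun p => (N p : ℝ)) e α β γ *
        ((ξ α γ ^ 2 + ξ β γ ^ 2 - ξ α β ^ 2) / (ξ α γ * ξ β γ)))
    {α₀ β₀ : Pb k} (h : α₀ ≠ β₀) (hd : dm (fun p => (N p : ℝ)) e α₀ β₀ ≠ 0) : 0 < c := by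
  classical
  have he' : e = 1 ∨ e = -1 := mul_self_eq_one_iff.1 he
  have hN' : ∀ p, (fun p => (N p : ℝ)) (fl p) = (fun p => (N p : ℝ)) p := fun p => by
    simp only [hN]
  obtain ⟨⟨α, β⟩, hαβ, hmax⟩ := Finset.exists_max_image
    (Finset.univ.filter fun q : Pb k × Pb k => q.1 ≠ q.2 ∧
      dm (fun p => (N p : ℝ)) e q.1 q.2 ≠ 0) (fun q => ξ q.1 q.2)
    ⟨(α₀, β₀), Finset.mem_filter.2 ⟨Finset.mem_univ _, h, hd⟩⟩
  obtain ⟨hne, hdm⟩ : α ≠ β ∧ dm (fun p => (N p : ℝ)) e α β ≠ 0 := (Finset.mem_filter.1 hαβ).2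
  have hM : ∀ a b, a ≠ b → dm (fun p => (N p : ℝ)) e a b ≠ 0 → ξ a b ≤ ξ α β := fun a b h1 h2 =>
    hmax (a, b) (Finset.mem_filter.2 ⟨Finset.mem_univ _, h1, h2⟩)
  obtain ⟨hα, hβ⟩ := PosC_one hN hdm
  -- the bound of one summand
  have hterm : ∀ γ, (if γ = α ∨ γ = β then 0 else wt (fun p => (N p : ℝ)) e α β γ *
        ((ξ α γ ^ 2 + ξ β γ ^ 2 - ξ α β ^ 2) / (ξ α γ * ξ β γ))) ≤
      (((N γ : ℝ) - (if γ = α then (N α : ℝ) else 0)) - (if γ = β then (N β : ℝ) else 0)) +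
      (if γ = fl α then max e 0 else 0) + (if γ = fl β then max e 0 else 0) := by
    intro γ
    have hm0 : (0 : ℝ) ≤ max e 0 := le_max_right _ _
    have hme : e ≤ max e 0 := le_max_left _ _
    have hA : (0 : ℝ) ≤ (if γ = fl α then max e 0 else 0) := by split_ifs <;> simp
    have hB : (0 : ℝ) ≤ (if γ = fl β then max e 0 else 0) := by split_ifs <;> simp
    by_cases h1 : γ = α
    · have h2 : ¬ γ = β := fun h3 => hne (h1.symm.trans h3)
      rw [if_pos (Or.inl h1), if_pos h1, if_neg h2, h1]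
      rw [h1] at hA hB
      linarith
    by_cases h2 : γ = β
    · rw [if_pos (Or.inr h2), if_neg h1, if_pos h2, h2]
      rw [h2] at hA hB
      linarith
    rw [if_neg (fun h3 => h3.elim h1 h2), if_neg h1, if_neg h2]
    have hw0 : 0 ≤ wt (fun p => (N p : ℝ)) e α β γ := PosC_wt_nonneg he' hN hne hα hβ
    have hw1 : wt (fun p => (N p : ℝ)) e α β γ ≤ (N γ : ℝ) - 0 - 0 +
        (if γ = fl α then max e 0 else 0) + (if γ = fl β then max e 0 else 0) := by
      unfold wt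
      beta_reduce
      split_ifs <;> linarith
    refine le_trans ?_ hw1
    rcases eq_or_ne (wt (fun p => (N p : ℝ)) e α β γ) 0 with hw | hw
    · rw [hw, zero_mul]
    · have hdγ : dm (fun p => (N p : ℝ)) e α γ ≠ 0 := by
        have h3 := dm_wt_symm (fun p => (N p : ℝ)) e hN' hne (Ne.symm h1) (Ne.symm h2)
        intro h4
        rw [h4, zero_mul] at h3
        exact (mul_ne_zero hdm hw) h3
      have hw' : wt (fun p => (N p : ℝ)) e β α γ ≠ 0 := by
        have h5 : wt (fun p => (N p : ℝ)) e β α γ = wt (fun p => (N p : ℝ)) e α β γ := by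
          unfold wt
          ring
        rw [h5]
        exact hw
      have hdγ' : dm (fun p => (N p : ℝ)) e β γ ≠ 0 := by
        have h3 := dm_wt_symm (fun p => (N p : ℝ)) e hN' (Ne.symm hne) (Ne.symm h2) (Ne.symm h1)
        have h5 : dm (fun p => (N p : ℝ)) e β α ≠ 0 := by
          rw [dm_symm _ e hN']
          exact hdm
        intro h4
        rw [h4, zero_mul] at h3
        exact (mul_ne_zero h5 hw') h3
      have hq := PosC_quot (hp α γ) (hp β γ) (hM _ _ (Ne.symm h1) hdγ) (hM _ _ (Ne.symm h2) hdγ')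
      calc wt (fun p => (N p : ℝ)) e α β γ *
            ((ξ α γ ^ 2 + ξ β γ ^ 2 - ξ α β ^ 2) / (ξ α γ * ξ β γ))
          ≤ wt (fun p => (N p : ℝ)) e α β γ * 1 := mul_le_mul_of_nonneg_left hq hw0
        _ = wt (fun p => (N p : ℝ)) e α β γ := mul_one _
  have hsum := Finset.sum_le_sum fun γ (_ : γ ∈ (Finset.univ : Finset (Pb k))) => hterm γ
  rw [← hE α β hne hdm] at hsum
  simp only [Finset.sum_add_distrib, Finset.sum_sub_distrib, Finset.sum_ite_eq',
    Finset.mem_univ, if_true] at hsum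
  have hlt : 0 < 2 * c * ξ α β := by
    have hα' : (1 : ℝ) ≤ N α := by exact_mod_cast hα
    have hβ' : (1 : ℝ) ≤ N β := by exact_mod_cast hβ
    have hS : (0 : ℝ) ≤ ∑ p, (N p : ℝ) := Finset.sum_nonneg fun _ _ => Nat.cast_nonneg _
    rcases he' with h1 | h1
    · have h2 : max e 0 = 1 := by rw [h1]; norm_num
      rw [h2, h1] at hsum
      linarith
    · have h2 : max e 0 = 0 := by rw [h1]; norm_num
      rw [h1] at hdm
      have h3 := PosC_big hN hne hdm
      rw [h2, h1] at hsum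
      linarith
  have hpos := hp α β
  by_contra hc
  push Not at hc
  have h5 : 2 * c * ξ α β ≤ 0 := mul_nonpos_of_nonpos_of_nonneg (by linarith) hpos.le
  linarith

end Pool.Agent.H43.BC
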