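import Pool.Agent.H43.BC.EinE
import Pool.Agent.H43.BC.PosC

/-!
# Module GeoM: Einstein metrics and the algebraic system

Compare `geo` in `Pool/Agent/H98/FL/GeoMain.lean`. `hS` gives `g = gx S ξ`. If no `α ≠ β` has `dm α β ≠ 0`: all entries of tangent vectors vanish
(`tt_absent`), `x = y = 1` solves `Sys` (both sides of every equation are `0`), `s = 1`. Otherwise `c > 0` (`einstein_eq`, `pos_c`). Let
`x α β = 2 c ξ α β` if `α ≠ β` and `dm α β ≠ 0`, and `x α β = 1` otherwise, `y = x⁻¹`, `s = 1 / (2 c)`. `symm`, `flip`: `dm_symm` and `dm (fl α) (fl β) = dm α β`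
(`ok.N_fl`, `fl_inj`). `eqn`: if `dm α β = 0` both sides vanish. Otherwise multiply `einstein_eq` by `dm α β`; if `wt α β γ ≠ 0` then
`dm α γ, dm β γ ≠ 0` (`dm_wt_symm`), so `x α γ = 2 c ξ α γ` etc. and the term is homogeneous of degree 0; if `wt = 0` both terms are `0`.
`g = s • gx S x`: entrywise, `x = 2 c ξ` or the entry is `0` (`tt_absent`, `tt_zero`).
-/

set_option autoImplicit false

namespace Pool.Agent.H43.BC

open Matrix Stmt

variable {k : ℕ} {S : Setup k} {N : Pb k → ℕ} {e : ℝ}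

theorem geo (ok : Ok S N e) (g : LinearMap.BilinForm ℝ (tt S)) (hg : IsEinstein ok g)
    (hS : ∃ ξ : Pb k → Pb k → ℝ, (∀ α β, ξ α β = ξ β α) ∧ (∀ α β, ξ (fl α) (fl β) = ξ α β) ∧
      (∀ α β, 0 < ξ α β) ∧ g = gx S ξ) :
    ∃ x y : Pb k → Pb k → ℝ, (Sys (fun p => (N p : ℝ)) e x y ∧ ∀ α β, 0 < x α β) ∧
      ∃ s : ℝ, 0 < s ∧ g = s • gx S x := by
  classical
  obtain ⟨ξ, hs, hf, hp, rfl⟩ := hS
  by_cases hk : ∃ α₀ β₀ : Pb k, α₀ ≠ β₀ ∧ dm (fun p => (N p : ℝ)) e α₀ β₀ ≠ 0
  · obtain ⟨α₀, β₀, h₀, hd₀⟩ := hk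
    obtain ⟨-, c, m, u, hu, hc⟩ := hg
    have hE := fun (α β : Pb k) (h : α ≠ β) (hd : dm (fun p => (N p : ℝ)) e α β ≠ 0) =>
      einstein_eq ok hs hf hp hu c hc h hd
    have hc0 : 0 < c := pos_c ok.e_sq ok.N_fl hs hp c hE h₀ hd₀
    have hN' : ∀ p, (fun p => (N p : ℝ)) (fl p) = (fun p => (N p : ℝ)) p := fun p => by
      simp only [ok.N_fl]
    let x : Pb k → Pb k → ℝ := fun α β =>
      if α ≠ β ∧ dm (fun p => (N p : ℝ)) e α β ≠ 0 then 2 * c * ξ α β else 1
    have hx1 : ∀ α β, α ≠ β → dm (fun p => (N p : ℝ)) e α β ≠ 0 → x α β = 2 * c * ξ α β :=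
      fun α β h hd => if_pos ⟨h, hd⟩
    have hx2 : ∀ α β, ¬ (α ≠ β ∧ dm (fun p => (N p : ℝ)) e α β ≠ 0) → x α β = 1 :=
      fun α β h => if_neg h
    have hxp : ∀ α β, 0 < x α β := by
      intro α β
      by_cases h : α ≠ β ∧ dm (fun p => (N p : ℝ)) e α β ≠ 0
      · rw [hx1 α β h.1 h.2]
        have := hp α β
        positivity
      · rw [hx2 α β h]
        exact one_pos
    refine ⟨x, fun α β => (x α β)⁻¹, ⟨⟨?_, ?_, ?_, ?_, ?_, ?_⟩, hxp⟩, 1 / (2 * c),
      by positivity, ?_⟩
    · intro α β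
      have h1 : (α ≠ β ∧ dm (fun p => (N p : ℝ)) e α β ≠ 0) ↔
          (β ≠ α ∧ dm (fun p => (N p : ℝ)) e β α ≠ 0) := by
        rw [dm_symm _ e hN' α β, ne_comm]
      by_cases h : α ≠ β ∧ dm (fun p => (N p : ℝ)) e α β ≠ 0
      · rw [hx1 α β h.1 h.2, hx1 β α (h1.1 h).1 (h1.1 h).2, hs]
      · rw [hx2 α β h, hx2 β α (fun h' => h (h1.2 h'))]
    · intro α β
      have h0 : dm (fun p => (N p : ℝ)) e (fl α) (fl β) = dm (fun p => (N p : ℝ)) e α β := by
        unfold dm
        simp only [ok.N_fl, fl_inj]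
      have h1 : (α ≠ β ∧ dm (fun p => (N p : ℝ)) e α β ≠ 0) ↔
          (fl α ≠ fl β ∧ dm (fun p => (N p : ℝ)) e (fl α) (fl β) ≠ 0) := by
        rw [h0, Ne, Ne, Ne, fl_inj]
      by_cases h : α ≠ β ∧ dm (fun p => (N p : ℝ)) e α β ≠ 0
      · rw [hx1 α β h.1 h.2, hx1 _ _ (h1.1 h).1 (h1.1 h).2, hf]
      · rw [hx2 α β h, hx2 _ _ (fun h' => h (h1.2 h'))]
    · intro α β
      exact mul_inv_cancel₀ (hxp α β).ne'
    · intro α
      exact hx2 α α (fun h => h.1 rfl)
    · intro α β hαβ
      by_cases hd : dm (fun p => (N p : ℝ)) e α β = 0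
      · rw [hd, zero_mul]
        symm
        refine Finset.sum_eq_zero fun γ _ => ?_
        split_ifs
        · rfl
        · ring
      · rw [hx1 α β hαβ hd, hE α β hαβ hd, Finset.mul_sum]
        refine Finset.sum_congr rfl fun γ _ => ?_
        by_cases hγ : γ = α ∨ γ = β
        · rw [if_pos hγ, if_pos hγ, mul_zero]
        · rw [if_neg hγ, if_neg hγ]
          by_cases hw : wt (fun p => (N p : ℝ)) e α β γ = 0
          · rw [hw]
            ring
          · push Not at hγ
            have hd1 : dm (fun p => (N p : ℝ)) e α γ ≠ 0 := by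
              intro h0
              have h2 := dm_wt_symm (fun p => (N p : ℝ)) e hN' hαβ hγ.1.symm hγ.2.symm
              rw [h0, zero_mul] at h2
              exact (mul_ne_zero hd hw) h2
            have hd2 : dm (fun p => (N p : ℝ)) e β γ ≠ 0 := by
              intro h0
              have h2 := dm_wt_symm (fun p => (N p : ℝ)) e hN' hαβ.symm hγ.2.symm hγ.1.symm
              have h3 : wt (fun p => (N p : ℝ)) e β α γ = wt (fun p => (N p : ℝ)) e α β γ := by
                unfold wt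
                ring
              rw [h0, zero_mul, h3, dm_symm _ e hN' β α] at h2
              exact (mul_ne_zero hd hw) h2
            rw [hx1 α γ hγ.1.symm hd1, hx1 β γ hγ.2.symm hd2]
            have h4 := hp α γ
            have h5 := hp β γ
            field_simp
    · intro α β _ hd
      exact hx2 α β (fun h => h.2 hd)
    · refine LinearMap.ext fun X => LinearMap.ext fun Y => ?_
      rw [LinearMap.smul_apply, LinearMap.smul_apply, gx_apply, gx_apply, smul_eq_mul]
      have h1 : ∀ a b : S.I, x (S.blk a) (S.blk b) *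
          ((X : Matrix S.I S.I ℂ) a b * star ((Y : Matrix S.I S.I ℂ) a b)).re
          = (2 * c) * (ξ (S.blk a) (S.blk b) *
          ((X : Matrix S.I S.I ℂ) a b * star ((Y : Matrix S.I S.I ℂ) a b)).re) := by
        intro a b
        by_cases h : S.blk a ≠ S.blk b ∧ dm (fun p => (N p : ℝ)) e (S.blk a) (S.blk b) ≠ 0
        · rw [hx1 _ _ h.1 h.2]
          ring
        · have h2 : (X : Matrix S.I S.I ℂ) a b = 0 := by
            by_cases h3 : S.blk a = S.blk b
            · exact tt_zero X h3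
            · refine tt_absent ok X a b ?_
              by_contra h4
              exact h ⟨h3, h4⟩
          rw [h2]
          simp
      simp only [h1, ← Finset.mul_sum]
      field_simp
  · push Not at hk
    refine ⟨fun _ _ => 1, fun _ _ => 1, ⟨⟨fun _ _ => rfl, fun _ _ => rfl,
      fun _ _ => one_mul 1, fun _ => rfl, fun α β hαβ => ?_, fun _ _ _ _ => rfl⟩,
      fun _ _ => one_pos⟩, 1, one_pos, ?_⟩
    · rw [hk α β hαβ, zero_mul]
      symm
      refine Finset.sum_eq_zero fun γ _ => ?_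
      split_ifs
      · rfl
      · ring
    · rw [one_smul]
      refine LinearMap.ext fun X => LinearMap.ext fun Y => ?_
      rw [gx_apply, gx_apply]
      congr 1
      refine Finset.sum_congr rfl fun a _ => Finset.sum_congr rfl fun b _ => ?_
      have h2 : (X : Matrix S.I S.I ℂ) a b = 0 := by
        by_cases h3 : S.blk a = S.blk b
        · exact tt_zero X h3
        · exact tt_absent ok X a b (hk _ _ h3)
      rw [h2]
      simp

end Pool.Agent.H43.BC
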