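import Pool.Agent.H43.BC.SchB
import Pool.Agent.H43.BC.GeoM

/-!
# Module Brg: from the finiteness of the algebraic system to `FinitelyManyEinstein`

Compare `Pool/Agent/H98/FL/Bridge.lean`. `G` is the image of the finite set under `p ↦ (fun X Y => (1/2) * ∑ a, ∑ b, p.1 (blk a) (blk b) * (X a b * star (Y a b)).re)`. Given `g` with `EinsteinMetric S g`, let `g'` be the bilinear form
on `tt S` with `g' X Y = g X Y` (`LinearMap.mk₂`, `InnerProd`). `IsEinstein ok g'`: `IsInvMetric` from `InvMetric` (an element `X ≠ 0` of `tt S` is a nonzero matrix), the basis `b i = ⟨e i, _⟩` of `tt S` is an `IsONB` (the span is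
everything by the third part of `OrthoBasis`), and `ric ok g' b X = ricci S g e X` (`brk_coe`, all by definition). `schur` and `geo` give `x, y, s` with `g' = s • gx S x`.
-/

set_option autoImplicit false

namespace Pool.Agent.H43.BC

open Matrix Stmt

variable {k : ℕ} {S : Setup k} {N : Pb k → ℕ} {e : ℝ}

/-- the bilinear form on `tt S` given by a function on matrices -/
private noncomputable def brg_form (g : Matrix S.I S.I ℂ → Matrix S.I S.I ℂ → ℝ)
    (h : InnerProd S g) : LinearMap.BilinForm ℝ (tt S) :=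
  LinearMap.mk₂ ℝ (fun X Y => g (X : Matrix S.I S.I ℂ) (Y : Matrix S.I S.I ℂ))
    (fun X X' Y => h.1 _ _ _ X.2 X'.2 Y.2)
    (fun c X Y => h.2.1 c _ _ X.2 Y.2)
    (fun X Y Y' => by
      have h1 := h.2.2.1 (X : Matrix S.I S.I ℂ) ((Y + Y' : tt S) : Matrix S.I S.I ℂ) X.2
        (Y + Y').2
      rw [h1]
      have h2 := h.1 (Y : Matrix S.I S.I ℂ) (Y' : Matrix S.I S.I ℂ) (X : Matrix S.I S.I ℂ)
        Y.2 Y'.2 X.2
      have h3 := h.2.2.1 (X : Matrix S.I S.I ℂ) (Y : Matrix S.I S.I ℂ) X.2 Y.2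
      have h4 := h.2.2.1 (X : Matrix S.I S.I ℂ) (Y' : Matrix S.I S.I ℂ) X.2 Y'.2
      rw [h3, h4]
      exact h2)
    (fun c X Y => by
      have h1 := h.2.2.1 (X : Matrix S.I S.I ℂ) ((c • Y : tt S) : Matrix S.I S.I ℂ) X.2
        (c • Y).2
      rw [h1]
      have h2 := h.2.1 c (Y : Matrix S.I S.I ℂ) (X : Matrix S.I S.I ℂ) Y.2 X.2
      have h3 := h.2.2.1 (X : Matrix S.I S.I ℂ) (Y : Matrix S.I S.I ℂ) X.2 Y.2
      rw [h3]
      exact h2)

private theorem brg_form_apply (g : Matrix S.I S.I ℂ → Matrix S.I S.I ℂ → ℝ)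
    (h : InnerProd S g) (X Y : tt S) :
    brg_form g h X Y = g (X : Matrix S.I S.I ℂ) (Y : Matrix S.I S.I ℂ) := rfl

private theorem brg_einstein (ok : Ok S N e) (g : Matrix S.I S.I ℂ → Matrix S.I S.I ℂ → ℝ)
    (h : EinsteinMetric S g) : IsEinstein ok (brg_form g h.1.1) := by
  obtain ⟨⟨hin, hinv⟩, c, m, b, ⟨he1, he2, he3⟩, hc⟩ := h
  refine ⟨⟨fun X Y => hin.2.2.1 _ _ X.2 Y.2, fun X hX => ?_, fun U hU X Y X' Y' hX hY => ?_⟩,
    c, m, fun i => ⟨b i, he1 i⟩, ⟨fun i j => he2 i j, ?_⟩, fun X => ?_⟩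
  · refine hin.2.2.2 _ X.2 fun h0 => hX ?_
    exact Subtype.ext h0
  · have h1 := hinv U hU (X : Matrix S.I S.I ℂ) (Y : Matrix S.I S.I ℂ) X.2 Y.2
    rw [brg_form_apply, brg_form_apply, hX, hY]
    exact h1
  · rw [eq_top_iff]
    intro X _
    obtain ⟨a, ha⟩ := he3 (X : Matrix S.I S.I ℂ) X.2
    have h1 : X = ∑ i, a i • (⟨b i, he1 i⟩ : tt S) := by
      refine Subtype.ext ?_
      rw [ha]
      simp
    rw [h1]
    exact Submodule.sum_mem _ fun i _ =>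
      Submodule.smul_mem _ _ (Submodule.subset_span ⟨i, rfl⟩)
  · exact hc (X : Matrix S.I S.I ℂ) X.2

theorem brg (ok : Ok S N e) (okk : Okk S e)
    (h : {p : (Pb k → Pb k → ℝ) × (Pb k → Pb k → ℝ) |
      Sys (fun q => (N q : ℝ)) e p.1 p.2 ∧ ∀ α β, 0 < p.1 α β}.Finite) :
    FinitelyManyEinstein S := by
  refine ⟨(fun p : (Pb k → Pb k → ℝ) × (Pb k → Pb k → ℝ) => fun X Y : Matrix S.I S.I ℂ =>
    (1 / 2) * ∑ a, ∑ b, p.1 (S.blk a) (S.blk b) * (X a b * star (Y a b)).re) '' _, h.image _,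
    fun g hg => ?_⟩
  have hE := brg_einstein ok g hg
  obtain ⟨x, y, hxy, s, hs, hgs⟩ := geo ok (brg_form g hg.1.1) hE (schur ok okk hE.1)
  refine ⟨_, ⟨(x, y), hxy, rfl⟩, s, hs, fun X Y hX hY => ?_⟩
  have h1 := LinearMap.congr_fun (LinearMap.congr_fun hgs ⟨X, hX⟩) ⟨Y, hY⟩
  exact h1

end Pool.Agent.H43.BC
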