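import Pool.Agent.H43.BC.Stmt

/-!
# Flag manifolds of types B, C, D: working definitions (MP_f7dfa6_gt)

`Pb k` = blocks, `fl` = exchange of the blocks `(i, true)`, `(i, false)`. `Ok S N e` collects the facts
about the two models (`e = -1` orthogonal, `e = 1` symplectic, `N p` = number of indices in the
block `p`). `wt N e α β γ` is the weight of the block `γ` in the Einstein equation of the module
`(α, β)`.
-/

set_option autoImplicit false

namespace Pool.Agent.H43.BC

open Matrix Stmt

variable {k : ℕ}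

/-- the blocks -/
abbrev Pb (k : ℕ) : Type := Option (Fin k × Bool)

/-- the involution of the blocks -/
def fl (p : Pb k) : Pb k := p.map fun q => (q.1, !q.2)

@[simp] theorem fl_none : fl (none : Pb k) = none := rfl

@[simp] theorem fl_some (i : Fin k) (b : Bool) : fl (some (i, b)) = some (i, !b) := rfl

@[simp] theorem fl_fl (p : Pb k) : fl (fl p) = p := by
  rcases p with _ | ⟨i, b⟩ <;> simp

theorem fl_eq_iff {p q : Pb k} : fl p = q ↔ p = fl q :=
  ⟨fun h => by rw [← h, fl_fl], fun h => by rw [h, fl_fl]⟩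

theorem fl_inj {p q : Pb k} : fl p = fl q ↔ p = q :=
  ⟨fun h => by rw [← fl_fl p, h, fl_fl], fun h => by rw [h]⟩

/-- the sizes of the blocks; `m` is the size of the block 0 (`m` for `SO(m)`, `2 m` for `Sp(m)`) -/
def NN (n : Fin k → ℕ) (m : ℕ) (p : Pb k) : ℕ := p.elim m fun q => n q.1

@[simp] theorem NN_none (n : Fin k → ℕ) (m : ℕ) : NN n m none = m := rfl

@[simp] theorem NN_some (n : Fin k → ℕ) (m : ℕ) (i : Fin k) (b : Bool) :
    NN n m (some (i, b)) = n i := rfl

/-- the facts about the models used in the computation of the Ricci curvature -/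
structure Ok (S : Setup k) (N : Pb k → ℕ) (e : ℝ) : Prop where
  inv_inv : ∀ a, S.inv (S.inv a) = a
  sq : ∀ a, S.sgn a * S.sgn a = 1
  sgn_inv : ∀ a, S.sgn (S.inv a) = -e * S.sgn a
  e_sq : e * e = 1
  blk_inv : ∀ a, S.blk (S.inv a) = fl (S.blk a)
  card : ∀ p, (Finset.univ.filter fun a => S.blk a = p).card = N p
  N_fl : ∀ p, N (fl p) = N p
  kil_eq : S.kil = (∑ p, (N p : ℝ)) + 2 * e

/-- the tangent space -/
def tt (S : Setup k) : Submodule ℝ (Matrix S.I S.I ℂ) where
  carrier := {X | Tangent S X}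
  add_mem' := by
    rintro X Y ⟨h1, h2, h3⟩ ⟨h1', h2', h3'⟩
    refine ⟨by rw [conjTranspose_add, h1, h1']; abel, fun a b => ?_, fun a b h => ?_⟩
    · rw [Matrix.add_apply, Matrix.add_apply, h2, h2', star_add]; ring
    · rw [Matrix.add_apply, h3 a b h, h3' a b h, add_zero]
  zero_mem' := ⟨by simp, fun _ _ => by simp, fun _ _ _ => rfl⟩
  smul_mem' := by
    rintro c X ⟨h1, h2, h3⟩
    refine ⟨?_, fun a b => ?_, fun a b h => ?_⟩
    · rw [conjTranspose_smul, h1]; simp
    · rw [Matrix.smul_apply, Matrix.smul_apply, h2]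
      simp only [Complex.real_smul, star_mul', RCLike.star_def, Complex.conj_ofReal]
      ring
    · rw [Matrix.smul_apply, h3 a b h, smul_zero]

theorem mem_tt {S : Setup k} {X : Matrix S.I S.I ℂ} : X ∈ tt S ↔ Tangent S X := Iff.rfl

/-- inner products on the tangent space which are Ad(K)-invariant -/
structure IsInvMetric (S : Setup k) (g : LinearMap.BilinForm ℝ (tt S)) : Prop where
  symm : ∀ X Y, g X Y = g Y X
  pos : ∀ X, X ≠ 0 → 0 < g X X
  inv : ∀ U, Isotropy S U → ∀ X Y X' Y' : tt S,
    (X' : Matrix S.I S.I ℂ) = U * (X : Matrix S.I S.I ℂ) * Uᴴ →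
    (Y' : Matrix S.I S.I ℂ) = U * (Y : Matrix S.I S.I ℂ) * Uᴴ → g X' Y' = g X Y

/-- orthonormal basis -/
def IsONB {S : Setup k} (g : LinearMap.BilinForm ℝ (tt S)) {m : ℕ} (e : Fin m → tt S) : Prop :=
  (∀ i j, g (e i) (e j) = if i = j then 1 else 0) ∧ Submodule.span ℝ (Set.range e) = ⊤

/-- the weight of the block `γ` in the equation of the module `(α, β)`, for different `α, β, γ` -/
def wt {R : Type*} [CommRing R] (N : Pb k → R) (e : R) (α β γ : Pb k) : R :=
  N γ + (if γ = fl α then e else 0) + if γ = fl β then e else 0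

/-- the dimension (up to a factor) of the module `(α, β)` -/
def dm {R : Type*} [CommRing R] (N : Pb k → R) (e : R) (α β : Pb k) : R :=
  N α * (N β + if β = fl α then e else 0)

/-- the Einstein equations, normalised to the Einstein constant `1/2`, over a commutative ring;
`y` is the table of the inverses of the unknowns `x` -/
structure Sys {R : Type*} [CommRing R] (N : Pb k → R) (e : R) (x y : Pb k → Pb k → R) :
    Prop where
  symm : ∀ α β, x α β = x β α
  flip : ∀ α β, x (fl α) (fl β) = x α β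
  inv : ∀ α β, x α β * y α β = 1
  diag : ∀ α, x α α = 1
  eqn : ∀ α β, α ≠ β → dm N e α β * (2 * ((∑ γ, N γ) + 2 * e) - x α β) =
    ∑ γ, if γ = α ∨ γ = β then 0 else
      dm N e α β * wt N e α β γ * (x α γ ^ 2 + x β γ ^ 2 - x α β ^ 2) * (y α γ * y β γ)
  absent : ∀ α β, α ≠ β → dm N e α β = 0 → x α β = 1

end Pool.Agent.H43.BC
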