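import Pool.Agent.H43.BC.InvC

/-!
# Module Dg: invariance under diagonal matrices

`Ph S u` : the diagonal matrix `U = diag u` is in the isotropy group. `isotropy_diag`: `U Uᴴ = 1` since `u_a star u_a = 1`, `det U = ∏ u_a = 1`
(`Matrix.mem_specialUnitaryGroup_iff`, `Matrix.det_diagonal`), `CommJ`: `U (σa) (σb) = [a = b] u (σa) = [a = b] star (u a) = s_a s_b star (U a b)` (`s_a² = 1`),
block diagonal: clear. `inv_diag`: `U E_ab Uᴴ = u_a star(u_b) E_ab` and
`U E_{σb,σa} Uᴴ = u (σb) star (u (σa)) E_{σb,σa} = star (u_b) u_a E_{σb,σa}`, so `U Um_ab Uᴴ = u_a star(u_b) Um_ab`, and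
`cj (Fv ok a b z) = Fv ok a b (u_a star(u_b) z)`; then `g_cj`.
`Ph.mul`: clear. `Ph_phs`: `phs p ζ` is `ζ` at `p`, `star ζ` at `σp`, `1` elsewhere; the product is `ζ star ζ = 1` (use `Finset.prod_eq_mul` or split off the two
factors). `Ph_ph2`: the product is `(-1) * (-1)`.
-/

set_option autoImplicit false

namespace Pool.Agent.H43.BC

open Matrix Stmt

variable {k : ℕ} {S : Setup k} {N : Pb k → ℕ} {e : ℝ}

/-- phases: the diagonal elements of the isotropy group -/
structure Ph (S : Setup k) (u : S.I → ℂ) : Prop where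
  norm : ∀ a, u a * star (u a) = 1
  inv : ∀ a, u (S.inv a) = star (u a)
  prod : ∏ a, u a = 1

theorem Ph.mul {u v : S.I → ℂ} (hu : Ph S u) (hv : Ph S v) : Ph S (fun a => u a * v a) := by
  refine ⟨fun a => ?_, fun a => ?_, ?_⟩
  · rw [star_mul']
    linear_combination (v a * star (v a)) * hu.norm a + hv.norm a
  · rw [hu.inv a, hv.inv a, star_mul']
  · rw [Finset.prod_mul_distrib, hu.prod, hv.prod, one_mul]

/-- the phase `ζ` at `p`, its conjugate at `σp` -/
noncomputable def phs (S : Setup k) (p : S.I) (ζ : ℂ) (a : S.I) : ℂ :=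
  if a = p then ζ else if a = S.inv p then star ζ else 1

theorem Ph_phs (ok : Ok S N e) {p : S.I} (hp : S.inv p ≠ p) {ζ : ℂ} (hζ : ζ * star ζ = 1) :
    Ph S (phs S p ζ) := by
  have hinv : ∀ {a b : S.I}, S.inv a = b → a = S.inv b := fun h => by rw [← h, ok.inv_inv]
  refine ⟨fun a => ?_, fun a => ?_, ?_⟩
  · unfold phs
    split_ifs with h1 h2
    · exact hζ
    · rw [star_star, mul_comm]
      exact hζ
    · rw [star_one, mul_one]
  · unfold phs
    by_cases h1 : a = p
    · subst h1
      rw [if_neg hp, if_pos rfl, if_pos rfl]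
    · by_cases h2 : a = S.inv p
      · have h3 : S.inv a = p := by rw [h2, ok.inv_inv]
        rw [if_pos h3, if_neg h1, if_pos h2, star_star]
      · have h3 : S.inv a ≠ p := fun h => h2 (hinv h)
        have h4 : S.inv a ≠ S.inv p := fun h => h1 (by rw [hinv h, ok.inv_inv])
        rw [if_neg h3, if_neg h4, if_neg h1, if_neg h2, star_one]
  · rw [Fintype.prod_eq_mul p (S.inv p) hp.symm (fun x hx => by
      unfold phs
      rw [if_neg hx.1, if_neg hx.2])]
    unfold phs
    rw [if_pos rfl, if_neg hp, if_pos rfl]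
    exact hζ

/-- the sign `-1` at two fixed points -/
noncomputable def ph2 (S : Setup k) (p q : S.I) (a : S.I) : ℂ :=
  if a = p ∨ a = q then -1 else 1

theorem Ph_ph2 (ok : Ok S N e) {p q : S.I} (hp : S.inv p = p) (hq : S.inv q = q) (hpq : p ≠ q) :
    Ph S (ph2 S p q) := by
  have hinv : ∀ {a b : S.I}, S.inv a = b → a = S.inv b := fun h => by rw [← h, ok.inv_inv]
  refine ⟨fun a => ?_, fun a => ?_, ?_⟩
  · unfold ph2
    split_ifs
    · rw [star_neg, star_one, neg_mul_neg, mul_one]
    · rw [star_one, mul_one]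
  · unfold ph2
    have h1 : (S.inv a = p ∨ S.inv a = q) ↔ (a = p ∨ a = q) := by
      constructor
      · rintro (h | h)
        · exact Or.inl ((hinv h).trans hp)
        · exact Or.inr ((hinv h).trans hq)
      · rintro (h | h)
        · exact Or.inl (by rw [h, hp])
        · exact Or.inr (by rw [h, hq])
    by_cases h2 : a = p ∨ a = q
    · rw [if_pos (h1.mpr h2), if_pos h2, star_neg, star_one]
    · rw [if_neg (fun h => h2 (h1.mp h)), if_neg h2, star_one]
  · rw [Fintype.prod_eq_mul p q hpq (fun x hx => by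
      unfold ph2
      rw [if_neg (fun h => h.elim hx.1 hx.2)])]
    unfold ph2
    rw [if_pos (Or.inl rfl), if_pos (Or.inr rfl), neg_mul_neg, mul_one]

theorem isotropy_diag {u : S.I → ℂ} (ok : Ok S N e) (hu : Ph S u) :
    Isotropy S (Matrix.diagonal u) := by
  refine ⟨?_, fun a b => ?_, fun a b hab => ?_⟩
  · rw [Matrix.mem_specialUnitaryGroup_iff]
    refine ⟨?_, ?_⟩
    · rw [Matrix.mem_unitaryGroup_iff, Matrix.star_eq_conjTranspose,
        Matrix.diagonal_conjTranspose, Matrix.diagonal_mul_diagonal]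
      have h1 : (fun i => u i * (star u) i) = fun _ => (1 : ℂ) := funext fun a => hu.norm a
      rw [h1]
      exact Matrix.diagonal_one
    · rw [Matrix.det_diagonal]
      exact hu.prod
  · by_cases hab : a = b
    · subst hab
      rw [Matrix.diagonal_apply_eq, Matrix.diagonal_apply_eq, hu.inv a, ← Complex.ofReal_mul,
        ok.sq, Complex.ofReal_one, one_mul]
    · have h1 : S.inv a ≠ S.inv b := fun h => hab (by
        rw [← ok.inv_inv a, h, ok.inv_inv])
      rw [Matrix.diagonal_apply_ne _ hab, Matrix.diagonal_apply_ne _ h1, star_zero, mul_zero]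
  · exact Matrix.diagonal_apply_ne _ (fun h => hab (by rw [h]))

private theorem cj_diag (ok : Ok S N e) {u : S.I → ℂ} (hu : Ph S u) (a b : S.I) (z : ℂ) :
    cj ok (isotropy_diag ok hu) (Fv ok a b z) = Fv ok a b (u a * star (u b) * z) := by
  apply Subtype.ext
  rw [cj_coe]
  by_cases h : S.blk a = S.blk b
  · rw [Fv_same ok h, Fv_same ok h, ZeroMemClass.coe_zero, Matrix.mul_zero, Matrix.zero_mul]
  · ext p q
    rw [Matrix.diagonal_conjTranspose, Matrix.mul_diagonal, Matrix.diagonal_mul,
      Fv_entry ok h, Fv_entry ok h]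
    have h1 : u p * (if a = p ∧ b = q then z else 0) * star (u q) =
        if a = p ∧ b = q then u a * star (u b) * z else 0 := by
      split_ifs with hc
      · obtain ⟨rfl, rfl⟩ := hc
        ring
      · ring
    have h2 : u p * (if b = p ∧ a = q then star z else 0) * star (u q) =
        if b = p ∧ a = q then star (u a * star (u b) * z) else 0 := by
      split_ifs with hc
      · obtain ⟨rfl, rfl⟩ := hc
        rw [star_mul', star_mul', star_star]
        ring
      · ring
    have h3 : u p * (if S.inv a = p ∧ S.inv b = q then (S.sgn a : ℂ) * S.sgn b * star z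
        else 0) * star (u q) =
        if S.inv a = p ∧ S.inv b = q then
          (S.sgn a : ℂ) * S.sgn b * star (u a * star (u b) * z) else 0 := by
      split_ifs with hc
      · obtain ⟨rfl, rfl⟩ := hc
        rw [star_mul', star_mul', star_star, hu.inv, hu.inv, star_star]
        ring
      · ring
    have h4 : u p * (if S.inv b = p ∧ S.inv a = q then (S.sgn a : ℂ) * S.sgn b * z
        else 0) * star (u q) =
        if S.inv b = p ∧ S.inv a = q then
          (S.sgn a : ℂ) * S.sgn b * (u a * star (u b) * z) else 0 := by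
      split_ifs with hc
      · obtain ⟨rfl, rfl⟩ := hc
        rw [hu.inv, hu.inv, star_star]
        ring
      · ring
    rw [← h1, ← h2, ← h3, ← h4, Pi.star_apply]
    ring

theorem inv_diag (ok : Ok S N e) {g : LinearMap.BilinForm ℝ (tt S)} (hg : IsInvMetric S g)
    {u : S.I → ℂ} (hu : Ph S u) (a b c d : S.I) (z w : ℂ) :
    g (Fv ok a b (u a * star (u b) * z)) (Fv ok c d (u c * star (u d) * w)) =
      g (Fv ok a b z) (Fv ok c d w) := by
  rw [← cj_diag ok hu, ← cj_diag ok hu]
  exact g_cj ok hg _ _ _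

end Pool.Agent.H43.BC
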