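import Pool.Agent.H43.BC.FvI

/-!
# Module Pres: present and absent modules

`dm N e α β = N α (N β + [β = fl α] e)`, `e = 1` or `e = -1` (from `e e = 1`), `N (fl α) = N α` (`ok.N_fl`).
`exists_frame`: `N α ≠ 0`, so there is `a` with `blk a = α` (`ok.card`). If `β ≠ fl α`: there is `b` with `blk b = β`, and
`b ≠ σa` because `blk (σa) = fl α`; the entry `(a, b)` of `Fv ok a b 1` is `1` (`Fv_entry`; `σb = a` would give `b = σa`).
If `β = fl α`, `e = 1`: `b = σa`: the entry `(a, σa)` is `1 - s_a s_{σa} = 1 + e = 2` (`a ≠ σa` because the blocks differ). If `β = fl α`,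
`e = -1`: `N α ≥ 2`, take `c ≠ a` with `blk c = α` and `b = σc`, entry `1`. In the first and third case `b ≠ σa`.
`tt_absent`: if `blk a = blk b` then `tt_zero`. Otherwise `N (blk a), N (blk b) ≥ 1`, so `β = fl α` and `N α + e = 0`, `e = -1`, `N β = 1`:
`b = σa` (the block `β` has one element). Then `X (σa) (σσa) = s_a s_{σa} conj (X a (σa)) = conj (X a (σa))` (`s_{σa} = s_a`) and
`X (σa) a = -conj (X a (σa))` (`tt_skew`), so `X a (σa) = 0`.
-/

set_option autoImplicit false

namespace Pool.Agent.H43.BC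

open Matrix Stmt

variable {k : ℕ} {S : Setup k} {N : Pb k → ℕ} {e : ℝ}

private theorem Pres_none {p : Pb k} (h : fl p = p) : p = none := by
  rcases p with _ | ⟨i, b⟩
  · rfl
  · rw [fl_some] at h
    cases b <;> simp at h

private theorem Pres_mem (ok : Ok S N e) {p : Pb k} (h : N p ≠ 0) : ∃ a, S.blk a = p := by
  classical
  have h1 := ok.card p
  have h2 : 0 < (Finset.univ.filter fun a => S.blk a = p).card := by
    rw [h1]
    exact Nat.pos_of_ne_zero h
  obtain ⟨a, ha⟩ := Finset.card_pos.1 h2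
  exact ⟨a, (Finset.mem_filter.1 ha).2⟩

private theorem Pres_pos (ok : Ok S N e) (a : S.I) : N (S.blk a) ≠ 0 := by
  classical
  rw [← ok.card]
  exact Finset.card_ne_zero_of_mem (Finset.mem_filter.2 ⟨Finset.mem_univ a, rfl⟩)

private theorem Pres_e (ok : Ok S N e) : e = 1 ∨ e = -1 := mul_self_eq_one_iff.1 ok.e_sq

private theorem Pres_ne {ok : Ok S N e} {a b : S.I} {z : ℂ}
    (h : (Fv ok a b z : Matrix S.I S.I ℂ) a b ≠ 0) : Fv ok a b z ≠ 0 := by
  intro h1
  rw [h1] at h
  exact h rfl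

/-- no index of the two blocks is fixed by the involution -/
private theorem Pres_fix (ok : Ok S N e) {a b : S.I} (h : S.blk a ≠ S.blk b) :
    ¬ (S.inv a = a ∧ S.inv b = b) := by
  rintro ⟨h1, h2⟩
  have h3 : fl (S.blk a) = S.blk a := by rw [← ok.blk_inv, h1]
  have h4 : fl (S.blk b) = S.blk b := by rw [← ok.blk_inv, h2]
  exact h (by rw [Pres_none h3, Pres_none h4])

private theorem Pres_one (ok : Ok S N e) {a b : S.I} (h : S.blk a ≠ S.blk b)
    (h1 : ¬ (S.inv b = a ∧ S.inv a = b)) : Fv ok a b 1 ≠ 0 := by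
  apply Pres_ne
  have h2 : ¬ (b = a ∧ a = b) := fun h3 => h (by rw [← h3.2])
  rw [Fv_entry ok h, if_pos ⟨rfl, rfl⟩, if_neg h2, if_neg (Pres_fix ok h), if_neg h1]
  simp

theorem exists_frame (ok : Ok S N e) {α β : Pb k} (h : α ≠ β)
    (hd : dm (fun p => (N p : ℝ)) e α β ≠ 0) :
    ∃ a b, S.blk a = α ∧ S.blk b = β ∧ Fv ok a b 1 ≠ 0 := by
  classical
  unfold dm at hd
  beta_reduce at hd
  obtain ⟨hd1, hd2⟩ := mul_ne_zero_iff.1 hd
  have hα : N α ≠ 0 := by exact_mod_cast hd1
  obtain ⟨a, ha⟩ := Pres_mem ok hα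
  by_cases hβ : β = fl α
  · rcases Pres_e ok with he | he
    · have hb : S.blk (S.inv a) = β := by rw [ok.blk_inv, ha, hβ]
      have hab : S.blk a ≠ S.blk (S.inv a) := by rw [ha, hb]; exact h
      refine ⟨a, S.inv a, ha, hb, Pres_ne ?_⟩
      have h2 : ¬ (S.inv a = a ∧ a = S.inv a) := fun h3 => hab (by rw [← h3.2])
      have h3 : ¬ (S.inv a = a ∧ S.inv (S.inv a) = S.inv a) := fun h3 => hab (by rw [h3.1])
      have h4 : (S.sgn a : ℂ) * S.sgn (S.inv a) = -1 := by
        rw [← Complex.ofReal_mul, ok.sgn_inv, he]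
        have := ok.sq a
        have e1 : S.sgn a * (-1 * S.sgn a) = -1 := by linarith
        rw [e1]
        simp
      rw [Fv_entry ok hab, if_pos ⟨rfl, rfl⟩, if_neg h2, if_neg h3,
        if_pos ⟨ok.inv_inv a, rfl⟩, h4]
      norm_num
    · have h1 : (N β : ℝ) ≠ 1 := by
        rw [if_pos hβ, he] at hd2
        intro h3
        exact hd2 (by rw [h3]; ring)
      have h2 : N β = N α := by rw [hβ, ok.N_fl]
      have h3 : N α ≠ 1 := by
        intro h4
        exact h1 (by rw [h2, h4]; norm_num)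
      have h4 : 1 < (Finset.univ.filter fun a => S.blk a = α).card := by
        rw [ok.card]
        omega
      obtain ⟨c, hc, hca⟩ := Finset.exists_mem_ne h4 a
      have hc1 : S.blk c = α := (Finset.mem_filter.1 hc).2
      have hb : S.blk (S.inv c) = β := by rw [ok.blk_inv, hc1, hβ]
      refine ⟨a, S.inv c, ha, hb, Pres_one ok (by rw [ha, hb]; exact h) ?_⟩
      rintro ⟨h5, -⟩
      rw [ok.inv_inv] at h5
      exact hca h5
  · have h1 : N β ≠ 0 := by
      rw [if_neg hβ, add_zero] at hd2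
      exact_mod_cast hd2
    obtain ⟨b, hb⟩ := Pres_mem ok h1
    refine ⟨a, b, ha, hb, Pres_one ok (by rw [ha, hb]; exact h) ?_⟩
    rintro ⟨-, h5⟩
    exact hβ (by rw [← hb, ← h5, ok.blk_inv, ha])

theorem tt_absent (ok : Ok S N e) (X : tt S) (a b : S.I)
    (h : dm (fun p => (N p : ℝ)) e (S.blk a) (S.blk b) = 0) :
    (X : Matrix S.I S.I ℂ) a b = 0 := by
  classical
  by_cases hab : S.blk a = S.blk b
  · exact tt_zero X hab
  unfold dm at h
  beta_reduce at h
  have ha := Pres_pos ok a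
  have hb := Pres_pos ok b
  have ha' : (N (S.blk a) : ℝ) ≠ 0 := by exact_mod_cast ha
  have h1 := (mul_eq_zero.1 h).resolve_left ha'
  by_cases hβ : S.blk b = fl (S.blk a)
  swap
  · rw [if_neg hβ, add_zero] at h1
    exact absurd (by exact_mod_cast h1) hb
  rw [if_pos hβ] at h1
  have hb1 : (1 : ℝ) ≤ N (S.blk b) := by exact_mod_cast Nat.one_le_iff_ne_zero.2 hb
  have he : e = -1 := by
    rcases Pres_e ok with he | he
    · linarith
    · exact he
  have hN : N (S.blk b) = 1 := by
    have : (N (S.blk b) : ℝ) = 1 := by linarith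
    exact_mod_cast this
  have hcard : (Finset.univ.filter fun c => S.blk c = S.blk b).card = 1 := by rw [ok.card, hN]
  have hb2 : b = S.inv a := by
    refine Finset.card_le_one.1 hcard.le b ?_ (S.inv a) ?_
    · exact Finset.mem_filter.2 ⟨Finset.mem_univ _, rfl⟩
    · exact Finset.mem_filter.2 ⟨Finset.mem_univ _, by rw [ok.blk_inv, hβ]⟩
  have h2 := tt_comm X a (S.inv a)
  have h3 := tt_skew X a (S.inv a)
  rw [ok.inv_inv] at h2
  have h4 : (S.sgn a : ℂ) * S.sgn (S.inv a) = 1 := by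
    rw [← Complex.ofReal_mul, ok.sgn_inv, he]
    have := ok.sq a
    have e1 : S.sgn a * (-(-1) * S.sgn a) = 1 := by linarith
    rw [e1]
    simp
  rw [h4, one_mul] at h2
  rw [h2] at h3
  have h5 : star ((X : Matrix S.I S.I ℂ) a (S.inv a)) = 0 := by
    have h6 := h3
    generalize star ((X : Matrix S.I S.I ℂ) a (S.inv a)) = w at h6 ⊢
    linear_combination (1 / 2 : ℂ) * h6
  rw [hb2]
  exact star_eq_zero.1 h5

/-- the total weights are symmetric -/
theorem dm_symm {R : Type*} [CommRing R] (N : Pb k → R) (e : R) (hN : ∀ p, N (fl p) = N p)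
    (α β : Pb k) : dm N e α β = dm N e β α := by
  classical
  unfold dm
  by_cases h : β = fl α
  · have h' : α = fl β := by rw [h, fl_fl]
    have h1 : N β = N α := by rw [h, hN]
    rw [if_pos h, if_pos h', h1]
  · have h' : ¬ α = fl β := fun h2 => h (by rw [h2, fl_fl])
    rw [if_neg h, if_neg h']
    ring

theorem dm_wt_symm {R : Type*} [CommRing R] (N : Pb k → R) (e : R) (hN : ∀ p, N (fl p) = N p)
    {α β γ : Pb k} (h1 : α ≠ β) (h2 : α ≠ γ) (h3 : β ≠ γ) :
    dm N e α β * wt N e α β γ = dm N e α γ * wt N e α γ β := by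
  classical
  unfold dm wt
  by_cases hb : β = fl α
  · have k1 : ¬ γ = fl α := fun h => h3 (by rw [hb, h])
    have k2 : ¬ γ = fl β := fun h => h2 (by rw [h, hb, fl_fl])
    have k3 : ¬ β = fl γ := fun h => k2 (by rw [h, fl_fl])
    rw [if_pos hb, if_neg k1, if_neg k2, if_neg k3]
    ring
  · by_cases hc : γ = fl α
    · have k2 : ¬ γ = fl β := fun h => h1 (by
        have h4 : fl γ = β := by rw [h, fl_fl]
        rw [← h4, hc, fl_fl])
      have k3 : ¬ β = fl γ := fun h => k2 (by rw [h, fl_fl])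
      rw [if_neg hb, if_pos hc, if_neg k2, if_neg k3]
      ring
    · by_cases hg : γ = fl β
      · have k3 : β = fl γ := by rw [hg, fl_fl]
        have k4 : N γ = N β := by rw [hg, hN]
        rw [if_neg hb, if_neg hc, if_pos hg, if_pos k3, k4]
      · have k3 : ¬ β = fl γ := fun h => hg (by rw [h, fl_fl])
        rw [if_neg hb, if_neg hc, if_neg hg, if_neg k3]
        ring

end Pool.Agent.H43.BC
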