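import Pool.Agent.H43.BC.RicF
import Pool.Agent.H43.BC.Pres

/-!
# Module EinE: the Einstein equation of a present module

Take `a, b` from `exists_frame`, `R = Fv ok a b 1`. The entries of `R` are supported on `(a, b), (b, a), (σa, σb), (σb, σa)` (`Fv_entry`), whose
blocks are `(α, β), (β, α), (fl α, fl β), (fl β, fl α)`, and `|R p q| = |R q p|` (`tt_skew`). So for every function `φ` of two blocks with
`φ (fl α) (fl β) = φ α β`: `∑_pq |R p q|² φ (blk p) (blk q) = 1/2 ‖R‖² (φ α β + φ β α)`, `‖R‖² = ∑_pq |R p q|² > 0` (on the support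
`φ (blk p) (blk q) + φ (blk q) (blk p) = φ α β + φ β α`; exchange `p` and `q`). `rf N e ξ` is invariant under `fl`: substitute `γ -> fl γ` in the
sums (`fl` as an equivalence), `ok.N_fl`. `gx ξ R R = 1/2 ∑ ξ |R|²`. So `rf α β + rf β α = c ξ α β`
(from `1/2 ‖R‖² (rf α β + rf β α) = c * 1/2 ‖R‖² ξ α β`). Multiply by 2 and collect the sums termwise:
`2 (∑N + 2e) - 2 c ξ = ∑_γ wt (ξ_αγ/ξ_βγ + ξ_βγ/ξ_αγ - ξ_αβ²/(ξ_αγ ξ_βγ))` (`wt` is symmetric in its first two block arguments).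
-/

set_option autoImplicit false

namespace Pool.Agent.H43.BC

open Matrix Stmt

variable {k : ℕ} {S : Setup k} {N : Pb k → ℕ} {e : ℝ}

private theorem eine_wt_symm (M : Pb k → ℝ) (α β γ : Pb k) : wt M e α β γ = wt M e β α γ := by
  unfold wt
  ring

private theorem eine_wt_fl (ok : Ok S N e) (α β γ : Pb k) :
    wt (fun p => (N p : ℝ)) e (fl α) (fl β) (fl γ) = wt (fun p => (N p : ℝ)) e α β γ := by
  unfold wt
  simp only [ok.N_fl, fl_fl, fl_eq_iff]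

private theorem eine_rf_fl (ok : Ok S N e) {ξ : Pb k → Pb k → ℝ}
    (hf : ∀ α β, ξ (fl α) (fl β) = ξ α β) (α β : Pb k) :
    rf N e ξ (fl α) (fl β) = rf N e ξ α β := by
  have h1 : ∀ F : Pb k → ℝ, ∑ γ, F γ = ∑ γ, F (fl γ) := fun F =>
    (Equiv.sum_comp (⟨fl, fl, fl_fl, fl_fl⟩ : Pb k ≃ Pb k) F).symm
  unfold rf
  rw [h1 (fun γ => if γ = fl α ∨ γ = fl β then 0 else
    wt (fun p => (N p : ℝ)) e (fl α) (fl β) γ * (ξ (fl α) γ * (ξ (fl β) γ)⁻¹)),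
    h1 (fun γ => if γ = fl α ∨ γ = fl β then 0 else
    wt (fun p => (N p : ℝ)) e (fl α) (fl β) γ * ((ξ (fl α) γ)⁻¹ * (ξ (fl β) γ)⁻¹))]
  simp only [eine_wt_fl ok, hf, fl_inj]

private theorem eine_supp (ok : Ok S N e) {a b : S.I} (h : S.blk a ≠ S.blk b) {p q : S.I}
    (hpq : (Fv ok a b 1 : Matrix S.I S.I ℂ) p q ≠ 0) :
    (S.blk p = S.blk a ∧ S.blk q = S.blk b) ∨ (S.blk p = S.blk b ∧ S.blk q = S.blk a) ∨
    (S.blk p = fl (S.blk a) ∧ S.blk q = fl (S.blk b)) ∨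
    (S.blk p = fl (S.blk b) ∧ S.blk q = fl (S.blk a)) := by
  rw [Fv_entry ok h] at hpq
  by_cases c1 : a = p ∧ b = q
  · left
    rw [c1.1, c1.2]
    exact ⟨rfl, rfl⟩
  by_cases c2 : b = p ∧ a = q
  · right; left
    rw [c2.1, c2.2]
    exact ⟨rfl, rfl⟩
  by_cases c3 : S.inv a = p ∧ S.inv b = q
  · right; right; left
    rw [← c3.1, ← c3.2, ok.blk_inv, ok.blk_inv]
    exact ⟨rfl, rfl⟩
  by_cases c4 : S.inv b = p ∧ S.inv a = q
  · right; right; right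
    rw [← c4.1, ← c4.2, ok.blk_inv, ok.blk_inv]
    exact ⟨rfl, rfl⟩
  rw [if_neg c1, if_neg c2, if_neg c3, if_neg c4] at hpq
  simp at hpq

private theorem eine_sum (ok : Ok S N e) {a b : S.I} (h : S.blk a ≠ S.blk b)
    (φ : Pb k → Pb k → ℝ) (h1 : φ (fl (S.blk a)) (fl (S.blk b)) = φ (S.blk a) (S.blk b))
    (h2 : φ (fl (S.blk b)) (fl (S.blk a)) = φ (S.blk b) (S.blk a)) :
    ∑ p, ∑ q, Complex.normSq ((Fv ok a b 1 : Matrix S.I S.I ℂ) p q) * φ (S.blk p) (S.blk q) =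
      (1 / 2) * ((∑ p, ∑ q, Complex.normSq ((Fv ok a b 1 : Matrix S.I S.I ℂ) p q)) *
        (φ (S.blk a) (S.blk b) + φ (S.blk b) (S.blk a))) := by
  have hW : ∀ p q, Complex.normSq ((Fv ok a b 1 : Matrix S.I S.I ℂ) q p) =
      Complex.normSq ((Fv ok a b 1 : Matrix S.I S.I ℂ) p q) := by
    intro p q
    rw [tt_skew (Fv ok a b 1) p q, Complex.normSq_neg, RCLike.star_def, Complex.normSq_conj]
  have e1 : ∑ p, ∑ q, Complex.normSq ((Fv ok a b 1 : Matrix S.I S.I ℂ) p q) *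
      φ (S.blk p) (S.blk q) = ∑ p, ∑ q, Complex.normSq ((Fv ok a b 1 : Matrix S.I S.I ℂ) p q) *
      φ (S.blk q) (S.blk p) := by
    rw [Finset.sum_comm]
    refine Finset.sum_congr rfl fun q _ => Finset.sum_congr rfl fun p _ => ?_
    rw [hW]
  have e2 : ∑ p, ∑ q, Complex.normSq ((Fv ok a b 1 : Matrix S.I S.I ℂ) p q) *
      φ (S.blk p) (S.blk q) + ∑ p, ∑ q, Complex.normSq ((Fv ok a b 1 : Matrix S.I S.I ℂ) p q) *
      φ (S.blk q) (S.blk p) = (∑ p, ∑ q, Complex.normSq ((Fv ok a b 1 : Matrix S.I S.I ℂ) p q)) *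
        (φ (S.blk a) (S.blk b) + φ (S.blk b) (S.blk a)) := by
    rw [← Finset.sum_add_distrib, Finset.sum_mul]
    refine Finset.sum_congr rfl fun p _ => ?_
    rw [← Finset.sum_add_distrib, Finset.sum_mul]
    refine Finset.sum_congr rfl fun q _ => ?_
    by_cases hpq : (Fv ok a b 1 : Matrix S.I S.I ℂ) p q = 0
    · rw [hpq, map_zero]
      ring
    · rw [← mul_add]
      congr 1
      rcases eine_supp ok h hpq with ⟨c1, c2⟩ | ⟨c1, c2⟩ | ⟨c1, c2⟩ | ⟨c1, c2⟩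
      · rw [c1, c2]
      · rw [c1, c2, add_comm]
      · rw [c1, c2, h1, h2]
      · rw [c1, c2, h1, h2, add_comm]
  rw [← e1] at e2
  linarith

private theorem eine_pos (ok : Ok S N e) {a b : S.I} (h : Fv ok a b 1 ≠ 0) :
    0 < ∑ p, ∑ q, Complex.normSq ((Fv ok a b 1 : Matrix S.I S.I ℂ) p q) := by
  obtain ⟨p, q, hpq⟩ : ∃ p q, (Fv ok a b 1 : Matrix S.I S.I ℂ) p q ≠ 0 := by
    by_contra hcon
    push Not at hcon
    apply h
    apply Subtype.ext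
    ext p q
    rw [hcon p q]
    rfl
  have h1 : Complex.normSq ((Fv ok a b 1 : Matrix S.I S.I ℂ) p q) ≤
      ∑ q, Complex.normSq ((Fv ok a b 1 : Matrix S.I S.I ℂ) p q) :=
    Finset.single_le_sum (f := fun q => Complex.normSq ((Fv ok a b 1 : Matrix S.I S.I ℂ) p q))
      (fun _ _ => Complex.normSq_nonneg _) (Finset.mem_univ q)
  have h2 : ∑ q, Complex.normSq ((Fv ok a b 1 : Matrix S.I S.I ℂ) p q) ≤
      ∑ p, ∑ q, Complex.normSq ((Fv ok a b 1 : Matrix S.I S.I ℂ) p q) :=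
    Finset.single_le_sum
      (f := fun p => ∑ q, Complex.normSq ((Fv ok a b 1 : Matrix S.I S.I ℂ) p q))
      (fun _ _ => Finset.sum_nonneg fun _ _ => Complex.normSq_nonneg _) (Finset.mem_univ p)
  exact lt_of_lt_of_le (Complex.normSq_pos.2 hpq) (h1.trans h2)

private theorem eine_rf (ok : Ok S N e) {ξ : Pb k → Pb k → ℝ} (hs : ∀ α β, ξ α β = ξ β α)
    (hf : ∀ α β, ξ (fl α) (fl β) = ξ α β) (hp : ∀ α β, 0 < ξ α β) {m : ℕ} {u : Fin m → tt S}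
    (hu : IsONB (gx S ξ) u) (c : ℝ) (hc : ∀ X, ric ok (gx S ξ) u X = c * gx S ξ X X)
    {α β : Pb k} (h : α ≠ β) (hd : dm (fun p => (N p : ℝ)) e α β ≠ 0) :
    rf N e ξ α β + rf N e ξ β α = c * ξ α β := by
  obtain ⟨a, b, ha, hb, hR⟩ := exists_frame ok h hd
  have hab : S.blk a ≠ S.blk b := by rw [ha, hb]; exact h
  have h1 := hc (Fv ok a b 1)
  rw [ric_formula ok hs hf hp hu,
    eine_sum ok hab (rf N e ξ) (eine_rf_fl ok hf _ _) (eine_rf_fl ok hf _ _)] at h1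
  have h2 : gx S ξ (Fv ok a b 1) (Fv ok a b 1) = (1 / 2) *
      ∑ p, ∑ q, Complex.normSq ((Fv ok a b 1 : Matrix S.I S.I ℂ) p q) *
        ξ (S.blk p) (S.blk q) := by
    rw [gx_apply]
    congr 1
    refine Finset.sum_congr rfl fun p _ => Finset.sum_congr rfl fun q _ => ?_
    rw [RCLike.star_def, Complex.mul_conj, Complex.ofReal_re, mul_comm]
  rw [h2, eine_sum ok hab ξ (hf _ _) (hf _ _), ha, hb, hs β α] at h1
  have h3 := eine_pos ok hR
  have h4 : (∑ p, ∑ q, Complex.normSq ((Fv ok a b 1 : Matrix S.I S.I ℂ) p q)) *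
      (rf N e ξ α β + rf N e ξ β α) =
      (∑ p, ∑ q, Complex.normSq ((Fv ok a b 1 : Matrix S.I S.I ℂ) p q)) * (c * ξ α β) := by
    linear_combination 2 * h1
  exact mul_left_cancel₀ h3.ne' h4

theorem einstein_eq (ok : Ok S N e) {ξ : Pb k → Pb k → ℝ} (hs : ∀ α β, ξ α β = ξ β α)
    (hf : ∀ α β, ξ (fl α) (fl β) = ξ α β) (hp : ∀ α β, 0 < ξ α β) {m : ℕ} {u : Fin m → tt S}
    (hu : IsONB (gx S ξ) u) (c : ℝ) (hc : ∀ X, ric ok (gx S ξ) u X = c * gx S ξ X X)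
    {α β : Pb k} (h : α ≠ β) (hd : dm (fun p => (N p : ℝ)) e α β ≠ 0) :
    2 * ((∑ p, (N p : ℝ)) + 2 * e) - 2 * c * ξ α β =
      ∑ γ, if γ = α ∨ γ = β then 0 else wt (fun p => (N p : ℝ)) e α β γ *
        ((ξ α γ ^ 2 + ξ β γ ^ 2 - ξ α β ^ 2) / (ξ α γ * ξ β γ)) := by
  have h1 := eine_rf ok hs hf hp hu c hc h hd
  have e1 : (∑ γ, if γ = α ∨ γ = β then 0 else wt (fun p => (N p : ℝ)) e α β γ *
        ((ξ α γ ^ 2 + ξ β γ ^ 2 - ξ α β ^ 2) / (ξ α γ * ξ β γ))) =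
      (∑ γ, if γ = α ∨ γ = β then 0 else
        wt (fun p => (N p : ℝ)) e α β γ * (ξ α γ * (ξ β γ)⁻¹)) +
      (∑ γ, if γ = β ∨ γ = α then 0 else
        wt (fun p => (N p : ℝ)) e β α γ * (ξ β γ * (ξ α γ)⁻¹)) -
      (1 / 2) * (ξ α β ^ 2 * ∑ γ, if γ = α ∨ γ = β then 0 else
        wt (fun p => (N p : ℝ)) e α β γ * ((ξ α γ)⁻¹ * (ξ β γ)⁻¹)) -
      (1 / 2) * (ξ β α ^ 2 * ∑ γ, if γ = β ∨ γ = α then 0 else
        wt (fun p => (N p : ℝ)) e β α γ * ((ξ β γ)⁻¹ * (ξ α γ)⁻¹)) := by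
    rw [Finset.mul_sum, Finset.mul_sum, Finset.mul_sum, Finset.mul_sum,
      ← Finset.sum_add_distrib, ← Finset.sum_sub_distrib, ← Finset.sum_sub_distrib]
    refine Finset.sum_congr rfl fun γ _ => ?_
    by_cases hγ : γ = α ∨ γ = β
    · rw [if_pos hγ, if_pos hγ, if_pos hγ.symm, if_pos hγ, if_pos hγ.symm]
      ring
    · have hγ' : ¬ (γ = β ∨ γ = α) := fun h => hγ h.symm
      rw [if_neg hγ, if_neg hγ, if_neg hγ', if_neg hγ, if_neg hγ', ← eine_wt_symm _ α β γ, hs β α]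
      have p1 := (hp α γ).ne'
      have p2 := (hp β γ).ne'
      field_simp
      ring
  rw [e1]
  unfold rf at h1
  linear_combination 2 * h1

end Pool.Agent.H43.BC
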