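import Pool.Agent.H43.BC.Van

/-!
# Module OkO: the orthogonal model

`S = orthogonal n m`, `N = NN n m`, `e = -1`. `card`: for `p = some (i, b)` the indices `inl (⟨i, j⟩, b)`, `j : Fin (n i)`, for `p = none` the indices `inr c`, `c : Fin m`.
`kil_eq`: `∑ p, N p = m + ∑ i, ∑ b, n i = m + 2 ∑ n i` (`Fintype.sum_option`, `Fintype.sum_prod_type`, `Fintype.sum_bool`). `sgn_inv`: `1 = -(-1) * 1`. `fix3`: the fixed points are the `inr c`, `c : Fin m`; two
different ones give `m ≥ 2`, so `m ≥ 3`. `sgn_blk`: `1 ≠ 1` is false. `fixd`: `blk a = none` means `a = inr c`.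
-/

set_option autoImplicit false

namespace Pool.Agent.H43.BC

open Matrix Stmt

variable {k : ℕ}

theorem ok_orthogonal (n : Fin k → ℕ) (m : ℕ) : Ok (orthogonal n m) (NN n m) (-1) where
  inv_inv := by
    rintro (⟨a, b⟩ | c)
    · change (Sum.inl (a, !(!b)) : ((Σ i : Fin k, Fin (n i)) × Bool) ⊕ Fin m) = Sum.inl (a, b)
      rw [Bool.not_not]
    · rfl
  sq := fun a => by
    change (1 : ℝ) * 1 = 1
    norm_num
  sgn_inv := fun a => by
    change (1 : ℝ) = -(-1) * 1
    norm_num
  e_sq := by norm_num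
  blk_inv := by
    rintro (⟨a, b⟩ | c)
    · rfl
    · rfl
  card := by
    rintro (_ | ⟨i, b⟩)
    · have h : (Finset.univ.filter fun a : ((Σ i : Fin k, Fin (n i)) × Bool) ⊕ Fin m =>
          (Sum.elim (fun a => some (a.1.1, a.2)) (fun _ => none) a : Pb k) = none) =
          Finset.univ.map (Function.Embedding.inr :
            Fin m ↪ ((Σ i : Fin k, Fin (n i)) × Bool) ⊕ Fin m) := by
        ext a
        rcases a with a | c
        · simp
        · simp
      have h2 := congrArg Finset.card h
      rw [Finset.card_map, Finset.card_univ, Fintype.card_fin] at h2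
      exact h2
    · have h : (Finset.univ.filter fun a : ((Σ i : Fin k, Fin (n i)) × Bool) ⊕ Fin m =>
          (Sum.elim (fun a => some (a.1.1, a.2)) (fun _ => none) a : Pb k) = some (i, b)) =
          Finset.univ.map (⟨fun j => Sum.inl (⟨i, j⟩, b), fun x y hxy => by simpa using hxy⟩ :
            Fin (n i) ↪ ((Σ i : Fin k, Fin (n i)) × Bool) ⊕ Fin m) := by
        ext a
        rcases a with ⟨⟨i', j⟩, b'⟩ | c
        · simp only [Finset.mem_filter, Finset.mem_univ, true_and, Sum.elim_inl, Option.some.injEq,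
            Prod.mk.injEq, Finset.mem_map]
          constructor
          · rintro ⟨rfl, rfl⟩
            exact ⟨j, rfl⟩
          · rintro ⟨j', hj⟩
            have h' : (Sum.inl (⟨i, j'⟩, b) : ((Σ i : Fin k, Fin (n i)) × Bool) ⊕ Fin m) =
              Sum.inl (⟨i', j⟩, b') := hj
            rw [Sum.inl.injEq, Prod.mk.injEq] at h'
            exact ⟨(congrArg Sigma.fst h'.1).symm, h'.2.symm⟩
        · simp
      have h2 := congrArg Finset.card h
      rw [Finset.card_map, Finset.card_univ, Fintype.card_fin] at h2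
      exact h2
  N_fl := by
    rintro (_ | ⟨i, b⟩)
    · rfl
    · rfl
  kil_eq := by
    change 2 * (∑ i, (n i : ℝ)) + m - 2 = (∑ p : Option (Fin k × Bool), (NN n m p : ℝ)) + 2 * (-1)
    rw [Fintype.sum_option, Fintype.sum_prod_type]
    simp only [Fintype.sum_bool, NN_none, NN_some, Finset.sum_add_distrib]
    ring

private theorem OkO_fix (n : Fin k → ℕ) (m : ℕ) (x : (orthogonal n m).I)
    (hx : (orthogonal n m).inv x = x) : ∃ c : Fin m, x = Sum.inr c := by
  rcases x with ⟨a, b⟩ | c
  · exfalso
    have h : (Sum.inl (a, !b) : ((Σ i : Fin k, Fin (n i)) × Bool) ⊕ Fin m) = Sum.inl (a, b) := hx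
    rw [Sum.inl.injEq, Prod.mk.injEq] at h
    cases b <;> simp at h
  · exact ⟨c, rfl⟩

theorem okk_orthogonal (n : Fin k → ℕ) {m : ℕ} (hm : m ≠ 2) : Okk (orthogonal n m) (-1) where
  fix3 := by
    intro x y hx hy hxy
    obtain ⟨c, rfl⟩ := OkO_fix n m x hx
    obtain ⟨c', rfl⟩ := OkO_fix n m y hy
    have hcc : c ≠ c' := fun h => hxy (by rw [h])
    have hw : ∃ w : Fin m, w ≠ c ∧ w ≠ c' := by
      by_contra hcon
      push Not at hcon
      have h1 : (Finset.univ : Finset (Fin m)) ⊆ {c, c'} := by
        intro w _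
        rw [Finset.mem_insert, Finset.mem_singleton]
        by_cases h : w = c
        · exact Or.inl h
        · exact Or.inr (hcon w h)
      have h2 := Finset.card_le_card h1
      rw [Finset.card_univ, Fintype.card_fin, Finset.card_pair hcc] at h2
      have h3 := c.2
      have h4 := c'.2
      have h5 : (c : ℕ) ≠ c' := fun h => hcc (Fin.ext h)
      omega
    obtain ⟨w, h1, h2⟩ := hw
    refine ⟨Sum.inr w, rfl, fun h => h1 ?_, fun h => h2 ?_⟩
    · exact Sum.inr_injective h
    · exact Sum.inr_injective h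
  sgn_blk := fun a b _ h => absurd rfl h
  fixd := by
    rintro - (⟨a, b⟩ | c) h
    · exact absurd h (by
        change ¬ ((some (a.1, b) : Pb k) = none)
        simp)
    · rfl

end Pool.Agent.H43.BC
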