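import Pool.Agent.H43.BC.Van

/-!
# Module OkS: the symplectic model

`S = symplectic n m`, `N = NN n (2 * m)`, `e = 1`. `card`: for `p = some (i, b)` the indices `(inl ⟨i, j⟩, b)`, `j : Fin (n i)`, for `p = none` the indices `(inr c, b)`, `c : Fin m`, `b : Bool`.
`kil_eq`: `∑ p, N p = 2 m + ∑ i, ∑ b, n i = 2 m + 2 ∑ n i` (`Fintype.sum_option`, `Fintype.sum_prod_type`, `Fintype.sum_bool`). `sgn_inv`: the sign changes. `fix3`: there are no fixed points. `sgn_blk`: if the blocks are
equal and not `none` then the `Bool`s are equal. `fixd`: `1 ≠ -1`.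
-/

set_option autoImplicit false

namespace Pool.Agent.H43.BC

open Matrix Stmt

variable {k : ℕ}

theorem ok_symplectic (n : Fin k → ℕ) (m : ℕ) : Ok (symplectic n m) (NN n (2 * m)) 1 := by
  refine ⟨?_, ?_, ?_, by norm_num, ?_, ?_, ?_, ?_⟩
  · rintro ⟨a, b⟩
    simp [symplectic]
  · rintro ⟨a, b⟩
    cases b <;> simp [symplectic]
  · rintro ⟨a, b⟩
    cases b <;> simp [symplectic]
  · rintro ⟨⟨i, j⟩ | c, b⟩ <;> simp [symplectic]
  · intro p
    have h : (Finset.univ.filter fun a => (symplectic n m).blk a = p).card =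
        ∑ a : ((Σ i : Fin k, Fin (n i)) ⊕ Fin m) × Bool,
          if Sum.elim (fun q : (Σ i : Fin k, Fin (n i)) => some (q.1, a.2)) (fun _ => none) a.1 = p
            then 1 else 0 := by
      rw [Finset.card_filter]
      rfl
    rw [h, Fintype.sum_prod_type, Fintype.sum_sum_type, Fintype.sum_sigma]
    rcases p with _ | ⟨i, b⟩
    · simp [mul_comm]
    · simp only [Fintype.sum_bool, Sum.elim_inl, Sum.elim_inr, Option.some.injEq, Prod.mk.injEq]
      cases b <;> simp
  · rintro (_ | ⟨i, b⟩) <;> simp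
  · rw [Fintype.sum_option, Fintype.sum_prod_type]
    simp only [NN_none, NN_some, Fintype.sum_bool, Finset.sum_add_distrib]
    simp only [symplectic]
    push_cast
    ring

theorem okk_symplectic (n : Fin k → ℕ) (m : ℕ) : Okk (symplectic n m) 1 := by
  refine ⟨?_, ?_, ?_⟩
  · rintro ⟨x, b⟩ y h
    simp [symplectic] at h
  · rintro ⟨⟨i, j⟩ | c, b⟩ ⟨⟨i', j'⟩ | c', b'⟩ h h'
    · simp only [symplectic, Sum.elim_inl, Option.some.injEq, Prod.mk.injEq] at h
      exact absurd (by simp [symplectic, h.2]) h'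
    · simp [symplectic] at h
    · simp [symplectic] at h
    · exact ⟨rfl, rfl⟩
  · intro h
    norm_num at h

end Pool.Agent.H43.BC
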