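import Pool.Agent.H43.BC.Brg
import Pool.Agent.H43.BC.OkO
import Pool.Agent.H43.BC.OkS

/-!
# The theorem from the algebraic part

`hA` is the algebraic part (helper98), `hC` the count.
-/

set_option autoImplicit false

namespace Pool.Agent.H43.BC

open Matrix Stmt

variable {k : ℕ}

theorem fin_b
    (hA : ∃ B : ℕ, ∀ (n : Fin k → ℕ) (m : ℕ) (e : ℤ), (e = 1 ∨ e = -1) → (∀ i, 0 < n i) →
      NoRelation e B n m → {p : (Pb k → Pb k → ℝ) × (Pb k → Pb k → ℝ) |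
        Sys (fun q => (NN n m q : ℝ)) (e : ℝ) p.1 p.2 ∧ ∀ α β, 0 < p.1 α β}.Finite)
    (hC : ∀ B : ℕ, ∃ C : ℕ, ∀ (e : ℤ), (e = 1 ∨ e = -1) → ∀ m X : ℕ,
      {n : Fin k → ℕ | (∀ i, 1 ≤ n i ∧ n i ≤ X) ∧ ¬ NoRelation e B n m}.ncard ≤ C * X ^ (k - 1)) :
    ∃ B C : ℕ,
      (∀ (n : Fin k → ℕ) (m : ℕ), (∀ i, 0 < n i) → m ≠ 2 → NoRelation (-1) B n m →
        FinitelyManyEinstein (orthogonal n m)) ∧
      (∀ (n : Fin k → ℕ) (m : ℕ), (∀ i, 0 < n i) → NoRelation 1 B n (2 * m) →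
        FinitelyManyEinstein (symplectic n m)) ∧
      (∀ m X : ℕ, {n : Fin k → ℕ | (∀ i, 1 ≤ n i ∧ n i ≤ X) ∧
        ¬ NoRelation (-1) B n m}.ncard ≤ C * X ^ (k - 1)) ∧
      (∀ m X : ℕ, {n : Fin k → ℕ | (∀ i, 1 ≤ n i ∧ n i ≤ X) ∧
        ¬ NoRelation 1 B n (2 * m)}.ncard ≤ C * X ^ (k - 1)) := by
  obtain ⟨B, hB⟩ := hA
  obtain ⟨C, hC⟩ := hC B
  refine ⟨B, C, fun n m hn hm h => ?_, fun n m hn h => ?_, fun m X => hC _ (Or.inr rfl) m X,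
    fun m X => hC _ (Or.inl rfl) (2 * m) X⟩
  · have h1 := hB n m (-1) (Or.inr rfl) hn h
    push_cast at h1
    exact brg (ok_orthogonal n m) (okk_orthogonal n hm) h1
  · have h1 := hB n (2 * m) 1 (Or.inl rfl) hn h
    push_cast at h1
    exact brg (ok_symplectic n m) (okk_symplectic n m) h1

end Pool.Agent.H43.BC
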