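import Pool.Agent.H43.BC.Geo0

/-!
# Module FmM: the frame vectors are tangent vectors

Entries: `Um_apply`; `s_a = S.sgn a` is real, `s_a s_a = 1`, `s_{σa} = -e s_a`, `e e = 1`, `σ σ = id`, so
`s_{σa} s_{σb} = s_a s_b`. (1) `(Fm)ᴴ = -Fm`: `star (Um a b q p) = E_ba - s_a s_b E_{σa,σb}` at `(p, q)`, i.e.
`(Um a b)ᴴ = Um b a`. (2) `CommJ`: `Um a b (σp) (σq) = [a = σp, b = σq] - s_a s_b [σb = σp, σa = σq]` and
`s_p s_q star (Um b a p q)` `= s_p s_q [b = p, a = q] - s_p s_q s_a s_b [σa = p, σb = q]`: on the support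
`b = p, a = q` one has `s_p s_q = s_a s_b` and on `σa = p, σb = q` one has `s_p s_q = s_a s_b`, so
`Um a b (σp) (σq) = -s_p s_q star (Um b a p q)`. (3) blocks: `Um a b p q ≠ 0` implies
`(p, q) = (a, b)` or `(σb, σa)`, and `blk (σa) = fl (blk a)`, so the blocks of `p, q` are different when those of
`a, b` are (`fl_inj`).
-/

set_option autoImplicit false

namespace Pool.Agent.H43.BC

open Matrix Stmt

variable {k : ℕ} {S : Setup k} {N : Pb k → ℕ} {e : ℝ}

private theorem FmM_star (S : Setup k) (a b p q : S.I) : star (Um S a b q p) = Um S b a p q := by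
  rw [Um_apply, Um_apply, star_sub]
  congr 1
  · by_cases h : a = q ∧ b = p
    · rw [if_pos h, if_pos ⟨h.2, h.1⟩, star_one]
    · rw [if_neg h, if_neg (fun h' => h ⟨h'.2, h'.1⟩), star_zero]
  · by_cases h : S.inv b = q ∧ S.inv a = p
    · rw [if_pos h, if_pos ⟨h.2, h.1⟩, star_mul', RCLike.star_def, Complex.conj_ofReal,
        Complex.conj_ofReal, mul_comm]
    · rw [if_neg h, if_neg (fun h' => h ⟨h'.2, h'.1⟩), star_zero]

private theorem FmM_real (S : Setup k) (a b p q : S.I) : star (Um S a b p q) = Um S a b p q := by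
  rw [Um_apply, star_sub]
  congr 1
  · split_ifs
    · exact star_one _
    · exact star_zero _
  · split_ifs
    · rw [star_mul', RCLike.star_def, Complex.conj_ofReal, Complex.conj_ofReal]
    · exact star_zero _

private theorem FmM_inv (ok : Ok S N e) (a b p q : S.I) :
    Um S a b (S.inv p) (S.inv q) = -((S.sgn p : ℂ) * S.sgn q * Um S b a p q) := by
  have hi : ∀ c d : S.I, c = S.inv d ↔ S.inv c = d := fun c d =>
    ⟨fun h => by rw [h, ok.inv_inv], fun h => by rw [← h, ok.inv_inv]⟩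
  have hj : ∀ c d : S.I, S.inv c = S.inv d ↔ c = d := fun c d =>
    ⟨fun h => by rw [← ok.inv_inv c, h, ok.inv_inv], fun h => by rw [h]⟩
  have hs : ∀ c : S.I, (S.sgn c : ℂ) * S.sgn c = 1 := fun c => by
    rw [← Complex.ofReal_mul, ok.sq, Complex.ofReal_one]
  have hee : (e : ℂ) * e = 1 := by rw [← Complex.ofReal_mul, ok.e_sq, Complex.ofReal_one]
  have hsi : ∀ c : S.I, (S.sgn (S.inv c) : ℂ) = -(e : ℂ) * S.sgn c := fun c => by
    rw [ok.sgn_inv]; push_cast; ring
  rw [Um_apply, Um_apply]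
  simp only [hi a p, hi b q, hj b p, hj a q]
  have e1 : (if S.inv a = p ∧ S.inv b = q then (1 : ℂ) else 0) =
      (S.sgn p : ℂ) * S.sgn q *
        (if S.inv a = p ∧ S.inv b = q then (S.sgn b : ℂ) * S.sgn a else 0) := by
    by_cases h : S.inv a = p ∧ S.inv b = q
    · rw [if_pos h, if_pos h, ← h.1, ← h.2, hsi, hsi]
      linear_combination (-(e : ℂ) * e * (S.sgn b) * (S.sgn b)) * hs a - ((e : ℂ) * e) * hs b - hee
    · rw [if_neg h, if_neg h, mul_zero]
  have e2 : (if b = p ∧ a = q then (S.sgn a : ℂ) * S.sgn b else 0) =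
      (S.sgn p : ℂ) * S.sgn q * (if b = p ∧ a = q then (1 : ℂ) else 0) := by
    by_cases h : b = p ∧ a = q
    · rw [if_pos h, if_pos h, ← h.1, ← h.2]
      ring
    · rw [if_neg h, if_neg h, mul_zero]
  rw [e1, e2]
  ring

private theorem FmM_blk (ok : Ok S N e) {a b p q : S.I} (h : S.blk a ≠ S.blk b)
    (hpq : S.blk p = S.blk q) : Um S a b p q = 0 := by
  rw [Um_apply, if_neg, if_neg, sub_zero]
  · rintro ⟨h1, h2⟩
    rw [← h1, ← h2, ok.blk_inv, ok.blk_inv, fl_inj] at hpq
    exact h hpq.symm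
  · rintro ⟨h1, h2⟩
    rw [← h1, ← h2] at hpq
    exact h hpq

theorem Fm_mem (ok : Ok S N e) (a b : S.I) (z : ℂ) : Fm S a b z ∈ tt S := by
  by_cases h : S.blk a = S.blk b
  · rw [Fm, if_pos h]
    exact Submodule.zero_mem _
  · have hm : ∀ p q, Fm S a b z p q = z * Um S a b p q - star z * Um S b a p q := by
      intro p q
      rw [Fm, if_neg h, Matrix.sub_apply, Matrix.smul_apply, Matrix.smul_apply, smul_eq_mul,
        smul_eq_mul]
    rw [mem_tt]
    refine ⟨?_, ?_, ?_⟩
    · ext p q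
      rw [conjTranspose_apply, Matrix.neg_apply, hm, hm, star_sub, star_mul', star_mul', star_star,
        FmM_star, FmM_star]
      ring
    · intro p q
      rw [hm, hm, FmM_inv ok, FmM_inv ok, star_sub, star_mul', star_mul', star_star, FmM_real,
        FmM_real]
      ring
    · intro p q hpq
      rw [hm, FmM_blk ok h hpq, FmM_blk ok (fun h' => h h'.symm) hpq, mul_zero, mul_zero, sub_zero]

end Pool.Agent.H43.BC
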