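import Pool.Agent.H43.BC.Fvd

/-!
# Module FvI: `Fv` under the involution, expansion of tangent vectors

`σ = S.inv`. `Fv_inv`: `Um (σa) (σb) = E_{σa,σb} - s_{σa} s_{σb} E_{b,a}`, `s_{σa} s_{σb} = s_a s_b` (`ok.sgn_inv`,
`ok.e_sq`), so `Um (σa) (σb) = -s_a s_b Um b a` (use `s_a s_a = 1`); and `blk (σa) = blk (σb)` iff
`blk a = blk b` (`ok.blk_inv`, `fl_inj`). `Fv_entry`: from `Um_apply`. `expand`: compare the entries `(p, q)`: all the terms
with `blk a = blk b` vanish (`Fv_same`, `tt_zero`); `∑_ab X_ab Um a b p q = X_pq - s_{σq} s_{σp} X_{σq,σp}`, and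
`X_{σq,σp} = s_q s_p conj X_qp = -s_q s_p X_pq` (`tt_comm`, `tt_skew`), so it is `2 X_pq`; the same for the second term.
-/

set_option autoImplicit false

namespace Pool.Agent.H43.BC

open Matrix Stmt

variable {k : ℕ} {S : Setup k} {N : Pb k → ℕ} {e : ℝ}

private theorem sgn_inv2 (ok : Ok S N e) (a b : S.I) :
    (S.sgn (S.inv a) : ℂ) * S.sgn (S.inv b) = S.sgn a * S.sgn b := by
  rw [ok.sgn_inv a, ok.sgn_inv b]
  push_cast
  have h : (e : ℂ) * e = 1 := by rw [← Complex.ofReal_mul, ok.e_sq, Complex.ofReal_one]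
  linear_combination ((S.sgn a : ℂ) * S.sgn b) * h

private theorem sgn_sq (ok : Ok S N e) (a : S.I) : (S.sgn a : ℂ) * S.sgn a = 1 := by
  rw [← Complex.ofReal_mul, ok.sq, Complex.ofReal_one]

private theorem Um_inv (ok : Ok S N e) (a b : S.I) :
    Um S (S.inv a) (S.inv b) = (-((S.sgn a : ℂ) * S.sgn b)) • Um S b a := by
  ext p q
  rw [Matrix.smul_apply, Um_apply, Um_apply, ok.inv_inv, ok.inv_inv, sgn_inv2 ok, smul_eq_mul]
  have ha := sgn_sq ok a
  have hb := sgn_sq ok b
  by_cases h1 : S.inv a = p ∧ S.inv b = q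
  · rw [if_pos h1, if_pos h1]
    by_cases h2 : b = p ∧ a = q
    · rw [if_pos h2, if_pos h2]
      linear_combination (-(S.sgn a : ℂ) * S.sgn a) * hb - ha
    · rw [if_neg h2, if_neg h2]
      linear_combination (-(S.sgn a : ℂ) * S.sgn a) * hb - ha
  · rw [if_neg h1, if_neg h1]
    by_cases h2 : b = p ∧ a = q
    · rw [if_pos h2, if_pos h2]
      ring
    · rw [if_neg h2, if_neg h2]
      ring

theorem Fv_inv (ok : Ok S N e) (a b : S.I) (z : ℂ) :
    Fv ok (S.inv a) (S.inv b) z = (S.sgn a * S.sgn b) • Fv ok a b (star z) := by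
  by_cases h : S.blk a = S.blk b
  · have h' : S.blk (S.inv a) = S.blk (S.inv b) := by rw [ok.blk_inv, ok.blk_inv, h]
    rw [Fv_same ok h, Fv_same ok h', smul_zero]
  · have h' : S.blk (S.inv a) ≠ S.blk (S.inv b) := fun h' => h (by
      rw [ok.blk_inv, ok.blk_inv, fl_inj] at h'
      exact h')
    apply Subtype.ext
    rw [Submodule.coe_smul, Fv_ne ok h, Fv_ne ok h', Um_inv ok a b, Um_inv ok b a]
    ext p q
    simp only [Matrix.sub_apply, Matrix.smul_apply, smul_eq_mul, star_star, Complex.real_smul,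
      Complex.ofReal_mul]
    ring

theorem Fv_entry (ok : Ok S N e) {a b : S.I} (h : S.blk a ≠ S.blk b) (z : ℂ) (p q : S.I) :
    (Fv ok a b z : Matrix S.I S.I ℂ) p q =
      (if a = p ∧ b = q then z else 0) - (if b = p ∧ a = q then star z else 0) +
      (if S.inv a = p ∧ S.inv b = q then (S.sgn a : ℂ) * S.sgn b * star z else 0) -
      (if S.inv b = p ∧ S.inv a = q then (S.sgn a : ℂ) * S.sgn b * z else 0) := by
  rw [Fv_ne ok h, Matrix.sub_apply, Matrix.smul_apply, Matrix.smul_apply, Um_apply, Um_apply,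
    smul_eq_mul, smul_eq_mul]
  split_ifs <;> ring

theorem expand (ok : Ok S N e) (X : tt S) :
    X = (1 / 4 : ℝ) • ∑ a, ∑ b, Fv ok a b ((X : Matrix S.I S.I ℂ) a b) := by
  apply Subtype.ext
  ext p q
  rw [Submodule.coe_smul, Matrix.smul_apply, Submodule.coe_sum, Matrix.sum_apply]
  simp only [Submodule.coe_sum, Matrix.sum_apply]
  have h1 : ∀ a b, (Fv ok a b ((X : Matrix S.I S.I ℂ) a b) : Matrix S.I S.I ℂ) p q =
      (X : Matrix S.I S.I ℂ) a b * Um S a b p q -
        star ((X : Matrix S.I S.I ℂ) a b) * Um S b a p q := by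
    intro a b
    by_cases h : S.blk a = S.blk b
    · rw [Fv_same ok h, tt_zero X h]
      simp
    · rw [Fv_ne ok h, Matrix.sub_apply, Matrix.smul_apply, Matrix.smul_apply, smul_eq_mul,
        smul_eq_mul]
  have hinv : ∀ a b, S.inv a = b ↔ a = S.inv b := fun a b =>
    ⟨fun h => by rw [← h, ok.inv_inv], fun h => by rw [h, ok.inv_inv]⟩
  have h2 : ∀ a b, (Fv ok a b ((X : Matrix S.I S.I ℂ) a b) : Matrix S.I S.I ℂ) p q =
      (if a = p then (if b = q then (X : Matrix S.I S.I ℂ) p q else 0) else 0) -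
      (if a = S.inv q then (if b = S.inv p then (X : Matrix S.I S.I ℂ) (S.inv q) (S.inv p) *
        ((S.sgn (S.inv q) : ℂ) * S.sgn (S.inv p)) else 0) else 0) -
      ((if a = q then (if b = p then star ((X : Matrix S.I S.I ℂ) q p) else 0) else 0) -
      (if a = S.inv p then (if b = S.inv q then star ((X : Matrix S.I S.I ℂ) (S.inv p)
        (S.inv q)) * ((S.sgn (S.inv q) : ℂ) * S.sgn (S.inv p)) else 0) else 0)) := by
    intro a b
    rw [h1, Um_apply, Um_apply, mul_sub, mul_sub]
    congr 1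
    · congr 1
      · by_cases ha : a = p
        · by_cases hb : b = q
          · simp [ha, hb]
          · simp [ha, hb]
        · simp [ha]
      · by_cases ha : a = S.inv q
        · by_cases hb : b = S.inv p
          · simp [ha, hb, ok.inv_inv]
          · have : ¬ (S.inv b = p) := fun h => hb ((hinv _ _).1 h)
            simp [ha, hb, this]
        · have : ¬ (S.inv a = q) := fun h => ha ((hinv _ _).1 h)
          simp [ha, this]
    · congr 1
      · by_cases ha : a = q
        · by_cases hb : b = p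
          · simp [ha, hb]
          · simp [ha, hb]
        · simp [ha]
      · by_cases ha : a = S.inv p
        · by_cases hb : b = S.inv q
          · simp [ha, hb, ok.inv_inv]
          · have : ¬ (S.inv b = q) := fun h => hb ((hinv _ _).1 h)
            simp [ha, hb, this]
        · have : ¬ (S.inv a = p) := fun h => ha ((hinv _ _).1 h)
          simp [ha, this]
  simp only [h2, Finset.sum_sub_distrib, Finset.sum_ite_irrel, Finset.sum_ite_eq',
    Finset.mem_univ, if_true, Finset.sum_const_zero]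
  have hp := sgn_sq ok p
  have hq := sgn_sq ok q
  have e1 : (X : Matrix S.I S.I ℂ) (S.inv q) (S.inv p) =
      -((S.sgn q : ℂ) * S.sgn p * (X : Matrix S.I S.I ℂ) p q) := by
    rw [tt_comm X q p, tt_skew X p q]
    simp
  have e2 : star ((X : Matrix S.I S.I ℂ) (S.inv p) (S.inv q)) =
      (S.sgn q : ℂ) * S.sgn p * (X : Matrix S.I S.I ℂ) p q := by
    rw [tt_comm X p q]
    simp only [star_mul', RCLike.star_def, Complex.conj_ofReal, Complex.conj_conj]
    ring
  have e3 : star ((X : Matrix S.I S.I ℂ) q p) = -(X : Matrix S.I S.I ℂ) p q := by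
    rw [tt_skew X p q, star_neg, star_star]
  rw [e1, e2, e3, sgn_inv2 ok, Complex.real_smul]
  push_cast
  linear_combination (-(1 / 2 : ℂ) * (S.sgn q : ℂ) * S.sgn q *
    (X : Matrix S.I S.I ℂ) p q) * hp - (1 / 2 : ℂ) * (X : Matrix S.I S.I ℂ) p q * hq

end Pool.Agent.H43.BC
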