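import Pool.Agent.H43.BC.FmM

/-!
# The frame vectors as elements of the tangent space
-/

set_option autoImplicit false

namespace Pool.Agent.H43.BC

open Matrix Stmt

variable {k : ℕ} {S : Setup k} {N : Pb k → ℕ} {e : ℝ}

/-- the frame vectors -/
noncomputable def Fv (ok : Ok S N e) (a b : S.I) (z : ℂ) : tt S := ⟨Fm S a b z, Fm_mem ok a b z⟩

theorem Fv_coe (ok : Ok S N e) (a b : S.I) (z : ℂ) :
    (Fv ok a b z : Matrix S.I S.I ℂ) = Fm S a b z := rfl

theorem Fv_same (ok : Ok S N e) {a b : S.I} (h : S.blk a = S.blk b) (z : ℂ) : Fv ok a b z = 0 := by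
  apply Subtype.ext
  rw [Fv_coe, Fm, if_pos h]
  rfl

theorem Fv_ne (ok : Ok S N e) {a b : S.I} (h : S.blk a ≠ S.blk b) (z : ℂ) :
    (Fv ok a b z : Matrix S.I S.I ℂ) = z • Um S a b - star z • Um S b a := by
  rw [Fv_coe, Fm, if_neg h]

theorem Fv_add (ok : Ok S N e) (a b : S.I) (z w : ℂ) :
    Fv ok a b (z + w) = Fv ok a b z + Fv ok a b w := by
  by_cases h : S.blk a = S.blk b
  · rw [Fv_same ok h, Fv_same ok h, Fv_same ok h, add_zero]
  · apply Subtype.ext
    rw [Submodule.coe_add, Fv_ne ok h, Fv_ne ok h, Fv_ne ok h, star_add, add_smul, add_smul]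
    abel

theorem Fv_smul (ok : Ok S N e) (a b : S.I) (r : ℝ) (z : ℂ) :
    Fv ok a b (r * z) = r • Fv ok a b z := by
  by_cases h : S.blk a = S.blk b
  · rw [Fv_same ok h, Fv_same ok h, smul_zero]
  · apply Subtype.ext
    rw [Submodule.coe_smul, Fv_ne ok h, Fv_ne ok h, star_mul', RCLike.star_def,
      Complex.conj_ofReal, smul_sub, mul_smul, mul_smul]
    rfl

theorem Fv_neg (ok : Ok S N e) (a b : S.I) (z : ℂ) : Fv ok a b (-z) = -Fv ok a b z := by
  by_cases h : S.blk a = S.blk b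
  · rw [Fv_same ok h, Fv_same ok h, neg_zero]
  · apply Subtype.ext
    rw [Submodule.coe_neg, Fv_ne ok h, Fv_ne ok h, star_neg, neg_smul, neg_smul]
    abel

/-- `Fv` of `z` in terms of `1` and `I` -/
theorem Fv_re_im (ok : Ok S N e) (a b : S.I) (z : ℂ) :
    Fv ok a b z = z.re • Fv ok a b 1 + z.im • Fv ok a b Complex.I := by
  rw [← Fv_smul, ← Fv_smul, ← Fv_add]
  congr 1
  conv_lhs => rw [← Complex.re_add_im z]
  rw [mul_one]

theorem Fv_swap (ok : Ok S N e) (a b : S.I) (z : ℂ) : Fv ok b a z = Fv ok a b (-star z) := by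
  by_cases h : S.blk a = S.blk b
  · rw [Fv_same ok h, Fv_same ok h.symm]
  · apply Subtype.ext
    rw [Fv_ne ok h, Fv_ne ok (fun h' => h h'.symm), star_neg, star_star, neg_smul, neg_smul]
    abel

end Pool.Agent.H43.BC
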