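import Pool.Agent.H43.BC.Defs

/-!
# Bracket, Ricci curvature, Einstein metrics on the tangent space `tt S`; the frame `Fv`

`Um S a b = E_ab - s_a s_b E_{σb,σa}` (`σ = S.inv`), `Fm S a b z = z Um a b - conj z Um b a` (zero if `a`, `b`
are in the same block). `Fv` is `Fm` as an element of `tt S`.
-/

set_option autoImplicit false

namespace Pool.Agent.H43.BC

open Matrix Stmt

variable {k : ℕ} {S : Setup k} {N : Pb k → ℕ} {e : ℝ}

/-- the inner products are `ξ`-weighted: `gx S ξ X Y = 1/2 ∑ ξ Re (X_ab conj Y_ab)` -/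
noncomputable def gx (S : Setup k) (ξ : Pb k → Pb k → ℝ) : LinearMap.BilinForm ℝ (tt S) :=
  LinearMap.mk₂ ℝ (fun X Y => (1 / 2) * ∑ a, ∑ b, ξ (S.blk a) (S.blk b) *
    ((X : Matrix S.I S.I ℂ) a b * star ((Y : Matrix S.I S.I ℂ) a b)).re)
    (fun X X' Y => by
      rw [← mul_add, ← Finset.sum_add_distrib]
      congr 1
      refine Finset.sum_congr rfl fun a _ => ?_
      rw [← Finset.sum_add_distrib]
      refine Finset.sum_congr rfl fun b _ => ?_
      simp only [Submodule.coe_add, Matrix.add_apply, add_mul, Complex.add_re]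
      ring)
    (fun c X Y => by
      simp only [smul_eq_mul, Finset.mul_sum]
      refine Finset.sum_congr rfl fun a _ => Finset.sum_congr rfl fun b _ => ?_
      simp only [Submodule.coe_smul, Matrix.smul_apply, Complex.real_smul, mul_assoc,
        Complex.re_ofReal_mul]
      ring)
    (fun X Y Y' => by
      rw [← mul_add, ← Finset.sum_add_distrib]
      congr 1
      refine Finset.sum_congr rfl fun a _ => ?_
      rw [← Finset.sum_add_distrib]
      refine Finset.sum_congr rfl fun b _ => ?_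
      simp only [Submodule.coe_add, Matrix.add_apply, star_add, mul_add, Complex.add_re]
      )
    (fun c X Y => by
      simp only [smul_eq_mul, Finset.mul_sum]
      refine Finset.sum_congr rfl fun a _ => Finset.sum_congr rfl fun b _ => ?_
      have h : (X : Matrix S.I S.I ℂ) a b * star ((c : ℂ) * (Y : Matrix S.I S.I ℂ) a b) =
        (c : ℂ) * ((X : Matrix S.I S.I ℂ) a b * star ((Y : Matrix S.I S.I ℂ) a b)) := by
        rw [star_mul', RCLike.star_def, Complex.conj_ofReal]
        ring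
      simp only [Submodule.coe_smul, Matrix.smul_apply, Complex.real_smul]
      rw [h, Complex.re_ofReal_mul]
      ring)

theorem gx_apply (S : Setup k) (ξ : Pb k → Pb k → ℝ) (X Y : tt S) :
    gx S ξ X Y = (1 / 2) * ∑ a, ∑ b, ξ (S.blk a) (S.blk b) *
      ((X : Matrix S.I S.I ℂ) a b * star ((Y : Matrix S.I S.I ℂ) a b)).re := rfl

theorem gx_symm (S : Setup k) (ξ : Pb k → Pb k → ℝ) (X Y : tt S) : gx S ξ X Y = gx S ξ Y X := by
  rw [gx_apply, gx_apply]
  congr 1
  refine Finset.sum_congr rfl fun a _ => Finset.sum_congr rfl fun b _ => ?_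
  congr 1
  rw [← Complex.conj_re]
  congr 1
  rw [map_mul, RCLike.star_def, Complex.conj_conj, mul_comm]

/-- entries of tangent vectors -/
theorem tt_skew (X : tt S) (a b : S.I) :
    (X : Matrix S.I S.I ℂ) b a = -star ((X : Matrix S.I S.I ℂ) a b) := by
  have h := congrFun (congrFun X.2.1 b) a
  rw [conjTranspose_apply, Matrix.neg_apply] at h
  rw [h, neg_neg]

theorem tt_comm (X : tt S) (a b : S.I) : (X : Matrix S.I S.I ℂ) (S.inv a) (S.inv b) =
    S.sgn a * S.sgn b * star ((X : Matrix S.I S.I ℂ) a b) := X.2.2.1 a b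

theorem tt_zero (X : tt S) {a b : S.I} (h : S.blk a = S.blk b) :
    (X : Matrix S.I S.I ℂ) a b = 0 := X.2.2.2 a b h

/-- the bracket of tangent vectors, projected to the tangent space -/
theorem bracket_mem (ok : Ok S N e) (X Y : tt S) :
    bracket S (X : Matrix S.I S.I ℂ) (Y : Matrix S.I S.I ℂ) ∈ tt S := by
  have hc : ∀ X Y : tt S, ∀ a b, ((X : Matrix S.I S.I ℂ) * (Y : Matrix S.I S.I ℂ)) (S.inv a)
      (S.inv b) = S.sgn a * S.sgn b *
        star (((X : Matrix S.I S.I ℂ) * (Y : Matrix S.I S.I ℂ)) a b) := by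
    intro X Y a b
    rw [Matrix.mul_apply, Matrix.mul_apply, star_sum, Finset.mul_sum]
    let E : S.I ≃ S.I := ⟨S.inv, S.inv, ok.inv_inv, ok.inv_inv⟩
    refine (Equiv.sum_comp E _).symm.trans ?_
    refine Finset.sum_congr rfl fun c _ => ?_
    change (X : Matrix S.I S.I ℂ) (S.inv a) (S.inv c) * (Y : Matrix S.I S.I ℂ) (S.inv c) (S.inv b)
      = _
    rw [tt_comm, tt_comm, star_mul']
    have h : (S.sgn c : ℂ) * S.sgn c = 1 := by
      rw [← Complex.ofReal_mul, ok.sq, Complex.ofReal_one]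
    linear_combination (S.sgn a : ℂ) * S.sgn b * star ((X : Matrix S.I S.I ℂ) a c) *
      star ((Y : Matrix S.I S.I ℂ) c b) * h
  have hb : ∀ a b, S.blk (S.inv a) = S.blk (S.inv b) ↔ S.blk a = S.blk b := fun a b => by
    rw [ok.blk_inv, ok.blk_inv, fl_inj]
  have h1 : ((X : Matrix S.I S.I ℂ) * (Y : Matrix S.I S.I ℂ) -
      (Y : Matrix S.I S.I ℂ) * (X : Matrix S.I S.I ℂ))ᴴ =
      -((X : Matrix S.I S.I ℂ) * (Y : Matrix S.I S.I ℂ) -
      (Y : Matrix S.I S.I ℂ) * (X : Matrix S.I S.I ℂ)) := by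
    rw [conjTranspose_sub, conjTranspose_mul, conjTranspose_mul, X.2.1, Y.2.1]
    simp
  refine ⟨?_, fun a b => ?_, fun a b h => by simp [bracket, offDiag, h]⟩
  · ext a b
    have h2 := congrFun (congrFun h1 a) b
    simp only [bracket, offDiag, conjTranspose_apply, Matrix.of_apply, Matrix.neg_apply] at h2 ⊢
    by_cases h : S.blk a = S.blk b
    · simp [h]
    · rw [if_neg h, if_neg (fun h' => h h'.symm)]
      exact h2
  · simp only [bracket, offDiag, Matrix.of_apply, Matrix.sub_apply, hb]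
    split_ifs
    · simp
    · rw [hc, hc, star_sub]
      ring

/-- the bracket on `tt S` -/
noncomputable def brk (ok : Ok S N e) (X Y : tt S) : tt S := ⟨_, bracket_mem ok X Y⟩

theorem brk_coe (ok : Ok S N e) (X Y : tt S) :
    (brk ok X Y : Matrix S.I S.I ℂ) = bracket S (X : Matrix S.I S.I ℂ) (Y : Matrix S.I S.I ℂ) := rfl

/-- the Ricci curvature -/
noncomputable def ric (ok : Ok S N e) (g : LinearMap.BilinForm ℝ (tt S)) {m : ℕ}
    (b : Fin m → tt S) (X : tt S) : ℝ :=
  -(1 / 2) * ∑ j, g (brk ok X (b j)) (brk ok X (b j)) - (1 / 2) * killingForm S X X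
    + (1 / 4) * ∑ i, ∑ j, (g (brk ok (b i) (b j)) X) ^ 2

/-- Einstein metrics -/
def IsEinstein (ok : Ok S N e) (g : LinearMap.BilinForm ℝ (tt S)) : Prop :=
  IsInvMetric S g ∧ ∃ (c : ℝ) (m : ℕ) (b : Fin m → tt S), IsONB g b ∧
    ∀ X, ric ok g b X = c * g X X

/-- `E_ab - s_a s_b E_{σb,σa}` -/
noncomputable def Um (S : Setup k) (a b : S.I) : Matrix S.I S.I ℂ :=
  Matrix.single a b 1 - Matrix.single (S.inv b) (S.inv a) ((S.sgn a : ℂ) * S.sgn b)

/-- the frame vectors as matrices -/
noncomputable def Fm (S : Setup k) (a b : S.I) (z : ℂ) : Matrix S.I S.I ℂ :=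
  if S.blk a = S.blk b then 0 else z • Um S a b - star z • Um S b a

theorem Um_apply (S : Setup k) (a b p q : S.I) : Um S a b p q =
    (if a = p ∧ b = q then 1 else 0) -
      if S.inv b = p ∧ S.inv a = q then (S.sgn a : ℂ) * S.sgn b else 0 := by
  simp only [Um, Matrix.sub_apply, Matrix.single_apply]

end Pool.Agent.H43.BC
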