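import Pool.Agent.H43.BC.FvI

/-!
# Module GxF: `gx` on the frame

`gx_Fv`: if `blk a = blk b` both sides are 0 (`Fv_same`, `tt_zero`). Otherwise insert `Fv_entry`; the four terms give
`ξ_ab Re (X_ab conj z)`, `-ξ_ba Re (X_ba z)`, `ξ_{σa,σb} Re (X_{σa,σb} s_a s_b z)`, `-ξ_{σb,σa} Re (X_{σb,σa} s_a s_b conj z)`; by
`tt_skew`, `tt_comm`, `hs`, `hf` (with `ok.blk_inv`) all are equal to `ξ_ab Re (X_ab conj z)`, total `4 * 1/2 = 2`.
(If several index pairs coincide the formula is still correct because the entries are sums of four indicator terms.)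
`gx_pars`: `Re (X conj 1) Re (Y conj 1) + Re (X conj I) Re (Y conj I) = Re (X conj Y)`, so the sum is
`∑ ξ⁻¹ (2 ξ)² Re (X_ab conj Y_ab) = 4 ∑ ξ Re = 8 gx` (terms with `blk a = blk b` vanish by `tt_zero`).
-/

set_option autoImplicit false

namespace Pool.Agent.H43.BC

open Matrix Stmt

variable {k : ℕ} {S : Setup k} {N : Pb k → ℕ} {e : ℝ}

private theorem GxF_pick (S : Setup k) (ξ : Pb k → Pb k → ℝ) (X : Matrix S.I S.I ℂ) (a b : S.I)
    (c : ℂ) : ∑ p, ∑ q, ξ (S.blk p) (S.blk q) *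
      (X p q * star (if a = p ∧ b = q then c else 0)).re =
      ξ (S.blk a) (S.blk b) * (X a b * star c).re := by
  rw [Finset.sum_eq_single a, Finset.sum_eq_single b]
  · rw [if_pos ⟨rfl, rfl⟩]
  · intro q _ hq
    rw [if_neg (fun h => hq h.2.symm), star_zero, mul_zero, Complex.zero_re, mul_zero]
  · intro h
    exact absurd (Finset.mem_univ _) h
  · intro p _ hp
    refine Finset.sum_eq_zero fun q _ => ?_
    rw [if_neg (fun h => hp h.1.symm), star_zero, mul_zero, Complex.zero_re, mul_zero]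
  · intro h
    exact absurd (Finset.mem_univ _) h

private theorem GxF_sgn (ok : Ok S N e) (a : S.I) : (S.sgn a : ℂ) * S.sgn a = 1 := by
  rw [← Complex.ofReal_mul, ok.sq, Complex.ofReal_one]

private theorem GxF_re (u v : ℂ) : (star u * v).re = (u * star v).re := by
  rw [← Complex.conj_re (u * star v), map_mul, RCLike.star_def, Complex.conj_conj]

theorem gx_Fv (ok : Ok S N e) {ξ : Pb k → Pb k → ℝ} (hs : ∀ α β, ξ α β = ξ β α)
    (hf : ∀ α β, ξ (fl α) (fl β) = ξ α β) (X : tt S) (a b : S.I) (z : ℂ) :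
    gx S ξ X (Fv ok a b z) =
      2 * ξ (S.blk a) (S.blk b) * ((X : Matrix S.I S.I ℂ) a b * star z).re := by
  by_cases h : S.blk a = S.blk b
  · rw [Fv_same ok h, map_zero, tt_zero X h, zero_mul, Complex.zero_re, mul_zero]
  have hsplit : ∀ p q : S.I, ξ (S.blk p) (S.blk q) *
      ((X : Matrix S.I S.I ℂ) p q * star ((Fv ok a b z : Matrix S.I S.I ℂ) p q)).re =
      ξ (S.blk p) (S.blk q) * ((X : Matrix S.I S.I ℂ) p q *
        star (if a = p ∧ b = q then z else 0)).re -
      ξ (S.blk p) (S.blk q) * ((X : Matrix S.I S.I ℂ) p q *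
        star (if b = p ∧ a = q then star z else 0)).re +
      ξ (S.blk p) (S.blk q) * ((X : Matrix S.I S.I ℂ) p q *
        star (if S.inv a = p ∧ S.inv b = q then (S.sgn a : ℂ) * S.sgn b * star z else 0)).re -
      ξ (S.blk p) (S.blk q) * ((X : Matrix S.I S.I ℂ) p q *
        star (if S.inv b = p ∧ S.inv a = q then (S.sgn a : ℂ) * S.sgn b * z else 0)).re := by
    intro p q
    rw [Fv_entry ok h z p q, star_sub, star_add, star_sub, mul_sub, mul_add, mul_sub,
      Complex.sub_re, Complex.add_re, Complex.sub_re]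
    ring
  have h2 : ((X : Matrix S.I S.I ℂ) b a * star (star z)).re =
      -((X : Matrix S.I S.I ℂ) a b * star z).re := by
    rw [tt_skew X a b, star_star, neg_mul, Complex.neg_re, GxF_re]
  have ha := GxF_sgn ok a
  have hb := GxF_sgn ok b
  have h3 : ((X : Matrix S.I S.I ℂ) (S.inv a) (S.inv b) *
      star ((S.sgn a : ℂ) * S.sgn b * star z)).re = ((X : Matrix S.I S.I ℂ) a b * star z).re := by
    refine Eq.trans ?_ (GxF_re ((X : Matrix S.I S.I ℂ) a b) z)
    congr 1
    rw [tt_comm X a b, star_mul', star_mul', star_star, RCLike.star_def, Complex.conj_ofReal,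
      Complex.conj_ofReal]
    linear_combination ((S.sgn b : ℂ) * S.sgn b * (starRingEnd ℂ) ((X : Matrix S.I S.I ℂ) a b) * z) * ha +
      (starRingEnd ℂ) ((X : Matrix S.I S.I ℂ) a b) * z * hb
  have h4 : ((X : Matrix S.I S.I ℂ) (S.inv b) (S.inv a) *
      star ((S.sgn a : ℂ) * S.sgn b * z)).re = -((X : Matrix S.I S.I ℂ) a b * star z).re := by
    rw [← Complex.neg_re]
    congr 1
    rw [tt_comm X b a, tt_skew X a b, star_neg, star_star, star_mul', star_mul', RCLike.star_def,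
      Complex.conj_ofReal, Complex.conj_ofReal]
    linear_combination (-((S.sgn b : ℂ) * S.sgn b * (X : Matrix S.I S.I ℂ) a b *
      (starRingEnd ℂ) z)) * ha - (X : Matrix S.I S.I ℂ) a b * (starRingEnd ℂ) z * hb
  rw [gx_apply]
  simp only [hsplit, Finset.sum_add_distrib, Finset.sum_sub_distrib]
  rw [GxF_pick, GxF_pick, GxF_pick, GxF_pick, h2, h3, h4, ok.blk_inv, ok.blk_inv, hf, hf,
    hs (S.blk b) (S.blk a)]
  ring

theorem gx_pars (ok : Ok S N e) {ξ : Pb k → Pb k → ℝ} (hs : ∀ α β, ξ α β = ξ β α)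
    (hf : ∀ α β, ξ (fl α) (fl β) = ξ α β) (hp : ∀ α β, 0 < ξ α β) (X Y : tt S) :
    ∑ a, ∑ b, (ξ (S.blk a) (S.blk b))⁻¹ *
      (gx S ξ X (Fv ok a b 1) * gx S ξ Y (Fv ok a b 1) +
        gx S ξ X (Fv ok a b Complex.I) * gx S ξ Y (Fv ok a b Complex.I)) = 8 * gx S ξ X Y := by
  rw [gx_apply, ← mul_assoc, Finset.mul_sum]
  refine Finset.sum_congr rfl fun a _ => ?_
  rw [Finset.mul_sum]
  refine Finset.sum_congr rfl fun b _ => ?_
  rw [gx_Fv ok hs hf, gx_Fv ok hs hf, gx_Fv ok hs hf, gx_Fv ok hs hf]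
  have h1 := (hp (S.blk a) (S.blk b)).ne'
  simp only [RCLike.star_def, Complex.mul_re, Complex.conj_re, Complex.conj_im, Complex.one_re,
    Complex.one_im, Complex.I_re, Complex.I_im]
  field_simp
  ring

end Pool.Agent.H43.BC
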