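import Pool.Agent.H43.BC.FvI

/-!
# Module InvC: conjugation with elements of the isotropy group

`conj_mem`: let `V = U X Uᴴ`. `Vᴴ = U Xᴴ Uᴴ = -V`. `V (σa) (σb) = ∑_{c,d} U (σa) c X c d star (U (σb) d)`; substitute `c -> σc`, `d -> σd`
(`σ = S.inv`, `ok.inv_inv`) and use `CommJ` for `U` and `tt_comm` for `X`: the signs are
`s_a s_c * s_c s_d * s_b s_d = s_a s_b` (`ok.sq`), so the sum is `s_a s_b star (V a b)`. Blocks: `V a b = ∑ U a c X c d star (U b d)`; if `blk a = blk b` then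
every term vanishes: `U a c ≠ 0` and `U b d ≠ 0` imply `blk c = blk a = blk b = blk d`, and then `X c d = 0`.
-/

set_option autoImplicit false

namespace Pool.Agent.H43.BC

open Matrix Stmt

variable {k : ℕ} {S : Setup k} {N : Pb k → ℕ} {e : ℝ}

theorem conj_mem (ok : Ok S N e) {U : Matrix S.I S.I ℂ} (hU : Isotropy S U) (X : tt S) :
    U * (X : Matrix S.I S.I ℂ) * Uᴴ ∈ tt S := by
  obtain ⟨-, hJ, hblk⟩ := hU
  obtain ⟨hX1, hX2, hX3⟩ := X.2
  have hV : ∀ a b, (U * (X : Matrix S.I S.I ℂ) * Uᴴ) a b =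
      ∑ d, ∑ c, U a c * (X : Matrix S.I S.I ℂ) c d * star (U b d) := by
    intro a b
    rw [Matrix.mul_apply]
    refine Finset.sum_congr rfl fun d _ => ?_
    rw [Matrix.mul_apply, conjTranspose_apply, Finset.sum_mul]
  have hsq : ∀ a, (S.sgn a : ℂ) * S.sgn a = 1 := by
    intro a
    rw [← Complex.ofReal_mul, ok.sq, Complex.ofReal_one]
  have hinv : Function.Involutive S.inv := ok.inv_inv
  have hre : ∀ f : S.I → ℂ, ∑ c, f c = ∑ c, f (S.inv c) := by
    intro f
    exact (Equiv.sum_comp hinv.toPerm f).symm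
  refine ⟨?_, ?_, ?_⟩
  · rw [conjTranspose_mul, conjTranspose_mul, conjTranspose_conjTranspose, hX1, Matrix.neg_mul,
      Matrix.mul_neg, ← Matrix.mul_assoc]
  · intro a b
    rw [hV, hV, hre]
    simp only [star_sum, Finset.mul_sum]
    refine Finset.sum_congr rfl fun d _ => ?_
    rw [hre]
    refine Finset.sum_congr rfl fun c _ => ?_
    rw [hJ a c, hJ b d, hX2 c d]
    simp only [star_mul', RCLike.star_def, Complex.conj_ofReal, Complex.conj_conj]
    linear_combination ((S.sgn a : ℂ) * S.sgn b * (starRingEnd ℂ) (U a c) *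
      (starRingEnd ℂ) ((X : Matrix S.I S.I ℂ) c d) * U b d) *
        ((S.sgn d : ℂ) * S.sgn d * hsq c + hsq d)
  · intro a b hab
    rw [hV]
    refine Finset.sum_eq_zero fun d _ => Finset.sum_eq_zero fun c _ => ?_
    by_cases h1 : S.blk a = S.blk c
    · by_cases h2 : S.blk b = S.blk d
      · rw [hX3 c d (by rw [← h1, ← h2, hab])]
        ring
      · rw [hblk b d h2]
        simp
    · rw [hblk a c h1]
      simp

/-- conjugation with an element of the isotropy group -/
noncomputable def cj (ok : Ok S N e) {U : Matrix S.I S.I ℂ} (hU : Isotropy S U) (X : tt S) : tt S :=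
  ⟨_, conj_mem ok hU X⟩

theorem cj_coe (ok : Ok S N e) {U : Matrix S.I S.I ℂ} (hU : Isotropy S U) (X : tt S) :
    (cj ok hU X : Matrix S.I S.I ℂ) = U * (X : Matrix S.I S.I ℂ) * Uᴴ := rfl

theorem g_cj (ok : Ok S N e) {g : LinearMap.BilinForm ℝ (tt S)} (hg : IsInvMetric S g)
    {U : Matrix S.I S.I ℂ} (hU : Isotropy S U) (X Y : tt S) :
    g (cj ok hU X) (cj ok hU Y) = g X Y := hg.inv U hU X Y _ _ rfl rfl

end Pool.Agent.H43.BC
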