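import Pool.Agent.H43.BC.KeyD

/-!
# Module KeyA: symmetrisation

Let `s = s_a s_b` (real, `s^2 = 1`), `cU X a b = cE X a b - s cE X (σb) (σa)`. Then `cU X (σb) (σa) = -s cU X a b`
(`s_{σb} s_{σa} = s`, `σσ = id`). `|cU|² = Re (cU conj cU) = Re (cE X a b conj cU X a b) - s Re (cE X (σb) (σa) conj cU X a b)`
`= Re (cE X a b conj cU X a b) + Re (cE X (σb) (σa) conj cU X (σb) (σa))`; sum over `a, b`, and in the second sum substitute
`(a, b) -> (σb, σa)` (`hW`).
-/

set_option autoImplicit false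

namespace Pool.Agent.H43.BC

open Matrix Stmt

variable {k : ℕ} {S : Setup k} {N : Pb k → ℕ} {e : ℝ}

private theorem KeyA_flip (ok : Ok S N e) (X : Matrix S.I S.I ℂ) (a b p q : S.I) :
    cU X (S.inv b) (S.inv a) p q = -((S.sgn a : ℂ) * S.sgn b) * cU X a b p q := by
  have h1 : ∀ c, (S.sgn c : ℂ) * S.sgn c = 1 := fun c => by
    rw [← Complex.ofReal_mul, ok.sq, Complex.ofReal_one]
  have he : (e : ℂ) * e = 1 := by rw [← Complex.ofReal_mul, ok.e_sq, Complex.ofReal_one]
  rw [cU, cU, ok.inv_inv, ok.inv_inv, ok.sgn_inv, ok.sgn_inv]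
  push_cast
  have ha := h1 a
  have hb := h1 b
  linear_combination (-(S.sgn a : ℂ) * S.sgn b * cE X a b p q) * he -
    (cE X (S.inv b) (S.inv a) p q) * (S.sgn a : ℂ) * S.sgn a * hb -
    (cE X (S.inv b) (S.inv a) p q) * ha

private theorem KeyA_pt (ok : Ok S N e) (X : Matrix S.I S.I ℂ) (a b p q : S.I) :
    Complex.normSq (cU X a b p q) = (cE X a b p q * star (cU X a b p q)).re +
      (cE X (S.inv b) (S.inv a) p q * star (cU X (S.inv b) (S.inv a) p q)).re := by
  have h : (Complex.normSq (cU X a b p q) : ℂ) = cU X a b p q * star (cU X a b p q) := by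
    rw [RCLike.star_def, Complex.mul_conj]
  have h2 : Complex.normSq (cU X a b p q) = (cU X a b p q * star (cU X a b p q)).re := by
    rw [← h, Complex.ofReal_re]
  rw [h2, KeyA_flip ok, ← Complex.add_re]
  congr 1
  have h3 : star (-((S.sgn a : ℂ) * S.sgn b) * cU X a b p q) =
      -((S.sgn a : ℂ) * S.sgn b) * star (cU X a b p q) := by
    rw [star_mul', star_neg, star_mul', RCLike.star_def, Complex.conj_ofReal,
      Complex.conj_ofReal]
  rw [h3]
  nth_rewrite 1 [cU]
  ring

theorem key_a (ok : Ok S N e) (X : Matrix S.I S.I ℂ) (W : S.I → S.I → ℝ)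
    (hW : ∀ a b, W (S.inv b) (S.inv a) = W a b) (p q : S.I) :
    ∑ a, ∑ b, W a b * Complex.normSq (cU X a b p q) =
      2 * ∑ a, ∑ b, W a b * (cE X a b p q * star (cU X a b p q)).re := by
  have h1 : ∑ a, ∑ b, W a b * (cE X (S.inv b) (S.inv a) p q *
      star (cU X (S.inv b) (S.inv a) p q)).re =
      ∑ a, ∑ b, W a b * (cE X a b p q * star (cU X a b p q)).re := by
    let E : S.I ≃ S.I := ⟨S.inv, S.inv, ok.inv_inv, ok.inv_inv⟩
    rw [Finset.sum_comm]
    rw [← Equiv.sum_comp E fun a => ∑ b, W a b * (cE X a b p q * star (cU X a b p q)).re]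
    refine Finset.sum_congr rfl fun b _ => ?_
    rw [← Equiv.sum_comp E fun c => W (E b) c * (cE X (E b) c p q * star (cU X (E b) c p q)).re]
    refine Finset.sum_congr rfl fun a _ => ?_
    change _ = W (S.inv b) (S.inv a) * _
    rw [hW]
    rfl
  rw [two_mul]
  nth_rewrite 1 [← h1]
  rw [← Finset.sum_add_distrib]
  refine Finset.sum_congr rfl fun a _ => ?_
  rw [← Finset.sum_add_distrib]
  refine Finset.sum_congr rfl fun b _ => ?_
  rw [KeyA_pt ok]
  ring

end Pool.Agent.H43.BC
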