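import Pool.Agent.H43.BC.KeyD

/-!
# Module KeyB: evaluation of the sum

`v`, `w` are symmetric and invariant under `σ`, `w p p = 0`. With `t1 = [b = q] X p a`, `t2 = -[a = p] X b q`,
`t3 = -s_a s_b [σa = q] X p (σb)`, `t4 = s_a s_b [σb = p] X (σa) q`: `cE X a b p q = t1 + t2`, `cU X a b p q = t1 + t2 + t3 + t4`.
Sum `v a b * w p q * Re ((t1 + t2) conj (t1 + t2 + t3 + t4))` over `a, b, p, q`, product by product:
* `t1 conj t1`: `S1 = ∑_{p,a,b} |X p a|² v a b w p b`; `t2 conj t2`: the same (rename, `|X b q| = |X q b|`);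
* `t1 conj t2`, `t2 conj t1`: `q = b`, `p = a`, contains `X a a = 0`;
* `t1 conj t3`: `q = b = σa`, `X p (σb) = X p a`, `s_a s_{σa} = -e`: `e |X p a|²`, sum `e ∑_{p,a} |X p a|² v a (σa) w p (σa)`;
* `t1 conj t4`: `q = b`, `p = σb`: `X (σa) b = s_a s_{σb} conj (X a (σb)) = -s_a s_{σb} X (σb) a`, `s_{σb} = -e s_b`, so
  `t4 = s_a s_b X (σa) b = e X (σb) a`: `e |X (σb) a|²`; with `p = σb`: sum `e ∑_{p,a} |X p a|² v a (σp) w p (σp)`;
* `t2 conj t3`: `p = a`, `q = σa`: `X a (σb) = s_{σa} s_b conj (X (σa) b) = -s_{σa} s_b X b (σa)`, `t3 = -e X b (σa)`, `t2 = -X b (σa)`: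
  `e |X b (σa)|² = e |X (σa) b|²`, weight `v a b w a (σa)`; substitute `a -> σp`, `b -> a`: the same sum as for `t1 conj t4`;
* `t2 conj t4`: `p = a = σb`: `t2 = -X b q`, `t4 = s_{σb} s_b X b q = -e X b q`: `e |X b q|²`, weight `v (σb) b w (σb) q`; the same sum as for
  `t1 conj t3` (rename `b -> a`, `q -> p`, `|X a p| = |X p a|`, symmetry).
(`tt_skew`, `tt_comm`, `ok.sgn_inv`, `ok.sq`, `Complex.mul_conj`.) Hint: prove each of the six nonzero sums as a lemma, collapsing the
sums with `Finset.sum_ite_eq`.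
-/

set_option autoImplicit false

namespace Pool.Agent.H43.BC

open Matrix Stmt

variable {k : ℕ} {S : Setup k} {N : Pb k → ℕ} {e : ℝ}

private theorem KeyB_sq (z : ℂ) : z * star z = (Complex.normSq z : ℂ) := by
  rw [RCLike.star_def, Complex.mul_conj]

private theorem KeyB_n (X : tt S) (a b : S.I) : Complex.normSq ((X : Matrix S.I S.I ℂ) a b) =
    Complex.normSq ((X : Matrix S.I S.I ℂ) b a) := by
  rw [tt_skew X b a, Complex.normSq_neg, RCLike.star_def, Complex.normSq_conj]

private theorem KeyB_s (ok : Ok S N e) (a : S.I) : (S.sgn a : ℂ) * S.sgn a = 1 := by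
  rw [← Complex.ofReal_mul, ok.sq, Complex.ofReal_one]

private theorem KeyB_si (ok : Ok S N e) (a : S.I) :
    (S.sgn (S.inv a) : ℂ) = -(e : ℂ) * S.sgn a := by
  rw [ok.sgn_inv]; push_cast; ring

/-- the identity behind the cross terms -/
private theorem KeyB_x (ok : Ok S N e) (X : tt S) (a b : S.I) :
    (S.sgn a : ℂ) * S.sgn b * (X : Matrix S.I S.I ℂ) (S.inv a) b =
      (e : ℂ) * (X : Matrix S.I S.I ℂ) (S.inv b) a := by
  have h1 : (X : Matrix S.I S.I ℂ) (S.inv a) b =
      (S.sgn a : ℂ) * S.sgn (S.inv b) * star ((X : Matrix S.I S.I ℂ) a (S.inv b)) := by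
    rw [← tt_comm, ok.inv_inv]
  rw [h1, tt_skew X a (S.inv b), KeyB_si ok]
  linear_combination (-(e : ℂ) * (S.sgn b) * (S.sgn b) *
    star ((X : Matrix S.I S.I ℂ) a (S.inv b))) * KeyB_s ok a -
    (e : ℂ) * star ((X : Matrix S.I S.I ℂ) a (S.inv b)) * KeyB_s ok b

private theorem KeyB_x' (ok : Ok S N e) (X : tt S) (a b : S.I) :
    (S.sgn a : ℂ) * S.sgn b * (X : Matrix S.I S.I ℂ) a (S.inv b) =
      (e : ℂ) * (X : Matrix S.I S.I ℂ) b (S.inv a) := by
  have h := KeyB_x ok X b a
  have h2 := congrArg star h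
  rw [star_mul', star_mul', star_mul', RCLike.star_def, Complex.conj_ofReal,
    Complex.conj_ofReal, Complex.conj_ofReal, ← RCLike.star_def] at h2
  rw [tt_skew X (S.inv b) a, tt_skew X (S.inv a) b]
  linear_combination -h2

private theorem KeyB_pt (ok : Ok S N e) (X : tt S) (a b p q : S.I) :
    (cE (X : Matrix S.I S.I ℂ) a b p q * star (cU (X : Matrix S.I S.I ℂ) a b p q)).re =
      (if b = q then Complex.normSq ((X : Matrix S.I S.I ℂ) p a) else 0) +
      (if a = p then Complex.normSq ((X : Matrix S.I S.I ℂ) b q) else 0) +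
      (if b = q then (if S.inv a = q then e * Complex.normSq ((X : Matrix S.I S.I ℂ) p a)
        else 0) else 0) +
      (if b = q then (if S.inv b = p then e * Complex.normSq ((X : Matrix S.I S.I ℂ) p a)
        else 0) else 0) +
      (if a = p then (if S.inv a = q then e * Complex.normSq ((X : Matrix S.I S.I ℂ) b q)
        else 0) else 0) +
      (if a = p then (if S.inv b = p then e * Complex.normSq ((X : Matrix S.I S.I ℂ) b q)
        else 0) else 0) := by
  set T1 : ℂ := if b = q then (X : Matrix S.I S.I ℂ) p a else 0 with hT1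
  set T2 : ℂ := if a = p then (X : Matrix S.I S.I ℂ) b q else 0 with hT2
  set T3 : ℂ := if S.inv a = q then (X : Matrix S.I S.I ℂ) p (S.inv b) else 0 with hT3
  set T4 : ℂ := if S.inv b = p then (X : Matrix S.I S.I ℂ) (S.inv a) q else 0 with hT4
  have hcE : cE (X : Matrix S.I S.I ℂ) a b p q = T1 - T2 := rfl
  have hcU : cU (X : Matrix S.I S.I ℂ) a b p q =
      T1 - T2 - (S.sgn a : ℂ) * S.sgn b * (T3 - T4) := rfl
  have hss : star ((S.sgn a : ℂ) * S.sgn b) = (S.sgn a : ℂ) * S.sgn b := by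
    rw [star_mul', RCLike.star_def, Complex.conj_ofReal, Complex.conj_ofReal]
  have hz : ∀ c : S.I, (X : Matrix S.I S.I ℂ) c c = 0 := fun c => tt_zero X rfl
  have F11 : T1 * star T1 =
      (((if b = q then Complex.normSq ((X : Matrix S.I S.I ℂ) p a) else 0) : ℝ) : ℂ) := by
    rw [hT1]
    split_ifs
    · exact KeyB_sq _
    · simp
  have F22 : T2 * star T2 =
      (((if a = p then Complex.normSq ((X : Matrix S.I S.I ℂ) b q) else 0) : ℝ) : ℂ) := by
    rw [hT2]
    split_ifs
    · exact KeyB_sq _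
    · simp
  have F12 : T1 * star T2 = 0 := by
    rw [hT1, hT2]
    by_cases h1 : b = q
    · by_cases h2 : a = p
      · rw [if_pos h1, h2, hz, zero_mul]
      · rw [if_neg h2, star_zero, mul_zero]
    · rw [if_neg h1, zero_mul]
  have F21 : T2 * star T1 = 0 := by
    have h := congrArg star F12
    rw [star_mul', star_star, star_zero] at h
    rw [mul_comm]
    exact h
  have F13 : T1 * ((S.sgn a : ℂ) * S.sgn b * star T3) =
      -(((if b = q then (if S.inv a = q then e * Complex.normSq ((X : Matrix S.I S.I ℂ) p a)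
        else 0) else 0) : ℝ) : ℂ) := by
    rw [hT1, hT3]
    by_cases h1 : b = q
    · by_cases h2 : S.inv a = q
      · rw [if_pos h1, if_pos h2, if_pos h1, if_pos h2]
        have h3 : b = S.inv a := by rw [h1, h2]
        rw [h3, ok.inv_inv, KeyB_si ok, Complex.ofReal_mul, ← KeyB_sq]
        linear_combination (-(e : ℂ) * ((X : Matrix S.I S.I ℂ) p a *
          star ((X : Matrix S.I S.I ℂ) p a))) * KeyB_s ok a
      · rw [if_neg h2, if_pos h1, if_neg h2]
        simp
    · rw [if_neg h1, if_neg h1]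
      simp
  have F14 : T1 * ((S.sgn a : ℂ) * S.sgn b * star T4) =
      (((if b = q then (if S.inv b = p then e * Complex.normSq ((X : Matrix S.I S.I ℂ) p a)
        else 0) else 0) : ℝ) : ℂ) := by
    rw [hT1, hT4]
    by_cases h1 : b = q
    · by_cases h2 : S.inv b = p
      · rw [if_pos h1, if_pos h2, if_pos h1, if_pos h2, ← h1, ← h2]
        have h3 := congrArg star (KeyB_x ok X a b)
        rw [star_mul', hss, star_mul', RCLike.star_def, Complex.conj_ofReal,
          ← RCLike.star_def] at h3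
        rw [h3, Complex.ofReal_mul, ← KeyB_sq]
        ring
      · rw [if_neg h2, if_pos h1, if_neg h2]
        simp
    · rw [if_neg h1, if_neg h1]
      simp
  have F23 : T2 * ((S.sgn a : ℂ) * S.sgn b * star T3) =
      (((if a = p then (if S.inv a = q then e * Complex.normSq ((X : Matrix S.I S.I ℂ) b q)
        else 0) else 0) : ℝ) : ℂ) := by
    rw [hT2, hT3]
    by_cases h1 : a = p
    · by_cases h2 : S.inv a = q
      · rw [if_pos h1, if_pos h2, if_pos h1, if_pos h2, ← h1, ← h2]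
        have h3 := congrArg star (KeyB_x' ok X a b)
        rw [star_mul', hss, star_mul', RCLike.star_def, Complex.conj_ofReal,
          ← RCLike.star_def] at h3
        rw [h3, Complex.ofReal_mul, ← KeyB_sq]
        ring
      · rw [if_neg h2, if_pos h1, if_neg h2]
        simp
    · rw [if_neg h1, if_neg h1]
      simp
  have F24 : T2 * ((S.sgn a : ℂ) * S.sgn b * star T4) =
      -(((if a = p then (if S.inv b = p then e * Complex.normSq ((X : Matrix S.I S.I ℂ) b q)
        else 0) else 0) : ℝ) : ℂ) := by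
    rw [hT2, hT4]
    by_cases h1 : a = p
    · by_cases h2 : S.inv b = p
      · rw [if_pos h1, if_pos h2, if_pos h1, if_pos h2]
        have h3 : a = S.inv b := by rw [h1, h2]
        rw [h3, ok.inv_inv, KeyB_si ok, Complex.ofReal_mul, ← KeyB_sq]
        linear_combination (-(e : ℂ) * ((X : Matrix S.I S.I ℂ) b q *
          star ((X : Matrix S.I S.I ℂ) b q))) * KeyB_s ok b
      · rw [if_neg h2, if_pos h1, if_neg h2]
        simp
    · rw [if_neg h1, if_neg h1]
      simp
  have key : cE (X : Matrix S.I S.I ℂ) a b p q * star (cU (X : Matrix S.I S.I ℂ) a b p q) =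
      T1 * star T1 + T2 * star T2 - T1 * ((S.sgn a : ℂ) * S.sgn b * star T3) +
        T1 * ((S.sgn a : ℂ) * S.sgn b * star T4) + T2 * ((S.sgn a : ℂ) * S.sgn b * star T3) -
        T2 * ((S.sgn a : ℂ) * S.sgn b * star T4) - T1 * star T2 - T2 * star T1 := by
    rw [hcE, hcU, star_sub, star_sub, star_mul', hss, star_sub]
    ring
  rw [key, F11, F22, F13, F14, F23, F24, F12, F21]
  simp only [Complex.add_re, Complex.sub_re, Complex.neg_re, Complex.ofReal_re, Complex.zero_re]
  ring

/-- a collapsed sum -/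
private theorem KeyB_c (v w : S.I → S.I → ℝ) (u : S.I → S.I → S.I → S.I → ℝ) :
    ∑ p, ∑ q, ∑ a, ∑ b, w p q * v a b * (if b = q then u p q a b else 0) =
      ∑ p, ∑ a, ∑ b, v a b * w p b * u p b a b := by
  refine Finset.sum_congr rfl fun p _ => ?_
  rw [Finset.sum_comm]
  refine Finset.sum_congr rfl fun a _ => ?_
  refine Finset.sum_congr rfl fun q _ => ?_
  rw [Finset.sum_eq_single q]
  · rw [if_pos rfl]
    ring
  · intro b _ hb
    rw [if_neg hb, mul_zero]
  · intro h
    exact absurd (Finset.mem_univ _) h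

private theorem KeyB_swap (G : S.I → S.I → S.I → S.I → ℝ) :
    ∑ p, ∑ q, ∑ a, ∑ b, G q p b a = ∑ p, ∑ q, ∑ a, ∑ b, G p q a b := by
  rw [Finset.sum_comm]
  refine Finset.sum_congr rfl fun p _ => Finset.sum_congr rfl fun q _ => ?_
  rw [Finset.sum_comm]

private theorem KeyB_1 (X : tt S) (v w : S.I → S.I → ℝ) :
    ∑ p, ∑ q, ∑ a, ∑ b, w p q * v a b *
      (if b = q then Complex.normSq ((X : Matrix S.I S.I ℂ) p a) else 0) =
    ∑ p, ∑ a, Complex.normSq ((X : Matrix S.I S.I ℂ) p a) * ∑ b, v a b * w p b := by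
  rw [KeyB_c v w fun p _ a _ => Complex.normSq ((X : Matrix S.I S.I ℂ) p a)]
  refine Finset.sum_congr rfl fun p _ => Finset.sum_congr rfl fun a _ => ?_
  rw [Finset.mul_sum]
  exact Finset.sum_congr rfl fun b _ => mul_comm _ _

private theorem KeyB_3 (X : tt S) (v w : S.I → S.I → ℝ) :
    ∑ p, ∑ q, ∑ a, ∑ b, w p q * v a b *
      (if b = q then (if S.inv a = q then e * Complex.normSq ((X : Matrix S.I S.I ℂ) p a)
        else 0) else 0) =
    ∑ p, ∑ a, Complex.normSq ((X : Matrix S.I S.I ℂ) p a) *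
      (e * (v a (S.inv a) * w p (S.inv a))) := by
  rw [KeyB_c v w fun p q a _ => if S.inv a = q then
    e * Complex.normSq ((X : Matrix S.I S.I ℂ) p a) else 0]
  refine Finset.sum_congr rfl fun p _ => Finset.sum_congr rfl fun a _ => ?_
  rw [Finset.sum_eq_single (S.inv a)]
  · rw [if_pos rfl]
    ring
  · intro b _ hb
    rw [if_neg (Ne.symm hb), mul_zero]
  · intro h
    exact absurd (Finset.mem_univ _) h

private theorem KeyB_4 (ok : Ok S N e) (X : tt S) (v w : S.I → S.I → ℝ) :
    ∑ p, ∑ q, ∑ a, ∑ b, w p q * v a b *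
      (if b = q then (if S.inv b = p then e * Complex.normSq ((X : Matrix S.I S.I ℂ) p a)
        else 0) else 0) =
    ∑ p, ∑ a, Complex.normSq ((X : Matrix S.I S.I ℂ) p a) *
      (e * (v a (S.inv p) * w p (S.inv p))) := by
  rw [KeyB_c v w fun p _ a b => if S.inv b = p then
    e * Complex.normSq ((X : Matrix S.I S.I ℂ) p a) else 0]
  refine Finset.sum_congr rfl fun p _ => Finset.sum_congr rfl fun a _ => ?_
  rw [Finset.sum_eq_single (S.inv p)]
  · rw [if_pos (ok.inv_inv p)]
    ring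
  · intro b _ hb
    rw [if_neg, mul_zero]
    intro h
    exact hb (by rw [← h, ok.inv_inv])
  · intro h
    exact absurd (Finset.mem_univ _) h

private theorem KeyB_2 (X : tt S) (v w : S.I → S.I → ℝ) (hv : ∀ a b, v a b = v b a)
    (hw : ∀ a b, w a b = w b a) :
    ∑ p, ∑ q, ∑ a, ∑ b, w p q * v a b *
      (if a = p then Complex.normSq ((X : Matrix S.I S.I ℂ) b q) else 0) =
    ∑ p, ∑ a, Complex.normSq ((X : Matrix S.I S.I ℂ) p a) * ∑ b, v a b * w p b := by
  rw [← KeyB_1 X v w, ← KeyB_swap]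
  refine Finset.sum_congr rfl fun p _ => Finset.sum_congr rfl fun q _ =>
    Finset.sum_congr rfl fun a _ => Finset.sum_congr rfl fun b _ => ?_
  rw [hw p q, hv a b, KeyB_n X a p]

private theorem KeyB_6 (X : tt S) (v w : S.I → S.I → ℝ) (hv : ∀ a b, v a b = v b a)
    (hw : ∀ a b, w a b = w b a) :
    ∑ p, ∑ q, ∑ a, ∑ b, w p q * v a b *
      (if a = p then (if S.inv b = p then e * Complex.normSq ((X : Matrix S.I S.I ℂ) b q)
        else 0) else 0) =
    ∑ p, ∑ a, Complex.normSq ((X : Matrix S.I S.I ℂ) p a) *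
      (e * (v a (S.inv a) * w p (S.inv a))) := by
  rw [← KeyB_3 X v w, ← KeyB_swap]
  refine Finset.sum_congr rfl fun p _ => Finset.sum_congr rfl fun q _ =>
    Finset.sum_congr rfl fun a _ => Finset.sum_congr rfl fun b _ => ?_
  rw [hw p q, hv a b, KeyB_n X a p]

private theorem KeyB_5 (ok : Ok S N e) (X : tt S) (v w : S.I → S.I → ℝ)
    (hv : ∀ a b, v a b = v b a) (hw : ∀ a b, w a b = w b a) :
    ∑ p, ∑ q, ∑ a, ∑ b, w p q * v a b *
      (if a = p then (if S.inv a = q then e * Complex.normSq ((X : Matrix S.I S.I ℂ) b q)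
        else 0) else 0) =
    ∑ p, ∑ a, Complex.normSq ((X : Matrix S.I S.I ℂ) p a) *
      (e * (v a (S.inv p) * w p (S.inv p))) := by
  rw [← KeyB_4 ok X v w, ← KeyB_swap]
  refine Finset.sum_congr rfl fun p _ => Finset.sum_congr rfl fun q _ =>
    Finset.sum_congr rfl fun a _ => Finset.sum_congr rfl fun b _ => ?_
  rw [hw p q, hv a b, KeyB_n X a p]

theorem key_b (ok : Ok S N e) (X : tt S) (v w : S.I → S.I → ℝ) (hv : ∀ a b, v a b = v b a)
    (hw : ∀ a b, w a b = w b a) (hv' : ∀ a b, v (S.inv a) (S.inv b) = v a b)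
    (hw' : ∀ a b, w (S.inv a) (S.inv b) = w a b) :
    ∑ p, ∑ q, ∑ a, ∑ b, w p q * v a b *
      (cE (X : Matrix S.I S.I ℂ) a b p q * star (cU (X : Matrix S.I S.I ℂ) a b p q)).re =
    2 * ∑ p, ∑ a, Complex.normSq ((X : Matrix S.I S.I ℂ) p a) *
      ((∑ b, v a b * w p b) + e * (v a (S.inv a) * w p (S.inv a)) +
        e * (v a (S.inv p) * w p (S.inv p))) := by
  rw [Finset.sum_congr rfl fun p _ => Finset.sum_congr rfl fun q _ =>
    Finset.sum_congr rfl fun a _ => Finset.sum_congr rfl fun b _ => by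
      rw [KeyB_pt ok X a b p q, mul_add, mul_add, mul_add, mul_add, mul_add]]
  simp only [Finset.sum_add_distrib]
  rw [KeyB_1, KeyB_2 X v w hv hw, KeyB_3, KeyB_4 ok, KeyB_5 ok X v w hv hw, KeyB_6 X v w hv hw]
  simp only [mul_add, Finset.sum_add_distrib]
  ring

end Pool.Agent.H43.BC
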