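import Pool.Agent.H43.BC.KeyA
import Pool.Agent.H43.BC.KeyB

/-!
# Module KeyC: the sum over the blocks

`v a b = 0` if `blk a = blk b` and `(ξ (blk a) (blk b))⁻¹` otherwise, `w p q = 0` if `blk p = blk q` and
`ω (blk p) (blk q)` otherwise. `key_a` (with `W a b = v a b`, for every `p, q`, then multiply by `w p q` and sum) and `key_b`. Then for all
`p, a`: `∑_b v a b w p b = ∑_γ [γ ≠ blk a, γ ≠ blk p] N γ ω (blk p) γ (ξ (blk a) γ)⁻¹` (group the indices `b` by their block, `ok.card`;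
`Finset.sum_fiberwise` or `Finset.sum_comp`), and `e v a (σa) w p (σa)` is the term of `γ = fl (blk a)`
(`blk (σa) = fl (blk a)`), `e v a (σp) w p (σp)` the term of `γ = fl (blk p)` in
`∑_γ [γ ≠ blk a, γ ≠ blk p] (([γ = fl (blk p)] e + [γ = fl (blk a)] e) ω ξ⁻¹)`. This is `wt`.
-/

set_option autoImplicit false

namespace Pool.Agent.H43.BC

open Matrix Stmt

variable {k : ℕ} {S : Setup k} {N : Pb k → ℕ} {e : ℝ}

private theorem KeyC_sum (ok : Ok S N e) (α β : Pb k) (f : Pb k → ℝ)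
    (h0 : ∀ γ, γ = α ∨ γ = β → f γ = 0) :
    (∑ b, f (S.blk b)) + e * f (fl β) + e * f (fl α) =
      ∑ γ, if γ = α ∨ γ = β then 0 else wt (fun p => (N p : ℝ)) e α β γ * f γ := by
  have h1 : ∑ b, f (S.blk b) = ∑ γ, (N γ : ℝ) * f γ := by
    rw [← Finset.sum_fiberwise' Finset.univ S.blk f]
    refine Finset.sum_congr rfl fun γ _ => ?_
    rw [Finset.sum_const, ok.card, nsmul_eq_mul]
  have h2 : ∀ δ : Pb k, e * f δ = ∑ γ, (if γ = δ then e else 0) * f γ := by
    intro δ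
    rw [Finset.sum_eq_single δ]
    · rw [if_pos rfl]
    · intro γ _ hγ
      rw [if_neg hγ, zero_mul]
    · intro h
      exact absurd (Finset.mem_univ _) h
  rw [h1, h2 (fl β), h2 (fl α), ← Finset.sum_add_distrib, ← Finset.sum_add_distrib]
  refine Finset.sum_congr rfl fun γ _ => ?_
  by_cases h : γ = α ∨ γ = β
  · rw [if_pos h, h0 γ h]
    ring
  · rw [if_neg h, wt]
    ring

private theorem KeyC_symm {f : Pb k → Pb k → ℝ} (hs : ∀ α β, f α β = f β α) (α β : Pb k) :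
    (if α = β then 0 else f α β) = if β = α then 0 else f β α := by
  by_cases h : α = β
  · rw [if_pos h, if_pos h.symm]
  · rw [if_neg h, if_neg (Ne.symm h), hs]

private theorem KeyC_flip {f : Pb k → Pb k → ℝ} (hf : ∀ α β, f (fl α) (fl β) = f α β)
    (α β : Pb k) : (if fl α = fl β then 0 else f (fl α) (fl β)) = if α = β then 0 else f α β := by
  by_cases h : α = β
  · rw [if_pos h, if_pos (by rw [h])]
  · rw [if_neg h, if_neg (fun h' => h (fl_inj.1 h')), hf]

theorem key (ok : Ok S N e) {ξ ω : Pb k → Pb k → ℝ} (hs : ∀ α β, ξ α β = ξ β α)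
    (hf : ∀ α β, ξ (fl α) (fl β) = ξ α β) (hs' : ∀ α β, ω α β = ω β α)
    (hf' : ∀ α β, ω (fl α) (fl β) = ω α β) (X : tt S) :
    ∑ p, ∑ q, ∑ a, ∑ b, (if S.blk p = S.blk q then 0 else ω (S.blk p) (S.blk q)) *
      (if S.blk a = S.blk b then 0 else (ξ (S.blk a) (S.blk b))⁻¹) *
      Complex.normSq (cU (X : Matrix S.I S.I ℂ) a b p q) =
    4 * ∑ p, ∑ a, Complex.normSq ((X : Matrix S.I S.I ℂ) p a) *
      ∑ γ, if γ = S.blk p ∨ γ = S.blk a then 0 else
        wt (fun p => (N p : ℝ)) e (S.blk p) (S.blk a) γ * (ω (S.blk p) γ * (ξ (S.blk a) γ)⁻¹) := by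
  have hs2 : ∀ α β, (ξ α β)⁻¹ = (ξ β α)⁻¹ := fun α β => by rw [hs]
  have hf2 : ∀ α β, (ξ (fl α) (fl β))⁻¹ = (ξ α β)⁻¹ := fun α β => by rw [hf]
  let v : S.I → S.I → ℝ := fun a b => if S.blk a = S.blk b then 0 else (ξ (S.blk a) (S.blk b))⁻¹
  let w : S.I → S.I → ℝ := fun a b => if S.blk a = S.blk b then 0 else ω (S.blk a) (S.blk b)
  have hv : ∀ a b, v a b = v b a := fun a b =>
    KeyC_symm (f := fun α β => (ξ α β)⁻¹) hs2 (S.blk a) (S.blk b)
  have hw : ∀ a b, w a b = w b a := fun a b => KeyC_symm hs' (S.blk a) (S.blk b)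
  have hv' : ∀ a b, v (S.inv a) (S.inv b) = v a b := fun a b => by
    show (if S.blk (S.inv a) = S.blk (S.inv b) then (0 : ℝ) else
      (ξ (S.blk (S.inv a)) (S.blk (S.inv b)))⁻¹) = _
    rw [ok.blk_inv, ok.blk_inv]
    exact KeyC_flip (f := fun α β => (ξ α β)⁻¹) hf2 (S.blk a) (S.blk b)
  have hw' : ∀ a b, w (S.inv a) (S.inv b) = w a b := fun a b => by
    show (if S.blk (S.inv a) = S.blk (S.inv b) then (0 : ℝ) else
      ω (S.blk (S.inv a)) (S.blk (S.inv b))) = _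
    rw [ok.blk_inv, ok.blk_inv]
    exact KeyC_flip hf' (S.blk a) (S.blk b)
  have h1 : ∑ p, ∑ q, ∑ a, ∑ b, w p q * v a b *
      Complex.normSq (cU (X : Matrix S.I S.I ℂ) a b p q) =
      2 * ∑ p, ∑ q, ∑ a, ∑ b, w p q * v a b *
      (cE (X : Matrix S.I S.I ℂ) a b p q * star (cU (X : Matrix S.I S.I ℂ) a b p q)).re := by
    rw [Finset.mul_sum]
    refine Finset.sum_congr rfl fun p _ => ?_
    rw [Finset.mul_sum]
    refine Finset.sum_congr rfl fun q _ => ?_
    have h2 := key_a ok (X : Matrix S.I S.I ℂ) v (fun a b => by rw [hv', hv]) p q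
    have h3 := congrArg (fun t => w p q * t) h2
    simp only [Finset.mul_sum] at h3 ⊢
    calc _ = ∑ a, ∑ b, w p q * (v a b * Complex.normSq (cU (X : Matrix S.I S.I ℂ) a b p q)) :=
          Finset.sum_congr rfl fun a _ => Finset.sum_congr rfl fun b _ => by ring
      _ = _ := h3
      _ = _ := Finset.sum_congr rfl fun a _ => Finset.sum_congr rfl fun b _ => by ring
  have h4 := key_b ok X v w hv hw hv' hw'
  have h5 : ∀ p a, (∑ b, v a b * w p b) + e * (v a (S.inv a) * w p (S.inv a)) +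
        e * (v a (S.inv p) * w p (S.inv p)) =
      ∑ γ, if γ = S.blk p ∨ γ = S.blk a then 0 else
        wt (fun p => (N p : ℝ)) e (S.blk p) (S.blk a) γ * (ω (S.blk p) γ * (ξ (S.blk a) γ)⁻¹) := by
    intro p a
    have h6 := KeyC_sum ok (S.blk p) (S.blk a) (fun γ => if γ = S.blk p ∨ γ = S.blk a then 0 else
      ω (S.blk p) γ * (ξ (S.blk a) γ)⁻¹) (fun γ hγ => if_pos hγ)
    have h7 : ∀ b, v a b * w p b = (fun γ => if γ = S.blk p ∨ γ = S.blk a then 0 else
      ω (S.blk p) γ * (ξ (S.blk a) γ)⁻¹) (S.blk b) := by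
      intro b
      show (if S.blk a = S.blk b then (0 : ℝ) else (ξ (S.blk a) (S.blk b))⁻¹) *
        (if S.blk p = S.blk b then 0 else ω (S.blk p) (S.blk b)) =
        if S.blk b = S.blk p ∨ S.blk b = S.blk a then 0 else
          ω (S.blk p) (S.blk b) * (ξ (S.blk a) (S.blk b))⁻¹
      by_cases ha : S.blk a = S.blk b
      · rw [if_pos ha, zero_mul, if_pos (Or.inr ha.symm)]
      · by_cases hp : S.blk p = S.blk b
        · rw [if_pos hp, mul_zero, if_pos (Or.inl hp.symm)]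
        · rw [if_neg ha, if_neg hp, if_neg (fun h => h.elim (fun h => hp h.symm)
            (fun h => ha h.symm)), mul_comm]
    rw [Finset.sum_congr rfl fun b _ => h7 b, h7 (S.inv a), h7 (S.inv p), ok.blk_inv, ok.blk_inv,
      h6]
    refine Finset.sum_congr rfl fun γ _ => ?_
    by_cases hγ : γ = S.blk p ∨ γ = S.blk a
    · rw [if_pos hγ, if_pos hγ]
    · rw [if_neg hγ, if_neg hγ]
      simp only [if_neg hγ]
  change ∑ p, ∑ q, ∑ a, ∑ b, w p q * v a b *
      Complex.normSq (cU (X : Matrix S.I S.I ℂ) a b p q) = _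
  rw [h1, h4]
  have h8 : ∑ p, ∑ a, Complex.normSq ((X : Matrix S.I S.I ℂ) p a) *
      ((∑ b, v a b * w p b) + e * (v a (S.inv a) * w p (S.inv a)) +
        e * (v a (S.inv p) * w p (S.inv p))) = ∑ p, ∑ a,
      Complex.normSq ((X : Matrix S.I S.I ℂ) p a) *
      ∑ γ, if γ = S.blk p ∨ γ = S.blk a then 0 else
        wt (fun p => (N p : ℝ)) e (S.blk p) (S.blk a) γ * (ω (S.blk p) γ * (ξ (S.blk a) γ)⁻¹) :=
    Finset.sum_congr rfl fun p _ => Finset.sum_congr rfl fun a _ => by rw [h5 p a]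
  rw [h8]
  ring

end Pool.Agent.H43.BC
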