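import Pool.Agent.H43.BC.Fvd

/-!
# The entries of `[X, E_ab]` and `[X, Um a b]`
-/

set_option autoImplicit false

namespace Pool.Agent.H43.BC

open Matrix Stmt

variable {k : ℕ} {S : Setup k} {N : Pb k → ℕ} {e : ℝ}

/-- the entry `(p, q)` of `[X, E_ab]` -/
def cE (X : Matrix S.I S.I ℂ) (a b p q : S.I) : ℂ :=
  (if b = q then X p a else 0) - if a = p then X b q else 0

/-- the entry `(p, q)` of `[X, Um a b]` -/
noncomputable def cU (X : Matrix S.I S.I ℂ) (a b p q : S.I) : ℂ :=
  cE X a b p q - (S.sgn a : ℂ) * S.sgn b * cE X (S.inv b) (S.inv a) p q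

theorem cE_eq (X : Matrix S.I S.I ℂ) (a b p q : S.I) (z : ℂ) :
    (X * Matrix.single a b z - Matrix.single a b z * X) p q = z * cE X a b p q := by
  rw [Matrix.sub_apply, cE, Matrix.mul_apply, Matrix.mul_apply]
  have h1 : ∑ j, X p j * Matrix.single a b z j q = if b = q then X p a * z else 0 := by
    rw [Finset.sum_eq_single a]
    · by_cases h : b = q <;> simp [Matrix.single_apply, h]
    · intro j _ hj
      simp [Matrix.single_apply, Ne.symm hj]
    · intro h
      exact absurd (Finset.mem_univ _) h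
  have h2 : ∑ j, Matrix.single a b z p j * X j q = if a = p then z * X b q else 0 := by
    rw [Finset.sum_eq_single b]
    · by_cases h : a = p <;> simp [Matrix.single_apply, h]
    · intro j _ hj
      simp [Matrix.single_apply, Ne.symm hj]
    · intro h
      exact absurd (Finset.mem_univ _) h
  rw [h1, h2]
  split_ifs <;> ring

theorem cU_eq (X : Matrix S.I S.I ℂ) (a b p q : S.I) :
    (X * Um S a b - Um S a b * X) p q = cU X a b p q := by
  have h1 := cE_eq X a b p q 1
  have h2 := cE_eq X (S.inv b) (S.inv a) p q ((S.sgn a : ℂ) * S.sgn b)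
  have h3 : X * Um S a b - Um S a b * X = (X * Matrix.single a b 1 - Matrix.single a b 1 * X) -
      (X * Matrix.single (S.inv b) (S.inv a) ((S.sgn a : ℂ) * S.sgn b) -
        Matrix.single (S.inv b) (S.inv a) ((S.sgn a : ℂ) * S.sgn b) * X) := by
    rw [Um, Matrix.mul_sub, Matrix.sub_mul]
    abel
  rw [h3, Matrix.sub_apply, h1, h2, cU, one_mul]

end Pool.Agent.H43.BC
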