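import Pool.Agent.H43.BC.InvC

/-!
# Module Mono: invariance under monomial matrices

`U (π a) a = θ a`, all other entries `0`, i.e. `U = Matrix.of fun p q => if p = π q then θ q else 0`. `U Uᴴ = 1`; `det U = sign π * ∏ θ = 1` (e.g.
`U = (permutation matrix) * diagonal θ`, `Matrix.det_permutation`, or `Matrix.det_apply`); `CommJ`: `U (σp) (σq) = [σp = π (σq)] θ (σq)`,
`π (σq) = σ (π q)`, so it is `[p = π q] s_{πq} s_q θ_q = s_p s_q star (U p q)`; block diagonal because `blk (π a) = blk a`. Then `U E_ab Uᴴ = θ_a θ_b E_{πa,πb}` and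
`U Um_ab Uᴴ = θ_a θ_b E_{πa,πb} - s_a s_b θ_{σa} θ_{σb} E_{πσb,πσa}`, and `s_a s_b θ_{σa} θ_{σb} = s_a s_b s_{πa} s_a θ_a s_{πb} s_b θ_b = s_{πa} s_{πb} θ_a θ_b`, so
`U Um_ab Uᴴ = θ_a θ_b Um_{πa,πb}` and `cj (Fv ok a b z) = Fv ok (πa) (πb) (θ_a θ_b z)` (blocks: `h1`). Then `g_cj`.
-/

set_option autoImplicit false

namespace Pool.Agent.H43.BC

open Matrix Stmt

variable {k : ℕ} {S : Setup k} {N : Pb k → ℕ} {e : ℝ}

/-- the monomial matrix -/
private noncomputable def mm (S : Setup k) (π : Equiv.Perm S.I) (θ : S.I → ℝ) :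
    Matrix S.I S.I ℂ :=
  Matrix.of fun p q => if p = π q then (θ q : ℂ) else 0

private theorem mm_conj (π : Equiv.Perm S.I) (θ : S.I → ℝ) (X : Matrix S.I S.I ℂ) (p q : S.I) :
    (mm S π θ * X * (mm S π θ)ᴴ) (π p) (π q) = (θ p * θ q : ℝ) * X p q := by
  have h1 : ∀ c, (mm S π θ * X) (π p) c = θ p * X p c := by
    intro c
    rw [Matrix.mul_apply, Finset.sum_eq_single p]
    · simp [mm]
    · intro b _ hb
      have : ¬ (π p = π b) := fun h => hb (π.injective h).symm
      simp [mm, this]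
    · simp
  rw [Matrix.mul_apply, Finset.sum_eq_single q]
  · rw [h1, conjTranspose_apply]
    simp only [mm, Matrix.of_apply, if_true, RCLike.star_def, Complex.conj_ofReal]
    push_cast
    ring
  · intro b _ hb
    have : ¬ (π q = π b) := fun h => hb (π.injective h).symm
    simp [mm, this, conjTranspose_apply]
  · simp

private theorem mm_iso (π : Equiv.Perm S.I) (θ : S.I → ℝ) (h1 : ∀ a, S.blk (π a) = S.blk a)
    (hinj : Function.Injective S.inv)
    (h2 : ∀ a, π (S.inv a) = S.inv (π a)) (h3 : ∀ a, θ a * θ a = 1)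
    (h4 : ∀ a, θ (S.inv a) = S.sgn (π a) * S.sgn a * θ a)
    (h5 : ((Equiv.Perm.sign π : ℤ) : ℝ) * ∏ a, θ a = 1) : Isotropy S (mm S π θ) := by
  refine ⟨?_, ?_, ?_⟩
  · rw [Matrix.mem_specialUnitaryGroup_iff, Matrix.mem_unitaryGroup_iff]
    constructor
    · ext p q
      obtain ⟨p, rfl⟩ := π.surjective p
      obtain ⟨q, rfl⟩ := π.surjective q
      have h := mm_conj (S := S) π θ 1 p q
      rw [Matrix.mul_one] at h
      rw [Matrix.star_eq_conjTranspose, h, Matrix.one_apply, Matrix.one_apply]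
      by_cases hpq : p = q
      · subst hpq
        simp [h3]
      · have : ¬ (π p = π q) := fun h => hpq (π.injective h)
        simp [hpq]
    · have e1 : mm S π θ = Matrix.of fun p q => (θ q : ℂ) *
          ((1 : Matrix S.I S.I ℂ).submatrix id π) p q := by
        ext p q
        simp only [mm, Matrix.of_apply, Matrix.submatrix_apply, id, Matrix.one_apply]
        split_ifs <;> simp
      rw [e1, Matrix.det_mul_row, Matrix.det_permute', Matrix.det_one, mul_one]
      rw [mul_comm]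
      exact_mod_cast congrArg (fun x : ℝ => (x : ℂ)) h5
  · intro a b
    simp only [mm, Matrix.of_apply, h2]
    by_cases h : a = π b
    · subst h
      rw [if_pos rfl, if_pos rfl, h4, RCLike.star_def, Complex.conj_ofReal]
      push_cast
      ring
    · rw [if_neg h, if_neg (fun h' => h (hinj h')), star_zero, mul_zero]
  · intro a b h
    have : ¬ (a = π b) := fun h' => h (by rw [h', h1])
    simp [mm, this]

private theorem um_mono (ok : Ok S N e) (π : Equiv.Perm S.I) (θ : S.I → ℝ)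
    (h2 : ∀ a, π (S.inv a) = S.inv (π a))
    (h4 : ∀ a, θ (S.inv a) = S.sgn (π a) * S.sgn a * θ a) (a b p q : S.I) :
    ((θ p * θ q : ℝ) : ℂ) * Um S a b p q =
      ((θ a * θ b : ℝ) : ℂ) * Um S (π a) (π b) (π p) (π q) := by
  rw [Um_apply, Um_apply]
  simp only [← h2, π.injective.eq_iff, mul_sub]
  congr 1
  · by_cases h : a = p ∧ b = q
    · obtain ⟨rfl, rfl⟩ := h
      simp
    · simp [h]
  · by_cases h : S.inv b = p ∧ S.inv a = q
    · obtain ⟨rfl, rfl⟩ := h
      simp only [and_self, if_true]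
      rw [h4, h4]
      have e1 : (S.sgn a : ℂ) * S.sgn a = 1 := by
        rw [← Complex.ofReal_mul, ok.sq, Complex.ofReal_one]
      have e2 : (S.sgn b : ℂ) * S.sgn b = 1 := by
        rw [← Complex.ofReal_mul, ok.sq, Complex.ofReal_one]
      push_cast
      linear_combination ((S.sgn (π b) : ℂ) * S.sgn (π a) * θ a * θ b) *
        ((S.sgn a : ℂ) * S.sgn a * e2 + e1)
    · simp [h]

private theorem cj_mono (ok : Ok S N e) (π : Equiv.Perm S.I) (θ : S.I → ℝ)
    (h1 : ∀ a, S.blk (π a) = S.blk a)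
    (h2 : ∀ a, π (S.inv a) = S.inv (π a))
    (h4 : ∀ a, θ (S.inv a) = S.sgn (π a) * S.sgn a * θ a)
    (hU : Isotropy S (mm S π θ)) (a b : S.I) (z : ℂ) :
    cj ok hU (Fv ok a b z) = Fv ok (π a) (π b) ((θ a * θ b : ℝ) * z) := by
  apply Subtype.ext
  rw [cj_coe]
  ext p q
  obtain ⟨p, rfl⟩ := π.surjective p
  obtain ⟨q, rfl⟩ := π.surjective q
  rw [mm_conj]
  by_cases h : S.blk a = S.blk b
  · rw [Fv_same ok h, Fv_same ok (by rw [h1, h1, h])]
    simp
  · rw [Fv_ne ok h, Fv_ne ok (by rw [h1, h1]; exact h)]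
    simp only [Matrix.sub_apply, Matrix.smul_apply, smul_eq_mul]
    have e1 := um_mono ok π θ h2 h4 a b p q
    have e2 := um_mono ok π θ h2 h4 b a p q
    have e3 : star (((θ a * θ b : ℝ) : ℂ) * z) = ((θ a * θ b : ℝ) : ℂ) * star z := by
      rw [star_mul', RCLike.star_def, Complex.conj_ofReal]
    rw [e3]
    rw [mul_comm (θ b) (θ a)] at e2
    linear_combination z * e1 - star z * e2

theorem inv_mono (ok : Ok S N e) {g : LinearMap.BilinForm ℝ (tt S)} (hg : IsInvMetric S g)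
    (π : Equiv.Perm S.I) (θ : S.I → ℝ) (h1 : ∀ a, S.blk (π a) = S.blk a)
    (h2 : ∀ a, π (S.inv a) = S.inv (π a)) (h3 : ∀ a, θ a * θ a = 1)
    (h4 : ∀ a, θ (S.inv a) = S.sgn (π a) * S.sgn a * θ a)
    (h5 : ((Equiv.Perm.sign π : ℤ) : ℝ) * ∏ a, θ a = 1) (a b c d : S.I) (z w : ℂ) :
    g (Fv ok (π a) (π b) ((θ a * θ b : ℝ) * z)) (Fv ok (π c) (π d) ((θ c * θ d : ℝ) * w)) =
      g (Fv ok a b z) (Fv ok c d w) := by
  have hinj : Function.Injective S.inv := fun x y h => by
    rw [← ok.inv_inv x, h, ok.inv_inv]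
  have hU := mm_iso π θ h1 hinj h2 h3 h4 h5
  rw [← cj_mono ok π θ h1 h2 h4 hU, ← cj_mono ok π θ h1 h2 h4 hU, g_cj ok hg]

end Pool.Agent.H43.BC
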