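import Pool.Agent.H43.BC.GxF

/-!
# Module Trc: traces in terms of the frame

Let `u_j` be the orthonormal basis. Every `F = Fv ok a b z` is `∑_j g(F, u_j) u_j` (span and orthonormality; compare
`RicIndep_expand` in `Pool/Agent/H98/FL/RicIndep.lean`), so
`B F F = ∑_j ∑_l g(F,u_j) g(F,u_l) B u_j u_l`; sum with the weights, exchange sums and use `gx_pars` (and `gx_symm`):
`∑_ab ξ⁻¹ (...) = ∑_jl 8 g(u_j,u_l) B u_j u_l = 8 ∑_j B u_j u_j`.
-/

set_option autoImplicit false

namespace Pool.Agent.H43.BC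

open Matrix Stmt

variable {k : ℕ} {S : Setup k} {N : Pb k → ℕ} {e : ℝ}

private lemma trc_expand {V : Type*} [AddCommGroup V] [Module ℝ V]
    (g : LinearMap.BilinForm ℝ V) {J : Type*} [Fintype J] [DecidableEq J] (f : J → V)
    (hf : ∀ p q, g (f p) (f q) = if p = q then 1 else 0)
    (hs : Submodule.span ℝ (Set.range f) = ⊤) (v : V) : ∑ j, g v (f j) • f j = v := by
  let A : V →ₗ[ℝ] V := ∑ j, (LinearMap.flip g (f j)).smulRight (f j)
  have hA : A = LinearMap.id := by
    refine LinearMap.ext_on_range hs fun p => ?_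
    simp only [A, LinearMap.sum_apply, LinearMap.smulRight_apply, LinearMap.flip_apply, hf,
      LinearMap.id_apply]
    simp
  have h1 := congrArg (fun B : V →ₗ[ℝ] V => B v) hA
  simpa only [A, LinearMap.sum_apply, LinearMap.smulRight_apply, LinearMap.flip_apply,
    LinearMap.id_apply] using h1

theorem trace_frame (ok : Ok S N e) {ξ : Pb k → Pb k → ℝ} (hs : ∀ α β, ξ α β = ξ β α)
    (hf : ∀ α β, ξ (fl α) (fl β) = ξ α β) (hp : ∀ α β, 0 < ξ α β) {m : ℕ} {u : Fin m → tt S}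
    (hu : IsONB (gx S ξ) u) (B : LinearMap.BilinForm ℝ (tt S)) :
    ∑ j, B (u j) (u j) = (1 / 8) * ∑ a, ∑ b, (ξ (S.blk a) (S.blk b))⁻¹ *
      (B (Fv ok a b 1) (Fv ok a b 1) + B (Fv ok a b Complex.I) (Fv ok a b Complex.I)) := by
  have h1 : ∀ F : tt S, B F F =
      ∑ j, ∑ l, (gx S ξ (u j) F * gx S ξ (u l) F) * B (u j) (u l) := by
    intro F
    conv_lhs => rw [← trc_expand (gx S ξ) u hu.1 hu.2 F]
    simp only [map_sum, LinearMap.sum_apply, map_smul, LinearMap.smul_apply, smul_eq_mul,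
      Finset.mul_sum]
    rw [Finset.sum_comm]
    refine Finset.sum_congr rfl fun j _ => Finset.sum_congr rfl fun l _ => ?_
    rw [gx_symm S ξ F (u j), gx_symm S ξ F (u l)]
    ring
  have h2 : ∀ a b : S.I, (ξ (S.blk a) (S.blk b))⁻¹ *
      (B (Fv ok a b 1) (Fv ok a b 1) + B (Fv ok a b Complex.I) (Fv ok a b Complex.I)) =
      ∑ j, ∑ l, ((ξ (S.blk a) (S.blk b))⁻¹ *
        (gx S ξ (u j) (Fv ok a b 1) * gx S ξ (u l) (Fv ok a b 1) +
          gx S ξ (u j) (Fv ok a b Complex.I) * gx S ξ (u l) (Fv ok a b Complex.I))) *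
        B (u j) (u l) := by
    intro a b
    rw [h1, h1, ← Finset.sum_add_distrib, Finset.mul_sum]
    refine Finset.sum_congr rfl fun j _ => ?_
    rw [← Finset.sum_add_distrib, Finset.mul_sum]
    refine Finset.sum_congr rfl fun l _ => ?_
    ring
  have h3 : ∑ a, ∑ b, (ξ (S.blk a) (S.blk b))⁻¹ *
      (B (Fv ok a b 1) (Fv ok a b 1) + B (Fv ok a b Complex.I) (Fv ok a b Complex.I)) =
      ∑ j, ∑ l, (8 * gx S ξ (u j) (u l)) * B (u j) (u l) := by
    calc _ = ∑ a, ∑ b, ∑ j, ∑ l, ((ξ (S.blk a) (S.blk b))⁻¹ *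
        (gx S ξ (u j) (Fv ok a b 1) * gx S ξ (u l) (Fv ok a b 1) +
          gx S ξ (u j) (Fv ok a b Complex.I) * gx S ξ (u l) (Fv ok a b Complex.I))) *
        B (u j) (u l) :=
          Finset.sum_congr rfl fun a _ => Finset.sum_congr rfl fun b _ => h2 a b
      _ = ∑ j, ∑ l, ∑ a, ∑ b, ((ξ (S.blk a) (S.blk b))⁻¹ *
        (gx S ξ (u j) (Fv ok a b 1) * gx S ξ (u l) (Fv ok a b 1) +
          gx S ξ (u j) (Fv ok a b Complex.I) * gx S ξ (u l) (Fv ok a b Complex.I))) *
        B (u j) (u l) := by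
          rw [Finset.sum_congr rfl fun a _ => Finset.sum_comm, Finset.sum_comm]
          refine Finset.sum_congr rfl fun j _ => ?_
          rw [Finset.sum_congr rfl fun a _ => Finset.sum_comm, Finset.sum_comm]
      _ = ∑ j, ∑ l, (8 * gx S ξ (u j) (u l)) * B (u j) (u l) := by
          refine Finset.sum_congr rfl fun j _ => Finset.sum_congr rfl fun l _ => ?_
          rw [← gx_pars ok hs hf hp (u j) (u l), Finset.sum_mul]
          refine Finset.sum_congr rfl fun a _ => ?_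
          rw [Finset.sum_mul]
  rw [h3]
  have h4 : ∀ j l, (8 * gx S ξ (u j) (u l)) * B (u j) (u l) =
      if j = l then 8 * B (u j) (u l) else 0 := by
    intro j l
    rw [hu.1]
    split_ifs <;> ring
  rw [Finset.sum_congr rfl fun j _ => Finset.sum_congr rfl fun l _ => h4 j l]
  simp only [Finset.sum_ite_eq, Finset.mem_univ, if_true]
  rw [Finset.mul_sum]
  refine Finset.sum_congr rfl fun j _ => ?_
  ring

/-- the norm in terms of an orthonormal basis -/
theorem norm_onb {ξ : Pb k → Pb k → ℝ} {m : ℕ} {u : Fin m → tt S}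
    (hu : IsONB (gx S ξ) u) (X : tt S) : ∑ j, (gx S ξ (u j) X) ^ 2 = gx S ξ X X := by
  have h1 := congrArg (fun Y => gx S ξ Y X) (trc_expand (gx S ξ) u hu.1 hu.2 X)
  simp only [map_sum, LinearMap.sum_apply, map_smul, LinearMap.smul_apply, smul_eq_mul] at h1
  rw [← h1]
  refine Finset.sum_congr rfl fun j _ => ?_
  rw [gx_symm S ξ X (u j), sq]

end Pool.Agent.H43.BC
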