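import Pool.Agent.H43.BC.KeyC
import Pool.Agent.H43.BC.Trc

/-!
# Module Qd: the quadratic sum over an orthonormal basis

Let `B Y Z = ∑_pq ω Re ((brk X Y)_pq conj (brk X Z)_pq)`, a bilinear form on `tt S` (build it with `LinearMap.mk₂`; `brk ok X` is
additive and homogeneous). `trace_frame`: `∑_j B u_j u_j = 1/8 ∑_ab ξ⁻¹ (B F1 F1 + B FI FI)`, `F1 = Fv ok a b 1`, `FI = Fv ok a b I`. For
`blk a = blk b` the frame vectors vanish. Otherwise `Fv = z Um a b - conj z Um b a` (`Fv_ne`), so by `cU_eq` the entry `(p, q)` of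
`brk X Fv` is `[blk p ≠ blk q] (z A - conj z A')`, `A = cU X a b p q`, `A' = cU X b a p q`, and
`|A - A'|² + |I A + I A'|² = 2 |A|² + 2 |A'|²`. Exchange `a` and `b` in the second half: the sum is
`1/8 * 4 ∑_ab ξ⁻¹ ∑_pq ω |cU X a b p q|²`, and `key`: `1/8 * 4 * 4 = 2`.
-/

set_option autoImplicit false

namespace Pool.Agent.H43.BC

open Matrix Stmt

variable {k : ℕ} {S : Setup k} {N : Pb k → ℕ} {e : ℝ}

private theorem qd_brk_apply (ok : Ok S N e) (X Y : tt S) (p q : S.I) :
    (brk ok X Y : Matrix S.I S.I ℂ) p q =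
      if S.blk p = S.blk q then 0 else
        ((X : Matrix S.I S.I ℂ) * (Y : Matrix S.I S.I ℂ) -
          (Y : Matrix S.I S.I ℂ) * (X : Matrix S.I S.I ℂ)) p q := by
  rw [brk_coe, bracket, offDiag, Matrix.of_apply]

/-- the bracket with `X` as a linear map -/
private noncomputable def qdL (ok : Ok S N e) (X : tt S) : tt S →ₗ[ℝ] tt S where
  toFun Y := brk ok X Y
  map_add' Y Z := by
    apply Subtype.ext
    ext p q
    rw [Submodule.coe_add, Matrix.add_apply, qd_brk_apply, qd_brk_apply, qd_brk_apply,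
      Submodule.coe_add, Matrix.mul_add, Matrix.add_mul]
    split_ifs
    · rw [add_zero]
    · simp only [Matrix.sub_apply, Matrix.add_apply]
      ring
  map_smul' c Y := by
    apply Subtype.ext
    ext p q
    rw [RingHom.id_apply, Submodule.coe_smul, Matrix.smul_apply, qd_brk_apply, qd_brk_apply,
      Submodule.coe_smul, Matrix.mul_smul, Matrix.smul_mul]
    split_ifs
    · rw [smul_zero]
    · rw [← smul_sub, Matrix.smul_apply]

private theorem qdL_apply (ok : Ok S N e) (X Y : tt S) : qdL ok X Y = brk ok X Y := rfl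

/-- the bilinear form -/
private noncomputable def qdB (ok : Ok S N e) (ω : Pb k → Pb k → ℝ) (X : tt S) :
    LinearMap.BilinForm ℝ (tt S) :=
  (gx S ω).compl₁₂ (qdL ok X) (qdL ok X)

private theorem qdB_self (ok : Ok S N e) (ω : Pb k → Pb k → ℝ) (X Y : tt S) :
    qdB ok ω X Y Y = (1 / 2) * ∑ p, ∑ q, ω (S.blk p) (S.blk q) *
      Complex.normSq ((brk ok X Y : Matrix S.I S.I ℂ) p q) := by
  rw [qdB, LinearMap.compl₁₂_apply, qdL_apply, gx_apply]
  congr 1
  refine Finset.sum_congr rfl fun p _ => Finset.sum_congr rfl fun q _ => ?_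
  rw [RCLike.star_def, Complex.mul_conj, Complex.ofReal_re]

private theorem qd_entry (ok : Ok S N e) (X : tt S) {a b : S.I} (h : S.blk a ≠ S.blk b) (z : ℂ)
    (p q : S.I) : (brk ok X (Fv ok a b z) : Matrix S.I S.I ℂ) p q =
      if S.blk p = S.blk q then 0 else
        z * cU (X : Matrix S.I S.I ℂ) a b p q - star z * cU (X : Matrix S.I S.I ℂ) b a p q := by
  rw [qd_brk_apply, Fv_ne ok h, ← cU_eq, ← cU_eq]
  split_ifs
  · rfl
  · rw [Matrix.mul_sub, Matrix.sub_mul, Matrix.mul_smul, Matrix.mul_smul, Matrix.smul_mul,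
      Matrix.smul_mul]
    simp only [Matrix.sub_apply, Matrix.smul_apply, smul_eq_mul]
    ring

private theorem qd_sq (A A' : ℂ) :
    Complex.normSq (1 * A - star (1 : ℂ) * A') +
      Complex.normSq (Complex.I * A - star Complex.I * A') =
      2 * (Complex.normSq A + Complex.normSq A') := by
  simp only [RCLike.star_def, map_one, Complex.conj_I, Complex.normSq_apply, Complex.sub_re,
    Complex.sub_im, Complex.mul_re, Complex.mul_im, Complex.one_re, Complex.one_im, Complex.I_re,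
    Complex.I_im, Complex.neg_re, Complex.neg_im]
  ring

private theorem qd_term (ok : Ok S N e) {ξ ω : Pb k → Pb k → ℝ} (X : tt S) (a b : S.I) :
    (ξ (S.blk a) (S.blk b))⁻¹ *
      (qdB ok ω X (Fv ok a b 1) (Fv ok a b 1) +
        qdB ok ω X (Fv ok a b Complex.I) (Fv ok a b Complex.I)) =
      ∑ p, ∑ q, (if S.blk p = S.blk q then 0 else ω (S.blk p) (S.blk q)) *
        (if S.blk a = S.blk b then 0 else (ξ (S.blk a) (S.blk b))⁻¹) *
        (Complex.normSq (cU (X : Matrix S.I S.I ℂ) a b p q) +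
          Complex.normSq (cU (X : Matrix S.I S.I ℂ) b a p q)) := by
  by_cases h : S.blk a = S.blk b
  · rw [Fv_same ok h, Fv_same ok h]
    simp [h]
  · rw [qdB_self, qdB_self, ← mul_add, ← Finset.sum_add_distrib, Finset.mul_sum, Finset.mul_sum]
    refine Finset.sum_congr rfl fun p _ => ?_
    rw [← Finset.sum_add_distrib, Finset.mul_sum, Finset.mul_sum]
    refine Finset.sum_congr rfl fun q _ => ?_
    rw [qd_entry ok X h, qd_entry ok X h, if_neg h]
    by_cases h' : S.blk p = S.blk q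
    · rw [if_pos h', if_pos h', if_pos h', map_zero]
      ring
    · rw [if_neg h', if_neg h', if_neg h', ← mul_add, qd_sq]
      ring

theorem quad_sum (ok : Ok S N e) {ξ ω : Pb k → Pb k → ℝ} (hs : ∀ α β, ξ α β = ξ β α)
    (hf : ∀ α β, ξ (fl α) (fl β) = ξ α β) (hp : ∀ α β, 0 < ξ α β) (hs' : ∀ α β, ω α β = ω β α)
    (hf' : ∀ α β, ω (fl α) (fl β) = ω α β) {m : ℕ} {u : Fin m → tt S}
    (hu : IsONB (gx S ξ) u) (X : tt S) :
    ∑ j, ∑ p, ∑ q, ω (S.blk p) (S.blk q) *
      Complex.normSq ((brk ok X (u j) : Matrix S.I S.I ℂ) p q) =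
    2 * ∑ p, ∑ a, Complex.normSq ((X : Matrix S.I S.I ℂ) p a) *
      ∑ γ, if γ = S.blk p ∨ γ = S.blk a then 0 else
        wt (fun p => (N p : ℝ)) e (S.blk p) (S.blk a) γ * (ω (S.blk p) γ * (ξ (S.blk a) γ)⁻¹) := by
  have hk := key ok hs hf hs' hf' X
  have ht := trace_frame ok hs hf hp hu (qdB ok ω X)
  have h1 : ∑ j, ∑ p, ∑ q, ω (S.blk p) (S.blk q) *
      Complex.normSq ((brk ok X (u j) : Matrix S.I S.I ℂ) p q) =
      2 * ∑ j, qdB ok ω X (u j) (u j) := by
    rw [Finset.mul_sum]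
    refine Finset.sum_congr rfl fun j _ => ?_
    rw [qdB_self]
    ring
  have h2 : ∑ a, ∑ b, (ξ (S.blk a) (S.blk b))⁻¹ *
      (qdB ok ω X (Fv ok a b 1) (Fv ok a b 1) +
        qdB ok ω X (Fv ok a b Complex.I) (Fv ok a b Complex.I)) =
      2 * ∑ p, ∑ q, ∑ a, ∑ b, (if S.blk p = S.blk q then 0 else ω (S.blk p) (S.blk q)) *
        (if S.blk a = S.blk b then 0 else (ξ (S.blk a) (S.blk b))⁻¹) *
        Complex.normSq (cU (X : Matrix S.I S.I ℂ) a b p q) := by
    have hcomm : ∀ f : S.I → S.I → S.I → S.I → ℝ,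
        ∑ a, ∑ b, ∑ p, ∑ q, f a b p q = ∑ p, ∑ q, ∑ a, ∑ b, f a b p q := by
      intro f
      rw [Finset.sum_congr rfl fun a _ => Finset.sum_comm, Finset.sum_comm]
      refine Finset.sum_congr rfl fun p _ => ?_
      rw [Finset.sum_congr rfl fun a _ => Finset.sum_comm, Finset.sum_comm]
    rw [Finset.sum_congr rfl fun a _ => Finset.sum_congr rfl fun b _ => qd_term ok X a b,
      hcomm, Finset.mul_sum]
    refine Finset.sum_congr rfl fun p _ => ?_
    rw [Finset.mul_sum]
    refine Finset.sum_congr rfl fun q _ => ?_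
    simp only [mul_add, Finset.sum_add_distrib]
    rw [two_mul]
    congr 1
    rw [Finset.sum_comm]
    refine Finset.sum_congr rfl fun b _ => Finset.sum_congr rfl fun a _ => ?_
    congr 2
    rw [hs (S.blk a) (S.blk b)]
    by_cases h : S.blk a = S.blk b
    · rw [if_pos h, if_pos h.symm]
    · rw [if_neg h, if_neg fun h' => h h'.symm]
  rw [h1, ht, h2, hk]
  ring

end Pool.Agent.H43.BC
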