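import Pool.Agent.H43.BC.Dg

/-!
# Module Rt: rotation

If `blk a = blk b` both sides are `0` (`Fv_same`). Otherwise find phases `u` with `u_a star(u_b) = I`:
* `b ≠ σa`, `a` not fixed: `phs a I` (`b ≠ a, σa`, so `u_b = 1`); `b ≠ σa`, `a` fixed: then `b` is not fixed (a fixed point has block `none`) and
`phs b (-I)`: `star(u_b) = I`, `u_a = 1` (`a ≠ b`, and `a ≠ σb` since `σa = a`, i.e. `a = σb` would give `b = σa`);
* `b = σa` (then `a` is not fixed as the blocks differ): `phs a ζ` with `ζ = (1 + I)/√2`, `u_a star(u_{σa}) = ζ² = I`.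
Let `F z = Fv ok a b z`. `inv_diag` with `(z, w) = (1, I)`: `g (F I) (F (I*I)) = g (F 1) (F I)`, i.e. `-g (F I) (F 1) = g (F 1) (F I)`, so it is `0` (`hg.symm`, `Fv_neg`).
`(z, w) = (1, 1)`: `g (F I) (F I) = g (F 1) (F 1)`. Then expand with `Fv_re_im`.
-/

set_option autoImplicit false

namespace Pool.Agent.H43.BC

open Matrix Stmt

variable {k : ℕ} {S : Setup k} {N : Pb k → ℕ} {e : ℝ}

/-- the norm of the frame vector -/
noncomputable def kp (ok : Ok S N e) (g : LinearMap.BilinForm ℝ (tt S)) (a b : S.I) : ℝ :=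
  g (Fv ok a b 1) (Fv ok a b 1)

private theorem rt_fl_ne {p : Pb k} (h : fl p = p) : p = none := by
  rcases p with _ | ⟨i, c⟩
  · rfl
  · exfalso
    rw [fl_some, Option.some_inj, Prod.mk.injEq] at h
    rcases c with _ | _ <;> simp at h

private theorem rt_phase (ok : Ok S N e) {a b : S.I} (hab : S.blk a ≠ S.blk b) :
    ∃ u, Ph S u ∧ u a * star (u b) = Complex.I := by
  have hne : b ≠ a := fun h => hab (by rw [h])
  by_cases h1 : b = S.inv a
  · have ha : S.inv a ≠ a := fun h => hne (h1.trans h)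
    have hr : ((√2 / 2 : ℝ) : ℂ) * ((√2 / 2 : ℝ) : ℂ) = 1 / 2 := by
      rw [← Complex.ofReal_mul]
      have h2 : (√2 / 2 : ℝ) * (√2 / 2) = 1 / 2 := by
        have h3 : (√2 : ℝ) * √2 = 2 := Real.mul_self_sqrt (by norm_num)
        linear_combination h3 / 4
      rw [h2]
      norm_num
    have hst : star (((√2 / 2 : ℝ) : ℂ) * (1 + Complex.I)) =
        ((√2 / 2 : ℝ) : ℂ) * (1 - Complex.I) := by
      rw [star_mul', star_add, star_one, RCLike.star_def, Complex.conj_ofReal,
        Complex.conj_I, sub_eq_add_neg]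
    refine ⟨phs S a (((√2 / 2 : ℝ) : ℂ) * (1 + Complex.I)), Ph_phs ok ha ?_, ?_⟩
    · rw [hst]
      linear_combination (1 - Complex.I * Complex.I) * hr - Complex.I_mul_I / 2
    · have e1 : phs S a (((√2 / 2 : ℝ) : ℂ) * (1 + Complex.I)) a =
          ((√2 / 2 : ℝ) : ℂ) * (1 + Complex.I) := if_pos rfl
      have e2 : phs S a (((√2 / 2 : ℝ) : ℂ) * (1 + Complex.I)) b =
          star (((√2 / 2 : ℝ) : ℂ) * (1 + Complex.I)) := by
        rw [phs, if_neg hne, if_pos h1]
      rw [e1, e2, star_star]
      linear_combination (1 + Complex.I) * (1 + Complex.I) * hr + Complex.I_mul_I / 2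
  · by_cases ha : S.inv a = a
    · have hb : S.inv b ≠ b := by
        intro hb
        apply hab
        have h2 := ok.blk_inv a
        have h3 := ok.blk_inv b
        rw [ha] at h2
        rw [hb] at h3
        rw [rt_fl_ne h2.symm, rt_fl_ne h3.symm]
      have hab2 : a ≠ S.inv b := by
        intro h2
        apply h1
        rw [h2, ok.inv_inv]
      refine ⟨phs S b (-Complex.I), Ph_phs ok hb ?_, ?_⟩
      · rw [star_neg, RCLike.star_def, Complex.conj_I]
        linear_combination -Complex.I_mul_I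
      · have e1 : phs S b (-Complex.I) a = 1 := by
          rw [phs, if_neg hne.symm, if_neg hab2]
        have e2 : phs S b (-Complex.I) b = -Complex.I := if_pos rfl
        rw [e1, e2, star_neg, RCLike.star_def, Complex.conj_I, neg_neg, one_mul]
    · refine ⟨phs S a Complex.I, Ph_phs ok ha ?_, ?_⟩
      · rw [RCLike.star_def, Complex.conj_I]
        linear_combination -Complex.I_mul_I
      · have e1 : phs S a Complex.I a = Complex.I := if_pos rfl
        have e2 : phs S a Complex.I b = 1 := by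
          rw [phs, if_neg hne, if_neg h1]
        rw [e1, e2, star_one, mul_one]

theorem rot (ok : Ok S N e) {g : LinearMap.BilinForm ℝ (tt S)}
    (hg : IsInvMetric S g) (a b : S.I) (z w : ℂ) :
    g (Fv ok a b z) (Fv ok a b w) = kp ok g a b * (z * star w).re := by
  by_cases hab : S.blk a = S.blk b
  · rw [kp, Fv_same ok hab, Fv_same ok hab, Fv_same ok hab, map_zero, zero_mul]
  · obtain ⟨u, hu, hI⟩ := rt_phase ok hab
    have k1 := inv_diag ok hg hu a b a b 1 Complex.I
    have k2 := inv_diag ok hg hu a b a b 1 1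
    rw [hI, mul_one, Complex.I_mul_I, Fv_neg, map_neg] at k1
    rw [hI, mul_one] at k2
    have k3 := hg.symm (Fv ok a b Complex.I) (Fv ok a b 1)
    have k4 : g (Fv ok a b 1) (Fv ok a b Complex.I) = 0 := by linarith
    have k5 : g (Fv ok a b Complex.I) (Fv ok a b 1) = 0 := by linarith
    rw [Fv_re_im ok a b z, Fv_re_im ok a b w]
    simp only [map_add, map_smul, LinearMap.add_apply, LinearMap.smul_apply, smul_eq_mul]
    rw [k4, k5, k2, kp]
    have k6 : (z * star w).re = z.re * w.re + z.im * w.im := by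
      rw [RCLike.star_def, Complex.mul_re, Complex.conj_re, Complex.conj_im]
      ring
    rw [k6]
    ring

theorem kp_symm (ok : Ok S N e) (g : LinearMap.BilinForm ℝ (tt S)) (a b : S.I) :
    kp ok g b a = kp ok g a b := by
  rw [kp, kp, Fv_swap ok a b, star_one, Fv_neg]
  simp only [map_neg, LinearMap.neg_apply, neg_neg]

theorem kp_inv (ok : Ok S N e) (g : LinearMap.BilinForm ℝ (tt S)) (a b : S.I) :
    kp ok g (S.inv a) (S.inv b) = kp ok g a b := by
  rw [kp, kp, Fv_inv, star_one]
  simp only [map_smul, LinearMap.smul_apply, smul_eq_mul]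
  linear_combination g (Fv ok a b 1) (Fv ok a b 1) *
    (S.sgn b * S.sgn b * ok.sq a + ok.sq b)

end Pool.Agent.H43.BC
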