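import Pool.Agent.H43.BC.Mono
import Pool.Agent.H43.BC.Rt

/-!
# Module TrB: exchange of two fixed points, exchange of `a` and `σa`

`tr_fix`: `inv_mono` with `π = swap a a'`, `θ x = if x = a then -1 else 1`: `sign π = -1`, `∏ θ = -1`. `s_{πx} s_x = 1` for all `x` because `s_a = s_{a'}`
(`hs`), and `θ (σx) = θ x` as `σx = a` iff `x = a`. `π` commutes with `σ` (`a, a'` are fixed by `σ`). `kp a b = g (Fv a' b (θ_a θ_b)) (Fv a' b (θ_a θ_b))`, `θ_a θ_b = -1`, `Fv_neg`
(or `Fv_smul`).
`tr_sgn`: `inv_mono` with `π = swap a (σa)`, `θ x = if x = σa then -1 else 1`; `s_{σa} = -s_a` (`e = 1`), so `a ≠ σa` (`s_a² = 1`). `h4`: for `x = a`: `-1 = s_{σa} s_a`; for `x = σa`: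
`1 = s_a s_{σa} (-1)`; otherwise `1 = s_x s_x`. `sign π = -1`, `∏ θ = -1`.
-/

set_option autoImplicit false

namespace Pool.Agent.H43.BC

open Matrix Stmt

variable {k : ℕ} {S : Setup k} {N : Pb k → ℕ} {e : ℝ}

/-- the product of the signs -/
private theorem prod_th {I : Type} [Fintype I] [DecidableEq I] (c : I) :
    ∏ x : I, (if x = c then (-1 : ℝ) else 1) = -1 := by
  rw [Finset.prod_ite_eq' Finset.univ c fun _ => (-1 : ℝ), if_pos (Finset.mem_univ c)]

private theorem th_sq {I : Type} [DecidableEq I] (c x : I) :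
    (if x = c then (-1 : ℝ) else 1) * (if x = c then (-1 : ℝ) else 1) = 1 := by
  split_ifs <;> norm_num

private theorem th_sgn {I : Type} [Fintype I] [DecidableEq I] {a a' : I} (h : a ≠ a') (c : I) :
    ((Equiv.Perm.sign (Equiv.swap a a') : ℤ) : ℝ) * ∏ x : I, (if x = c then (-1 : ℝ) else 1) =
      1 := by
  rw [prod_th, Equiv.Perm.sign_swap h]
  norm_num

theorem tr_fix (ok : Ok S N e) {g : LinearMap.BilinForm ℝ (tt S)} (hg : IsInvMetric S g)
    {a a' : S.I} (h : a ≠ a') (hb : S.blk a = S.blk a') (hs : S.sgn a = S.sgn a')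
    (h1 : S.inv a = a) (h2 : S.inv a' = a') (b : S.I) (hb1 : b ≠ a) (hb2 : b ≠ a') :
    kp ok g a b = kp ok g a' b := by
  have hia : ∀ x, S.inv x = a ↔ x = a := fun x =>
    ⟨fun hx => by rw [← ok.inv_inv x, hx, h1], fun hx => by rw [hx, h1]⟩
  have hia' : ∀ x, S.inv x = a' ↔ x = a' := fun x =>
    ⟨fun hx => by rw [← ok.inv_inv x, hx, h2], fun hx => by rw [hx, h2]⟩
  have hblk : ∀ x, S.blk (Equiv.swap a a' x) = S.blk x := by
    intro x
    by_cases hx : x = a
    · rw [hx, Equiv.swap_apply_left, hb]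
    · by_cases hx' : x = a'
      · rw [hx', Equiv.swap_apply_right, hb]
      · rw [Equiv.swap_apply_of_ne_of_ne hx hx']
  have hsgn : ∀ x, S.sgn (Equiv.swap a a' x) = S.sgn x := by
    intro x
    by_cases hx : x = a
    · rw [hx, Equiv.swap_apply_left, hs]
    · by_cases hx' : x = a'
      · rw [hx', Equiv.swap_apply_right, hs]
      · rw [Equiv.swap_apply_of_ne_of_ne hx hx']
  have hinv : ∀ x, Equiv.swap a a' (S.inv x) = S.inv (Equiv.swap a a' x) := by
    intro x
    by_cases hx : x = a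
    · rw [hx, h1, Equiv.swap_apply_left, h2]
    · by_cases hx' : x = a'
      · rw [hx', h2, Equiv.swap_apply_right, h1]
      · rw [Equiv.swap_apply_of_ne_of_ne hx hx', Equiv.swap_apply_of_ne_of_ne
          (fun hh => hx ((hia x).1 hh)) (fun hh => hx' ((hia' x).1 hh))]
  have key := inv_mono ok hg (Equiv.swap a a') (fun x => if x = a then (-1 : ℝ) else 1)
    hblk hinv (fun x => th_sq a x) (fun x => by
      show (if S.inv x = a then (-1 : ℝ) else 1) =
        S.sgn (Equiv.swap a a' x) * S.sgn x * (if x = a then (-1 : ℝ) else 1)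
      rw [hsgn, ok.sq, one_mul]
      by_cases hx : x = a
      · rw [if_pos hx, if_pos ((hia x).2 hx)]
      · rw [if_neg hx, if_neg (fun hh => hx ((hia x).1 hh))]) (th_sgn h a) a b a b 1 1
  rw [Equiv.swap_apply_left, Equiv.swap_apply_of_ne_of_ne hb1 hb2] at key
  have hth : (((if a = a then (-1 : ℝ) else 1) * (if b = a then (-1 : ℝ) else 1) : ℝ) : ℂ) * 1 =
      -1 := by
    rw [if_pos rfl, if_neg hb1]
    push_cast
    ring
  have key2 : g (Fv ok a' b ((((if a = a then (-1 : ℝ) else 1) *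
      (if b = a then (-1 : ℝ) else 1) : ℝ) : ℂ) * 1)) (Fv ok a' b ((((if a = a then (-1 : ℝ)
        else 1) * (if b = a then (-1 : ℝ) else 1) : ℝ) : ℂ) * 1)) =
      g (Fv ok a b 1) (Fv ok a b 1) := key
  rw [hth, Fv_neg] at key2
  rw [kp, kp, ← key2]
  simp only [map_neg, LinearMap.neg_apply, neg_neg]

theorem tr_sgn (ok : Ok S N e) {g : LinearMap.BilinForm ℝ (tt S)} (hg : IsInvMetric S g)
    (he : e = 1) {a : S.I} (hb : S.blk (S.inv a) = S.blk a) (b : S.I) (hb1 : b ≠ a)
    (hb2 : b ≠ S.inv a) : kp ok g a b = kp ok g (S.inv a) b := by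
  have hs : S.sgn (S.inv a) = -S.sgn a := by
    rw [ok.sgn_inv, he]
    ring
  have hne : a ≠ S.inv a := by
    intro hh
    have h1 := ok.sq a
    have h2 : S.sgn a = -S.sgn a := by
      conv_lhs => rw [hh]
      exact hs
    have h3 : S.sgn a = 0 := by linarith
    rw [h3] at h1
    norm_num at h1
  have hia : ∀ x, S.inv x = a ↔ x = S.inv a := fun x =>
    ⟨fun hx => by rw [← hx, ok.inv_inv], fun hx => by rw [hx, ok.inv_inv]⟩
  have hia' : ∀ x, S.inv x = S.inv a ↔ x = a := fun x =>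
    ⟨fun hx => by rw [← ok.inv_inv x, hx, ok.inv_inv], fun hx => by rw [hx]⟩
  have hblk : ∀ x, S.blk (Equiv.swap a (S.inv a) x) = S.blk x := by
    intro x
    by_cases hx : x = a
    · rw [hx, Equiv.swap_apply_left, hb]
    · by_cases hx' : x = S.inv a
      · rw [hx', Equiv.swap_apply_right, hb]
      · rw [Equiv.swap_apply_of_ne_of_ne hx hx']
  have hinv : ∀ x, Equiv.swap a (S.inv a) (S.inv x) = S.inv (Equiv.swap a (S.inv a) x) := by
    intro x
    by_cases hx : x = a
    · rw [hx, Equiv.swap_apply_left, Equiv.swap_apply_right, ok.inv_inv]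
    · by_cases hx' : x = S.inv a
      · rw [hx', ok.inv_inv, Equiv.swap_apply_left, Equiv.swap_apply_right]
      · rw [Equiv.swap_apply_of_ne_of_ne hx hx', Equiv.swap_apply_of_ne_of_ne
          (fun hh => hx' ((hia x).1 hh)) (fun hh => hx ((hia' x).1 hh))]
  have key := inv_mono ok hg (Equiv.swap a (S.inv a))
    (fun x => if x = S.inv a then (-1 : ℝ) else 1)
    hblk hinv (fun x => th_sq (S.inv a) x) (fun x => by
      show (if S.inv x = S.inv a then (-1 : ℝ) else 1) =
        S.sgn (Equiv.swap a (S.inv a) x) * S.sgn x * (if x = S.inv a then (-1 : ℝ) else 1)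
      by_cases hx : x = a
      · rw [if_pos ((hia' x).2 hx), hx, if_neg hne, Equiv.swap_apply_left, hs]
        linear_combination ok.sq a
      · rw [if_neg (fun hh => hx ((hia' x).1 hh))]
        by_cases hx' : x = S.inv a
        · rw [if_pos hx', hx', Equiv.swap_apply_right, hs]
          linear_combination -ok.sq a
        · rw [if_neg hx', Equiv.swap_apply_of_ne_of_ne hx hx', ok.sq, one_mul])
    (th_sgn hne (S.inv a)) a b a b 1 1
  rw [Equiv.swap_apply_left, Equiv.swap_apply_of_ne_of_ne hb1 hb2] at key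
  have hth : (((if a = S.inv a then (-1 : ℝ) else 1) *
      (if b = S.inv a then (-1 : ℝ) else 1) : ℝ) : ℂ) * 1 = 1 := by
    rw [if_neg hne, if_neg hb2]
    push_cast
    ring
  have key2 : g (Fv ok (S.inv a) b ((((if a = S.inv a then (-1 : ℝ) else 1) *
      (if b = S.inv a then (-1 : ℝ) else 1) : ℝ) : ℂ) * 1)) (Fv ok (S.inv a) b
        ((((if a = S.inv a then (-1 : ℝ) else 1) *
          (if b = S.inv a then (-1 : ℝ) else 1) : ℝ) : ℂ) * 1)) =
      g (Fv ok a b 1) (Fv ok a b 1) := key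
  rw [hth] at key2
  rw [kp, kp, ← key2]

end Pool.Agent.H43.BC
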