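import Pool.Agent.H43.BC.Dg

/-!
# Module Van: orthogonality of the frame vectors

`Okk` collects the further facts about the models. Proof of `van` (`σ = S.inv`, `[a] = {a, σa}`). If `blk a = blk b` or `blk c = blk d` then one vector is `0`
(`Fv_same`). Otherwise `a ≠ b`, `c ≠ d`; at most one of `a, b` is fixed by `σ` and at most one of `c, d` (`σx = x` implies `blk x = fl (blk x)`, so `blk x = none`).
It suffices to find phases `Ph S u` with `u_a star(u_b) = -u_c star(u_d) = 1` or `-1`: then by `inv_diag` and `Fv_neg` the number is equal to its negative.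
1. `b = σa`, `d = σc` (`a`, `c` not fixed): `c ≠ a, σa` by `hn`; `u = phs a I`: `u_a star(u_{σa}) = I * I = -1`, `u_c star(u_d) = 1`.
2. `b = σa`, `d ≠ σc`: let `p` be one of `c, d` which is not fixed; `u = phs p (-1)`: `u_a star(u_{σa}) = 1`, `u_c star(u_d) = -1`.
3. `b ≠ σa`, `d = σc`: the same with the roles exchanged (symmetry of `g`).
4. `b ≠ σa`, `d ≠ σc`, and `c` and `d` both in `[a] ∪ [b]`: `(c, d)` or `(d, c)` is in `[a] x [b]`. By `hn` it is one of `(a, σb), (σa, b), (b, σa), (σb, a)`, and `a`, `b` are not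
fixed (otherwise this would be one of the pairs excluded by `hn`). `u = phs a I * phs b I`: `u_a star(u_b) = I star(I) = 1`, and `u_c star(u_d) = -1` in the four cases.
5. `b ≠ σa`, `d ≠ σc`, and one of `c, d`, say `c` (the other case is the same, e.g. by `Fv_swap`), is not in `[a] ∪ [b]`. If `c` is not fixed: `u = phs c (-1)`. If `c` is
fixed, `d` is not fixed. If `d` is not in `[a] ∪ [b]`: `u = phs d (-1)`. Otherwise `d` is in `[a]` or `[b]`; let `x` be the other one of `a, b` (`[x] ≠ [d]`, `x ≠ c`). If `x` is not fixed: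
`u = phs x (-1)` (`u_a star(u_b) = -1`, `u_c star(u_d) = 1`). If `x` is fixed: `fix3` gives a third fixed point `w`, `u = ph2 c w`: `u_a star(u_b) = 1`, `u_c star(u_d) = -1`.
-/

set_option autoImplicit false

namespace Pool.Agent.H43.BC

open Matrix Stmt

variable {k : ℕ} {S : Setup k} {N : Pb k → ℕ} {e : ℝ}

/-- further facts about the models -/
structure Okk (S : Setup k) (e : ℝ) : Prop where
  fix3 : ∀ x y, S.inv x = x → S.inv y = y → x ≠ y → ∃ w, S.inv w = w ∧ w ≠ x ∧ w ≠ y
  sgn_blk : ∀ a b, S.blk a = S.blk b → S.sgn a ≠ S.sgn b → e = 1 ∧ S.blk a = none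
  fixd : e = -1 → ∀ a, S.blk a = none → S.inv a = a

/-- `(c, d)` is equivalent to `(a, b)` -/
def Eqv (S : Setup k) (a b c d : S.I) : Prop :=
  (c = a ∧ d = b) ∨ (c = b ∧ d = a) ∨ (c = S.inv a ∧ d = S.inv b) ∨ (c = S.inv b ∧ d = S.inv a)

private theorem sep (ok : Ok S N e) {g : LinearMap.BilinForm ℝ (tt S)} (hg : IsInvMetric S g)
    {u : S.I → ℂ} (hu : Ph S u) {a b c d : S.I}
    (h : (u a * star (u b) = 1 ∧ u c * star (u d) = -1) ∨
      (u a * star (u b) = -1 ∧ u c * star (u d) = 1)) (z w : ℂ) :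
    g (Fv ok a b z) (Fv ok c d w) = 0 := by
  have h1 := inv_diag ok hg hu a b c d z w
  rcases h with ⟨h2, h3⟩ | ⟨h2, h3⟩
  all_goals
    rw [h2, h3] at h1
    simp only [one_mul, neg_mul, Fv_neg, map_neg, LinearMap.neg_apply] at h1
    linarith

private theorem phs_self (p : S.I) (ζ : ℂ) : phs S p ζ p = ζ := by simp [phs]

private theorem phs_ne {p a : S.I} (ζ : ℂ) (h1 : a ≠ p) (h2 : a ≠ S.inv p) :
    phs S p ζ a = 1 := by simp [phs, h1, h2]

private theorem fl_fix {p : Pb k} (h : fl p = p) : p = none := by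
  rcases p with _ | ⟨i, b⟩
  · rfl
  · simp at h

private theorem fix_none (ok : Ok S N e) {a : S.I} (h : S.inv a = a) : S.blk a = none := by
  have h1 := ok.blk_inv a
  rw [h] at h1
  exact fl_fix h1.symm

/-- a sign at a point `p`, not fixed -/
private theorem Ph_neg (ok : Ok S N e) {p : S.I} (hp : S.inv p ≠ p) : Ph S (phs S p (-1)) :=
  Ph_phs ok hp (by simp)

private theorem Ph_I (ok : Ok S N e) {p : S.I} (hp : S.inv p ≠ p) :
    Ph S (phs S p Complex.I) :=
  Ph_phs ok hp (by simp)

/-- case 2: `b = σa` -/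
private theorem case2 (ok : Ok S N e) {g : LinearMap.BilinForm ℝ (tt S)} (hg : IsInvMetric S g)
    {a c d : S.I} (hcd : S.blk c ≠ S.blk d) (h : d ≠ S.inv c) (z w : ℂ) :
    g (Fv ok a (S.inv a) z) (Fv ok c d w) = 0 := by
  have hne : c ≠ d := fun h => hcd (by rw [h])
  have key : ∀ p : S.I, S.inv p ≠ p → ∀ x : S.I,
      phs S p (-1) x * star (phs S p (-1) (S.inv x)) = 1 := by
    intro p hp x
    rw [(Ph_neg ok hp).inv, star_star]
    simp only [phs]
    split_ifs <;> simp
  by_cases hc : S.inv c = c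
  · have hd : S.inv d ≠ d := fun hd => hcd (by rw [fix_none ok hc, fix_none ok hd])
    refine sep ok hg (Ph_neg ok hd) (Or.inl ⟨key d hd a, ?_⟩) z w
    rw [phs_self, phs_ne _ hne (fun h' => h (by rw [h', ok.inv_inv]))]
    simp
  · refine sep ok hg (Ph_neg ok hc) (Or.inl ⟨key c hc a, ?_⟩) z w
    rw [phs_self, phs_ne _ hne.symm h]
    simp

/-- case 5, `c` not in `[a] ∪ [b]` -/
private theorem case5 (ok : Ok S N e) (okk : Okk S e) {g : LinearMap.BilinForm ℝ (tt S)}
    (hg : IsInvMetric S g) {a b c d : S.I} (hab : S.blk a ≠ S.blk b) (hcd : S.blk c ≠ S.blk d)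
    (h1 : b ≠ S.inv a) (h2 : d ≠ S.inv c) (ha : c ≠ a) (ha' : c ≠ S.inv a) (hb : c ≠ b)
    (hb' : c ≠ S.inv b) (z w : ℂ) :
    g (Fv ok a b z) (Fv ok c d w) = 0 := by
  have hne : c ≠ d := fun h => hcd (by rw [h])
  have hne' : a ≠ b := fun h => hab (by rw [h])
  have iv : ∀ {x y : S.I}, x ≠ S.inv y → y ≠ S.inv x := fun h h' => h (by rw [h', ok.inv_inv])
  by_cases hc : S.inv c = c
  · have hd : S.inv d ≠ d := fun hd => hcd (by rw [fix_none ok hc, fix_none ok hd])
    -- the remaining case: `d` in the class of `y`, `x` the other one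
    have main : ∀ x y : S.I, S.blk x ≠ S.blk y → y ≠ S.inv x → c ≠ x → (d = y ∨ d = S.inv y) →
        ∀ z w, g (Fv ok x y z) (Fv ok c d w) = 0 := by
      intro x y hxy h3 hcx hdy z w
      have hy : S.inv y ≠ y := by
        rcases hdy with h | h
        · rw [← h]; exact hd
        · intro h'
          rw [h'] at h
          exact hd (by rw [h, h'])
      have hxy' : x ≠ y := fun h => hxy (by rw [h])
      have hdx : d ≠ x := by
        rcases hdy with h | h
        · rw [h]; exact hxy'.symm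
        · rw [h]; exact (iv h3).symm
      have hdx' : d ≠ S.inv x := by
        rcases hdy with h | h
        · rw [h]; exact h3
        · rw [h]
          intro h'
          exact hxy' (by rw [← ok.inv_inv x, ← h', ok.inv_inv])
      have hcx' : c ≠ S.inv x := fun h => hcx (by rw [← hc, h, ok.inv_inv])
      by_cases hx : S.inv x = x
      · obtain ⟨v, hv, hvc, hvx⟩ := okk.fix3 c x hc hx hcx
        refine sep ok hg (Ph_ph2 ok hc hv hvc.symm) (Or.inl ⟨?_, ?_⟩) z w
        · have e1 : ph2 S c v x = 1 := by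
            simp only [ph2]
            rw [if_neg]
            rintro (h | h)
            · exact hcx h.symm
            · exact hvx h.symm
          have e2 : ph2 S c v y = 1 := by
            simp only [ph2]
            rw [if_neg]
            rintro (h | h)
            · exact hy (by rw [h, hc])
            · exact hy (by rw [h, hv])
          rw [e1, e2]
          simp
        · have e1 : ph2 S c v c = -1 := by simp [ph2]
          have e2 : ph2 S c v d = 1 := by
            simp only [ph2]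
            rw [if_neg]
            rintro (h | h)
            · exact hd (by rw [h, hc])
            · exact hd (by rw [h, hv])
          rw [e1, e2]
          simp
      · refine sep ok hg (Ph_neg ok hx) (Or.inr ⟨?_, ?_⟩) z w
        · rw [phs_self, phs_ne _ hxy'.symm h3]
          simp
        · rw [phs_ne _ hcx hcx', phs_ne _ hdx hdx']
          simp
    by_cases hdb : d = b ∨ d = S.inv b
    · exact main a b hab h1 ha hdb z w
    by_cases hda : d = a ∨ d = S.inv a
    · rw [Fv_swap ok b a z]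
      exact main b a (Ne.symm hab) (iv h1) hb hda _ w
    · rw [not_or] at hda hdb
      refine sep ok hg (Ph_neg ok hd) (Or.inl ⟨?_, ?_⟩) z w
      · rw [phs_ne _ (Ne.symm hda.1) (iv hda.2), phs_ne _ (Ne.symm hdb.1) (iv hdb.2)]
        simp
      · rw [phs_self, phs_ne _ hne (iv h2)]
        simp
  · refine sep ok hg (Ph_neg ok hc) (Or.inl ⟨?_, ?_⟩) z w
    · rw [phs_ne _ ha.symm (iv ha'), phs_ne _ hb.symm (iv hb')]
      simp
    · rw [phs_self, phs_ne _ hne.symm h2]
      simp

/-- case 1: `b = σa`, `d = σc` -/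
private theorem case1 (ok : Ok S N e) {g : LinearMap.BilinForm ℝ (tt S)}
    (hg : IsInvMetric S g) {a c : S.I} (hab : S.blk a ≠ S.blk (S.inv a))
    (h1 : c ≠ a) (h2 : c ≠ S.inv a) (z w : ℂ) :
    g (Fv ok a (S.inv a) z) (Fv ok c (S.inv c) w) = 0 := by
  have ha : S.inv a ≠ a := fun h => hab (by rw [h])
  refine sep ok hg (Ph_I ok ha) (Or.inr ⟨?_, ?_⟩) z w
  · rw [(Ph_I ok ha).inv, star_star, phs_self]
    simp
  · rw [(Ph_I ok ha).inv, star_star, phs_ne _ h1 h2]
    simp

/-- case 4: `c`, `d` both in `[a] ∪ [b]` -/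
private theorem case4 (ok : Ok S N e) {g : LinearMap.BilinForm ℝ (tt S)}
    (hg : IsInvMetric S g) {a b c d : S.I} (hab : S.blk a ≠ S.blk b)
    (h1 : b ≠ S.inv a) (hn : ¬ Eqv S a b c d)
    (h : ((c = a ∨ c = S.inv a) ∧ (d = b ∨ d = S.inv b)) ∨
      ((c = b ∨ c = S.inv b) ∧ (d = a ∨ d = S.inv a))) (z w : ℂ) :
    g (Fv ok a b z) (Fv ok c d w) = 0 := by
  have hne' : a ≠ b := fun h => hab (by rw [h])
  have iv : ∀ {x y : S.I}, x ≠ S.inv y → y ≠ S.inv x := fun h h' => h (by rw [h', ok.inv_inv])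
  have hd4 : (c = a ∧ d = S.inv b) ∨ (c = S.inv a ∧ d = b) ∨ (c = b ∧ d = S.inv a) ∨
      (c = S.inv b ∧ d = a) := by
    simp only [Eqv] at hn
    tauto
  have ha : S.inv a ≠ a := by
    intro ha
    apply hn
    simp only [Eqv]
    rw [ha] at hd4 ⊢
    tauto
  have hb : S.inv b ≠ b := by
    intro hb
    apply hn
    simp only [Eqv]
    rw [hb] at hd4 ⊢
    tauto
  have hu := (Ph_I ok ha).mul (Ph_I ok hb)
  have ea : phs S a Complex.I a * phs S b Complex.I a = Complex.I := by
    rw [phs_self, phs_ne _ hne' (iv h1), mul_one]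
  have eb : phs S a Complex.I b * phs S b Complex.I b = Complex.I := by
    rw [phs_self, phs_ne _ hne'.symm h1, one_mul]
  have ea' : phs S a Complex.I (S.inv a) * phs S b Complex.I (S.inv a) = star Complex.I  :=
    (hu.inv a).trans (congrArg star ea)
  have eb' : phs S a Complex.I (S.inv b) * phs S b Complex.I (S.inv b) = star Complex.I  :=
    (hu.inv b).trans (congrArg star eb)
  refine sep ok hg hu (Or.inl ⟨?_, ?_⟩) z w
  · simp only [ea, eb]
    simp
  · rcases hd4 with ⟨rfl, rfl⟩ | ⟨rfl, rfl⟩ | ⟨rfl, rfl⟩ | ⟨rfl, rfl⟩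
    · simp only [ea, eb']
      simp
    · simp only [ea', eb]
      simp
    · simp only [eb, ea']
      simp
    · simp only [eb', ea]
      simp

theorem van (ok : Ok S N e) (okk : Okk S e) {g : LinearMap.BilinForm ℝ (tt S)}
    (hg : IsInvMetric S g) (a b c d : S.I) (hn : ¬ Eqv S a b c d) (z w : ℂ) :
    g (Fv ok a b z) (Fv ok c d w) = 0 := by
  by_cases hab : S.blk a = S.blk b
  · rw [Fv_same ok hab, map_zero, LinearMap.zero_apply]
  by_cases hcd : S.blk c = S.blk d
  · rw [Fv_same ok hcd, map_zero]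
  by_cases h1 : b = S.inv a
  · subst h1
    by_cases h2 : d = S.inv c
    · subst h2
      refine case1 ok hg hab (fun h => hn (Or.inl ⟨h, by rw [h]⟩)) (fun h => hn ?_) z w
      exact Or.inr (Or.inl ⟨h, by rw [h, ok.inv_inv]⟩)
    · exact case2 ok hg hcd h2 z w
  by_cases h2 : d = S.inv c
  · subst h2
    rw [hg.symm]
    exact case2 ok hg hab h1 w z
  by_cases hc : c = a ∨ c = S.inv a ∨ c = b ∨ c = S.inv b
  · by_cases hd : d = a ∨ d = S.inv a ∨ d = b ∨ d = S.inv b
    · refine case4 ok hg hab h1 hn ?_ z w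
      have hne : c ≠ d := fun h => hcd (by rw [h])
      rcases hc with h | h | h | h <;> rcases hd with h' | h' | h' | h' <;>
        first
        | exact Or.inl ⟨Or.inl h, Or.inl h'⟩
        | exact Or.inl ⟨Or.inl h, Or.inr h'⟩
        | exact Or.inl ⟨Or.inr h, Or.inl h'⟩
        | exact Or.inl ⟨Or.inr h, Or.inr h'⟩
        | exact Or.inr ⟨Or.inl h, Or.inl h'⟩
        | exact Or.inr ⟨Or.inl h, Or.inr h'⟩
        | exact Or.inr ⟨Or.inr h, Or.inl h'⟩
        | exact Or.inr ⟨Or.inr h, Or.inr h'⟩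
        | exact absurd (h.trans h'.symm) hne
        | exact absurd (by rw [h, h', ok.inv_inv]) h2
        | exact absurd (by rw [h, h']) h2
    · simp only [not_or] at hd
      rw [Fv_swap ok d c w]
      exact case5 ok okk hg hab (Ne.symm hcd) h1
        (fun h => h2 (by rw [h, ok.inv_inv])) hd.1 hd.2.1 hd.2.2.1 hd.2.2.2 z _
  · simp only [not_or] at hc
    exact case5 ok okk hg hab hcd h1 h2 hc.1 hc.2.1 hc.2.2.1 hc.2.2.2 z w

end Pool.Agent.H43.BC
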