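import Pool.Agent.H43.BC.TrA
import Pool.Agent.H43.BC.TrB
import Pool.Agent.H43.BC.Van

/-!
# Module Tr: the norms of the frame vectors depend only on the blocks

`tr1`: `a = a'`: clear. Note `b ≠ a, a', σa, σa'`. If `s_a = s_{a'}`: if `σa = a` then `blk a = none` (`blk a = fl (blk a)`) and `e = -1` (`s_a = -e s_a`), so `σa' = a'` by `fixd`: `tr_fix`. The same
if `σa' = a'`. If neither is fixed: `σa ≠ a'` (otherwise `blk a = fl (blk a)`, `blk a = none`; if `e = -1` then `a` is fixed by `fixd`; if `e = 1` then `s_{a'} = -s_a`; use `e * e = 1`): `tr_swap`. If `s_a ≠ s_{a'}`: `e = 1`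
and `blk a = none` (`sgn_blk`), `s_{a'} = -s_a = s_{σa}` (squares are 1), `blk (σa) = none = blk a'`: `tr_sgn`, and then the first case for `σa, a'` (or `σa = a'`).
`tr2`: if `b ≠ σa'`: `kp a b = kp a' b = kp b a' = kp b' a' = kp a' b'` (`tr1` twice, `kp_symm`; `a' = σb'` would give `b' = σa'`). If `b = σa'` and `b' ≠ σa`: `kp a b = kp a b' = kp a' b'`. If `b = σa'`, `b' = σa`:
`kp a (σa') = kp (σa) (σσa') = kp a' (σa)` (`kp_inv`, `kp_symm`).
`tr3` (`e = 1`, `blk (σa) ≠ blk a`, so `blk a ≠ none`): `a = a'` or `tr_swap` (`s_a = s_{a'}` by `sgn_blk`; no fixed points since `s_{σa} = -s_a`; `σa ≠ a'` because of the blocks).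
-/

set_option autoImplicit false

namespace Pool.Agent.H43.BC

open Matrix Stmt

variable {k : ℕ} {S : Setup k} {N : Pb k → ℕ} {e : ℝ}

private theorem Tr_fl {p : Pb k} (h : fl p = p) : p = none := by
  rcases p with _ | ⟨i, b⟩
  · rfl
  · rw [fl_some, Option.some.injEq, Prod.mk.injEq] at h
    exact absurd h.2 (by cases b <;> simp)

private theorem Tr_none (ok : Ok S N e) {a : S.I} (h : S.blk (S.inv a) = S.blk a) :
    S.blk a = none := by
  rw [ok.blk_inv] at h
  exact Tr_fl h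

private theorem Tr_neg (ok : Ok S N e) {a : S.I} (h : S.inv a = a) : e = -1 := by
  have h1 := ok.sgn_inv a
  rw [h] at h1
  have h2 := ok.sq a
  linear_combination h1 * S.sgn a - (1 + e) * h2

private theorem Tr_same (ok : Ok S N e) (okk : Okk S e) {g : LinearMap.BilinForm ℝ (tt S)}
    (hg : IsInvMetric S g) {a a' b : S.I} (h : S.blk a = S.blk a') (h1 : S.blk a ≠ S.blk b)
    (h2 : b ≠ S.inv a) (h3 : b ≠ S.inv a') (hs : S.sgn a = S.sgn a') :
    kp ok g a b = kp ok g a' b := by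
  by_cases haa : a = a'
  · rw [haa]
  have hba : b ≠ a := fun h4 => h1 (by rw [h4])
  have hba' : b ≠ a' := fun h4 => h1 (by rw [h4, h])
  by_cases f1 : S.inv a = a
  · have hn := Tr_none ok (a := a) (by rw [f1])
    have he := Tr_neg ok f1
    exact tr_fix ok hg haa h hs f1 (okk.fixd he a' (h ▸ hn)) b hba hba'
  by_cases f2 : S.inv a' = a'
  · have hn := Tr_none ok (a := a') (by rw [f2])
    have he := Tr_neg ok f2
    exact absurd (okk.fixd he a (h.trans hn)) f1
  have f3 : S.inv a ≠ a' := by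
    intro h4
    have hn := Tr_none ok (a := a) (by rw [h4, h])
    rcases mul_self_eq_one_iff.1 ok.e_sq with he | he
    · have h5 := ok.sgn_inv a
      rw [h4, ← hs, he] at h5
      have h6 : S.sgn a = 0 := by linarith
      have h7 := ok.sq a
      rw [h6] at h7
      norm_num at h7
    · exact f1 (okk.fixd he a hn)
  exact (tr_swap ok hg haa h hs f1 f2 f3).1 b hba hba' h2 h3

theorem tr1 (ok : Ok S N e) (okk : Okk S e) {g : LinearMap.BilinForm ℝ (tt S)}
    (hg : IsInvMetric S g) {a a' b : S.I} (h : S.blk a = S.blk a') (h1 : S.blk a ≠ S.blk b)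
    (h2 : b ≠ S.inv a) (h3 : b ≠ S.inv a') : kp ok g a b = kp ok g a' b := by
  by_cases hs : S.sgn a = S.sgn a'
  · exact Tr_same ok okk hg h h1 h2 h3 hs
  obtain ⟨he, hn⟩ := okk.sgn_blk a a' h hs
  have hb : S.blk (S.inv a) = S.blk a := by rw [ok.blk_inv, hn, fl_none]
  have hba : b ≠ a := fun h4 => h1 (by rw [h4])
  rw [tr_sgn ok hg he hb b hba h2]
  refine Tr_same ok okk hg (hb.trans h) (by rw [hb]; exact h1) (by rw [ok.inv_inv]; exact hba) h3 ?_
  rw [ok.sgn_inv, he]
  rcases mul_self_eq_one_iff.1 (ok.sq a) with h4 | h4 <;>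
    rcases mul_self_eq_one_iff.1 (ok.sq a') with h5 | h5
  · exact absurd (h4.trans h5.symm) hs
  · rw [h4, h5]; ring
  · rw [h4, h5]; ring
  · exact absurd (h4.trans h5.symm) hs

theorem tr2 (ok : Ok S N e) (okk : Okk S e) {g : LinearMap.BilinForm ℝ (tt S)}
    (hg : IsInvMetric S g) {a a' b b' : S.I} (h : S.blk a = S.blk a') (h' : S.blk b = S.blk b')
    (h1 : S.blk a ≠ S.blk b) (h2 : b ≠ S.inv a) (h3 : b' ≠ S.inv a') :
    kp ok g a b = kp ok g a' b' := by
  by_cases h4 : b = S.inv a'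
  · by_cases h5 : b' = S.inv a
    · rw [h4, h5, ← kp_inv, ok.inv_inv, kp_symm]
    · have e1 : kp ok g a b = kp ok g a b' := by
        rw [← kp_symm, ← kp_symm ok g a b']
        refine tr1 ok okk hg h' (Ne.symm h1) (fun h6 => h2 ?_) fun h6 => h5 ?_
        · rw [h6, ok.inv_inv]
        · rw [h6, ok.inv_inv]
      rw [e1]
      exact tr1 ok okk hg h (by rw [← h']; exact h1) h5 h3
  · rw [tr1 ok okk hg h h1 h2 h4, ← kp_symm, ← kp_symm ok g a' b']
    refine tr1 ok okk hg h' (by rw [← h]; exact Ne.symm h1) (fun h6 => h4 ?_) fun h6 => h3 ?_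
    · rw [h6, ok.inv_inv]
    · rw [h6, ok.inv_inv]

theorem tr3 (ok : Ok S N e) (okk : Okk S e) {g : LinearMap.BilinForm ℝ (tt S)}
    (hg : IsInvMetric S g) (he : e = 1) {a a' : S.I} (h : S.blk a = S.blk a')
    (h1 : S.blk a ≠ S.blk (S.inv a)) :
    kp ok g a (S.inv a) = kp ok g a' (S.inv a') := by
  by_cases haa : a = a'
  · rw [haa]
  have hn : S.blk a ≠ none := by
    intro h2
    exact h1 (by rw [ok.blk_inv, h2, fl_none])
  have hs : S.sgn a = S.sgn a' := by
    by_contra h2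
    exact hn (okk.sgn_blk a a' h h2).2
  have h1' : S.blk a' ≠ S.blk (S.inv a') := by
    rw [ok.blk_inv, ← h, ← ok.blk_inv]
    exact h1
  refine (tr_swap ok hg haa h hs (fun h2 => h1 (by rw [h2])) (fun h2 => h1' (by rw [h2]))
    fun h2 => h1 (by rw [h2, h])).2

end Pool.Agent.H43.BC
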