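import Pool.Agent.H43.BC.RotM
import Pool.Agent.H43.BC.Tr

/-!
# Module Rat: the norm of the long roots

`b = σc` with `c = σb`, `blk c = fl (blk b) = fl (blk (σa)) = blk a`, `c ≠ a`, `s_a = s_c` (`sgn_blk`: otherwise `blk a = none`, but `blk a ≠ blk (σa)`). `exists_rot` and `g_cj`:
`kp a (σa) = g Y Y`, `Y = 1/2 Fv a (σa) 1 + 1/2 Fv c (σc) 1 + Fv a (σc) 1`. The three vectors are orthogonal by `van` (the pairs `(a, σa)`, `(c, σc)`, `(a, σc)` are not equivalent), so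
`kp a (σa) = 1/4 kp a (σa) + 1/4 kp c (σc) + kp a (σc)`, and `kp c (σc) = kp a (σa)` by `tr3`.
-/

set_option autoImplicit false

namespace Pool.Agent.H43.BC

open Matrix Stmt

variable {k : ℕ} {S : Setup k} {N : Pb k → ℕ} {e : ℝ}

theorem rat (ok : Ok S N e) (okk : Okk S e) {g : LinearMap.BilinForm ℝ (tt S)}
    (hg : IsInvMetric S g) (he : e = 1) {a b : S.I} (h1 : S.blk a ≠ S.blk (S.inv a))
    (h2 : S.blk b = S.blk (S.inv a)) (h3 : b ≠ S.inv a) :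
    kp ok g a (S.inv a) = 2 * kp ok g a b := by
  obtain ⟨c, rfl⟩ : ∃ c, b = S.inv c := ⟨S.inv b, (ok.inv_inv b).symm⟩
  have hbc : S.blk a = S.blk c := by
    rw [ok.blk_inv, ok.blk_inv, fl_inj] at h2
    exact h2.symm
  have hac : a ≠ c := fun h => h3 (by rw [h])
  have hnone : S.blk a ≠ none := fun h => h1 (by rw [ok.blk_inv, h, fl_none])
  have hs : S.sgn a = S.sgn c := by
    by_contra hcon
    exact hnone (okk.sgn_blk a c hbc hcon).2
  have hcσ : S.blk c ≠ S.blk (S.inv c) := by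
    rw [ok.blk_inv, ← hbc, ← ok.blk_inv]
    exact h1
  have e1 : a ≠ S.inv a := fun h => h1 (by rw [← h])
  have e2 : a ≠ S.inv c := fun h => h1 (by rw [← h2, ← h])
  have e3 : c ≠ S.inv a := fun h => h1 (by rw [hbc, ← h])
  have e4 : c ≠ S.inv c := fun h => hcσ (by rw [← h])
  have e5 : S.inv c ≠ S.inv a := h3
  obtain ⟨U, hU, hY⟩ := exists_rot ok he hac hbc hs h1
  have h0 := g_cj ok hg hU (Fv ok a (S.inv a) 1) (Fv ok a (S.inv a) 1)
  have v1 : g (Fv ok a (S.inv a) 1) (Fv ok c (S.inv c) 1) = 0 := by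
    refine van ok okk hg _ _ _ _ ?_ 1 1
    rintro (⟨h, -⟩ | ⟨h, -⟩ | ⟨h, -⟩ | ⟨h, -⟩)
    · exact hac h.symm
    · exact e3 h
    · exact e3 h
    · rw [ok.inv_inv] at h
      exact hac h.symm
  have v2 : g (Fv ok a (S.inv a) 1) (Fv ok a (S.inv c) 1) = 0 := by
    refine van ok okk hg _ _ _ _ ?_ 1 1
    rintro (⟨-, h⟩ | ⟨h, -⟩ | ⟨h, -⟩ | ⟨-, h⟩)
    · exact e5 h
    · exact e1 h
    · exact e1 h
    · exact e5 h
  have v3 : g (Fv ok c (S.inv c) 1) (Fv ok a (S.inv c) 1) = 0 := by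
    refine van ok okk hg _ _ _ _ ?_ 1 1
    rintro (⟨h, -⟩ | ⟨h, -⟩ | ⟨h, -⟩ | ⟨h, -⟩)
    · exact hac h
    · exact e2 h
    · exact e2 h
    · rw [ok.inv_inv] at h
      exact hac h
  have v1' := hg.symm (Fv ok a (S.inv a) 1) (Fv ok c (S.inv c) 1)
  have v2' := hg.symm (Fv ok a (S.inv a) 1) (Fv ok a (S.inv c) 1)
  have v3' := hg.symm (Fv ok c (S.inv c) 1) (Fv ok a (S.inv c) 1)
  have h4 := tr3 ok okk hg he hbc h1
  rw [hY] at h0
  simp only [map_add, map_smul, LinearMap.add_apply, LinearMap.smul_apply, smul_eq_mul, v1, v2, v3,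
    ← v1', ← v2', ← v3'] at h0
  simp only [kp] at h4 ⊢
  linarith

end Pool.Agent.H43.BC
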