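import Pool.Agent.H43.BC.Trc

/-!
# Module Thd: the third term of the Ricci curvature

`hd ok ξ hf X` has the entries `ξ_ab X_ab`. For `Y, Z` in `tt S`, `T = hd ξ X`:
`gx ξ (brk Y Z) X = 1/2 ∑_pq Re ((Y Z - Z Y)_pq conj T_pq)` (the entries with `blk p = blk q` do not matter, `tt_zero`)
`= -1/2 Re tr ((Y Z - Z Y) T)` (`conj T_pq = -T_qp`) `= -1/2 Re tr (Z (T Y - Y T))` (cyclicity)
`= 1/2 ∑_pq Re (Z_pq conj (T Y - Y T)_pq)` `= gx ξ Z (hd ξ⁻¹ (brk T Y))`. So with `Y = u_i`, `Z = u_j` and `norm_onb`: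
`∑_j (gx ξ (brk u_i u_j) X)² = gx ξ W W`, `W = hd ξ⁻¹ (brk T u_i)`, and `gx ξ W W = 1/2 ∑_pq ξ ξ⁻² |brk T u_i|²`.
-/

set_option autoImplicit false

namespace Pool.Agent.H43.BC

open Matrix Stmt

variable {k : ℕ} {S : Setup k} {N : Pb k → ℕ} {e : ℝ}

/-- entrywise multiplication with a function of the blocks -/
noncomputable def hd (ok : Ok S N e) (ξ : Pb k → Pb k → ℝ) (hs : ∀ α β, ξ α β = ξ β α)
    (hf : ∀ α β, ξ (fl α) (fl β) = ξ α β) (X : tt S) : tt S :=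
  ⟨Matrix.of fun a b => (ξ (S.blk a) (S.blk b) : ℂ) * (X : Matrix S.I S.I ℂ) a b, by
    refine ⟨?_, fun a b => ?_, fun a b h => ?_⟩
    · ext a b
      rw [conjTranspose_apply, Matrix.neg_apply, Matrix.of_apply, Matrix.of_apply, star_mul',
        RCLike.star_def, Complex.conj_ofReal, hs (S.blk b), tt_skew X a b]
      simp
    · rw [Matrix.of_apply, Matrix.of_apply, ok.blk_inv, ok.blk_inv, hf, tt_comm, star_mul',
        RCLike.star_def, Complex.conj_ofReal]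
      ring
    · rw [Matrix.of_apply, tt_zero X h, mul_zero]⟩

theorem hd_apply (ok : Ok S N e) (ξ : Pb k → Pb k → ℝ) (hs : ∀ α β, ξ α β = ξ β α)
    (hf : ∀ α β, ξ (fl α) (fl β) = ξ α β) (X : tt S) (a b : S.I) :
    (hd ok ξ hs hf X : Matrix S.I S.I ℂ) a b =
      (ξ (S.blk a) (S.blk b) : ℂ) * (X : Matrix S.I S.I ℂ) a b := rfl

private theorem thd_tr (A B : Matrix S.I S.I ℂ) :
    ∑ p, ∑ q, A p q * star (B p q) = Matrix.trace (A * Bᴴ) := by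
  rw [Matrix.trace]
  refine Finset.sum_congr rfl fun p _ => ?_
  rw [Matrix.diag_apply, Matrix.mul_apply]
  refine Finset.sum_congr rfl fun q _ => ?_
  rw [conjTranspose_apply]

private theorem thd_cyc (Y Z T : tt S) :
    ∑ p, ∑ q, ((Y : Matrix S.I S.I ℂ) * (Z : Matrix S.I S.I ℂ) -
      (Z : Matrix S.I S.I ℂ) * (Y : Matrix S.I S.I ℂ)) p q * star ((T : Matrix S.I S.I ℂ) p q) =
    ∑ p, ∑ q, (Z : Matrix S.I S.I ℂ) p q *
      star (((T : Matrix S.I S.I ℂ) * (Y : Matrix S.I S.I ℂ) -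
        (Y : Matrix S.I S.I ℂ) * (T : Matrix S.I S.I ℂ)) p q) := by
  have hT : (T : Matrix S.I S.I ℂ)ᴴ = -(T : Matrix S.I S.I ℂ) := T.2.1
  have hY : (Y : Matrix S.I S.I ℂ)ᴴ = -(Y : Matrix S.I S.I ℂ) := Y.2.1
  rw [thd_tr, thd_tr, conjTranspose_sub, conjTranspose_mul, conjTranspose_mul, hT, hY]
  simp only [mul_neg, neg_mul, sub_mul, mul_sub, trace_neg, trace_sub, neg_neg]
  have h1 : Matrix.trace ((Y : Matrix S.I S.I ℂ) * (Z : Matrix S.I S.I ℂ) *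
      (T : Matrix S.I S.I ℂ)) = Matrix.trace ((Z : Matrix S.I S.I ℂ) *
      ((T : Matrix S.I S.I ℂ) * (Y : Matrix S.I S.I ℂ))) := by
    rw [Matrix.mul_assoc, Matrix.trace_mul_comm, Matrix.mul_assoc]
  rw [h1, Matrix.mul_assoc (Z : Matrix S.I S.I ℂ) (Y : Matrix S.I S.I ℂ)]
  ring

private theorem thd_key (ok : Ok S N e) {ξ : Pb k → Pb k → ℝ} (hs : ∀ α β, ξ α β = ξ β α)
    (hf : ∀ α β, ξ (fl α) (fl β) = ξ α β) (hp : ∀ α β, 0 < ξ α β)
    (hs' : ∀ α β, (ξ α β)⁻¹ = (ξ β α)⁻¹) (hf' : ∀ α β, (ξ (fl α) (fl β))⁻¹ = (ξ α β)⁻¹)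
    (X Y Z : tt S) : gx S ξ (brk ok Y Z) X =
      gx S ξ Z (hd ok (fun α β => (ξ α β)⁻¹) hs' hf' (brk ok (hd ok ξ hs hf X) Y)) := by
  rw [gx_apply, gx_apply]
  congr 1
  have h := congrArg Complex.re (thd_cyc Y Z (hd ok ξ hs hf X))
  simp only [Complex.re_sum] at h
  have hl : ∀ p q, ξ (S.blk p) (S.blk q) * ((brk ok Y Z : Matrix S.I S.I ℂ) p q *
      star ((X : Matrix S.I S.I ℂ) p q)).re =
      (((Y : Matrix S.I S.I ℂ) * (Z : Matrix S.I S.I ℂ) -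
      (Z : Matrix S.I S.I ℂ) * (Y : Matrix S.I S.I ℂ)) p q *
        star ((hd ok ξ hs hf X : Matrix S.I S.I ℂ) p q)).re := by
    intro p q
    rw [hd_apply]
    by_cases hb : S.blk p = S.blk q
    · rw [tt_zero X hb]
      simp
    · rw [brk_coe, bracket, offDiag, Matrix.of_apply, if_neg hb, star_mul', RCLike.star_def,
        Complex.conj_ofReal, mul_left_comm, Complex.re_ofReal_mul]
  have hr : ∀ p q, ξ (S.blk p) (S.blk q) * ((Z : Matrix S.I S.I ℂ) p q *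
      star ((hd ok (fun α β => (ξ α β)⁻¹) hs' hf' (brk ok (hd ok ξ hs hf X) Y) :
        Matrix S.I S.I ℂ) p q)).re =
      ((Z : Matrix S.I S.I ℂ) p q *
      star ((((hd ok ξ hs hf X : tt S) : Matrix S.I S.I ℂ) * (Y : Matrix S.I S.I ℂ) -
        (Y : Matrix S.I S.I ℂ) * ((hd ok ξ hs hf X : tt S) : Matrix S.I S.I ℂ)) p q)).re := by
    intro p q
    rw [hd_apply]
    by_cases hb : S.blk p = S.blk q
    · rw [tt_zero Z hb]
      simp
    · rw [brk_coe, bracket, offDiag, Matrix.of_apply, if_neg hb, star_mul', RCLike.star_def,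
        Complex.conj_ofReal, mul_left_comm, Complex.re_ofReal_mul, ← mul_assoc,
        mul_inv_cancel₀ (hp _ _).ne', one_mul]
  simp only [hl, hr]
  exact h

theorem third (ok : Ok S N e) {ξ : Pb k → Pb k → ℝ} (hs : ∀ α β, ξ α β = ξ β α)
    (hf : ∀ α β, ξ (fl α) (fl β) = ξ α β) (hp : ∀ α β, 0 < ξ α β) {m : ℕ} {u : Fin m → tt S}
    (hu : IsONB (gx S ξ) u) (X : tt S) :
    ∑ i, ∑ j, (gx S ξ (brk ok (u i) (u j)) X) ^ 2 =
      (1 / 2) * ∑ i, ∑ p, ∑ q, (ξ (S.blk p) (S.blk q))⁻¹ *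
        Complex.normSq ((brk ok (hd ok ξ hs hf X) (u i) : Matrix S.I S.I ℂ) p q) := by
  have hs' : ∀ α β, (ξ α β)⁻¹ = (ξ β α)⁻¹ := fun α β => by rw [hs]
  have hf' : ∀ α β, (ξ (fl α) (fl β))⁻¹ = (ξ α β)⁻¹ := fun α β => by rw [hf]
  rw [Finset.mul_sum]
  refine Finset.sum_congr rfl fun i _ => ?_
  simp only [thd_key ok hs hf hp hs' hf' X]
  rw [norm_onb hu, gx_apply]
  congr 1
  refine Finset.sum_congr rfl fun p _ => Finset.sum_congr rfl fun q _ => ?_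
  rw [hd_apply, RCLike.star_def, Complex.mul_conj, Complex.ofReal_re, Complex.normSq_mul,
    Complex.normSq_ofReal]
  have h0 : ξ (S.blk p) (S.blk q) ≠ 0 := (hp _ _).ne'
  field_simp

end Pool.Agent.H43.BC
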