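import Pool.Agent.H43.BC.Qd
import Pool.Agent.H43.BC.Thd

/-!
# Module RicF: the Ricci curvature of `gx ξ`

First term: `gx ξ Y Y = 1/2 ∑_pq ξ |Y_pq|²` (`gx_apply`, `Complex.mul_conj`), so `∑_j gx (brk X u_j) (brk X u_j)` is `1/2` times `quad_sum` with
`ω = ξ`. Third term: `third` and `quad_sum` with `ω = ξ⁻¹` and `X` replaced by `hd ξ X` (entries `ξ X`, `|ξ X|² = ξ² |X|²`). Killing form:
`Re tr (X X) = ∑_pa Re (X_pa X_ap) = -∑ |X_pa|²` (`tt_skew`), `ok.kil_eq`.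
-/

set_option autoImplicit false

namespace Pool.Agent.H43.BC

open Matrix Stmt

variable {k : ℕ} {S : Setup k} {N : Pb k → ℕ} {e : ℝ}

/-- the coefficient of the Ricci curvature -/
noncomputable def rf (N : Pb k → ℕ) (e : ℝ) (ξ : Pb k → Pb k → ℝ) (α β : Pb k) : ℝ :=
  -(1 / 2) * (∑ γ, if γ = α ∨ γ = β then 0 else
    wt (fun p => (N p : ℝ)) e α β γ * (ξ α γ * (ξ β γ)⁻¹)) +
  (1 / 2) * ((∑ p, (N p : ℝ)) + 2 * e) +
  (1 / 4) * (ξ α β) ^ 2 * ∑ γ, if γ = α ∨ γ = β then 0 else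
    wt (fun p => (N p : ℝ)) e α β γ * ((ξ α γ)⁻¹ * (ξ β γ)⁻¹)

private theorem gx_self (S : Setup k) (ξ : Pb k → Pb k → ℝ) (Y : tt S) :
    gx S ξ Y Y = (1 / 2) * ∑ p, ∑ q, ξ (S.blk p) (S.blk q) *
      Complex.normSq ((Y : Matrix S.I S.I ℂ) p q) := by
  rw [gx_apply]
  congr 1
  refine Finset.sum_congr rfl fun p _ => Finset.sum_congr rfl fun q _ => ?_
  rw [RCLike.star_def, Complex.mul_conj, Complex.ofReal_re]

private theorem kill_self (ok : Ok S N e) (X : tt S) :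
    Stmt.killingForm S (X : Matrix S.I S.I ℂ) (X : Matrix S.I S.I ℂ) =
      -((∑ p, (N p : ℝ)) + 2 * e) * ∑ p, ∑ a, Complex.normSq ((X : Matrix S.I S.I ℂ) p a) := by
  have h : (Matrix.trace ((X : Matrix S.I S.I ℂ) * (X : Matrix S.I S.I ℂ))).re =
      -∑ p, ∑ a, Complex.normSq ((X : Matrix S.I S.I ℂ) p a) := by
    rw [Matrix.trace, Complex.re_sum, ← Finset.sum_neg_distrib]
    refine Finset.sum_congr rfl fun p _ => ?_
    rw [Matrix.diag_apply, Matrix.mul_apply, Complex.re_sum, ← Finset.sum_neg_distrib]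
    refine Finset.sum_congr rfl fun a _ => ?_
    rw [tt_skew X p a, mul_neg, RCLike.star_def, Complex.mul_conj, Complex.neg_re,
      Complex.ofReal_re]
  rw [Stmt.killingForm, h, ok.kil_eq]
  ring

theorem ric_formula (ok : Ok S N e) {ξ : Pb k → Pb k → ℝ} (hs : ∀ α β, ξ α β = ξ β α)
    (hf : ∀ α β, ξ (fl α) (fl β) = ξ α β) (hp : ∀ α β, 0 < ξ α β) {m : ℕ} {u : Fin m → tt S}
    (hu : IsONB (gx S ξ) u) (X : tt S) :
    ric ok (gx S ξ) u X = ∑ p, ∑ a, Complex.normSq ((X : Matrix S.I S.I ℂ) p a) *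
      rf N e ξ (S.blk p) (S.blk a) := by
  have h1 : ∑ j, gx S ξ (brk ok X (u j)) (brk ok X (u j)) =
      ∑ p, ∑ a, Complex.normSq ((X : Matrix S.I S.I ℂ) p a) *
      ∑ γ, if γ = S.blk p ∨ γ = S.blk a then 0 else
        wt (fun p => (N p : ℝ)) e (S.blk p) (S.blk a) γ *
          (ξ (S.blk p) γ * (ξ (S.blk a) γ)⁻¹) := by
    simp only [gx_self]
    rw [← Finset.mul_sum, quad_sum ok hs hf hp hs hf hu X]
    ring
  have h3 : ∑ i, ∑ j, (gx S ξ (brk ok (u i) (u j)) X) ^ 2 =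
      ∑ p, ∑ a, Complex.normSq ((X : Matrix S.I S.I ℂ) p a) *
      ((ξ (S.blk p) (S.blk a)) ^ 2 * ∑ γ, if γ = S.blk p ∨ γ = S.blk a then 0 else
        wt (fun p => (N p : ℝ)) e (S.blk p) (S.blk a) γ *
          ((ξ (S.blk p) γ)⁻¹ * (ξ (S.blk a) γ)⁻¹)) := by
    rw [third ok hs hf hp hu X]
    have hq := quad_sum ok hs hf hp (ω := fun α β => (ξ α β)⁻¹)
      (fun α β => by rw [hs α β]) (fun α β => by rw [hf α β]) hu (hd ok ξ hs hf X)
    rw [hq, ← mul_assoc]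
    have e1 : (1 / 2 : ℝ) * 2 = 1 := by norm_num
    rw [e1, one_mul]
    refine Finset.sum_congr rfl fun p _ => Finset.sum_congr rfl fun a _ => ?_
    rw [hd_apply, Complex.normSq_mul, Complex.normSq_ofReal]
    ring
  rw [ric, h1, h3, kill_self ok X, Finset.mul_sum, Finset.mul_sum, Finset.mul_sum,
    Finset.mul_sum, ← Finset.sum_sub_distrib, ← Finset.sum_add_distrib]
  refine Finset.sum_congr rfl fun p _ => ?_
  rw [Finset.mul_sum, Finset.mul_sum, Finset.mul_sum, Finset.mul_sum,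
    ← Finset.sum_sub_distrib, ← Finset.sum_add_distrib]
  refine Finset.sum_congr rfl fun a _ => ?_
  rw [rf]
  ring

end Pool.Agent.H43.BC
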