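import Pool.Agent.H43.BC.InvC

/-!
# Module RotM: rotation by 45 degrees

Let `a ≠ c` be in the same block, `σa, σc` (`σ = S.inv`) in a different block, `s_a = s_c`; `a, c, σa, σc` are four different indices. For real `x, y` let `R x y` be the matrix with
`R e_a = x e_a + y e_c`, `R e_c = -y e_a + x e_c`, `R e_{σa} = x e_{σa} + y e_{σc}`, `R e_{σc} = -y e_{σa} + x e_{σc}`, `R e_b = e_b` otherwise: `R x y = 1 + (x - 1) • P + y • Q`,
`P = E_aa + E_cc + E_{σa,σa} + E_{σc,σc}`, `Q = E_ca - E_ac + E_{σc,σa} - E_{σa,σc}`; `P P = P`, `P Q = Q P = Q`, `Q Q = -P`, `Pᵀ = P`, `Qᵀ = -Q`. So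
`R x y * R x' y' = R (x x' - y y') (x y' + y x')` and `(R x y)ᴴ = R x (-y)`. For `x² + y² = 1`: `R x y * (R x y)ᴴ = 1`, so `(det (R x y))² = 1` (`det` of the transpose;
`R x y` is real), and `det (R x y * R x y) = 1`. Take `V = R (cos (π/8)) (sin (π/8))`, `U = V * V = R (√2/2) (√2/2)` (`Real.cos_sq_add_sin_sq`, double angle formulas,
`Real.cos_pi_div_four`). `U` is in the isotropy group: unitary, `det = 1`, `CommJ` (entries of `P`, `Q` at `(σp, σq)` and `(p, q)` agree, `s_p s_q = 1` on their support,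
`s_p s_q = s_p s_p` on the diagonal), block diagonal. Then `U E_{a,σa} Uᴴ = (U e_a) (U e_{σa})ᵀ = 1/2 (E_{a,σa} + E_{a,σc} + E_{c,σa} + E_{c,σc})`. For `e = 1`: `Um a (σa) = 2 E_{a,σa}`
(`s_a s_{σa} = -1`), `Um a (σc) = E_{a,σc} + E_{c,σa}`, so `U Um_{a,σa} Uᴴ = 1/2 Um_{a,σa} + 1/2 Um_{c,σc} + Um_{a,σc}`; the same with `(σa, a)` in place of `(a, σa)` (adjoint:
`(Um a b)ᴴ = Um b a`).
-/

set_option autoImplicit false

namespace Pool.Agent.H43.BC

open Matrix Stmt

variable {k : ℕ} {S : Setup k} {N : Pb k → ℕ} {e : ℝ}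

section Rot

variable {J : Type} [Fintype J] [DecidableEq J]

/-- matrix units -/
private noncomputable def E (p q : J) : Matrix J J ℂ := Matrix.single p q 1

private theorem EE (p q r s : J) : E p q * E r s = if q = r then E p s else 0 := by
  by_cases h : q = r
  · rw [if_pos h, h, E, E, E, Matrix.single_mul_single_same, one_mul]
  · rw [if_neg h, E, E, Matrix.single_mul_single_of_ne _ _ _ _ h]

omit [Fintype J] in
private theorem E_apply (p q i j : J) : E p q i j = if p = i ∧ q = j then 1 else 0 := by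
  rw [E, Matrix.single_apply]

omit [Fintype J] in
private theorem E_H (p q : J) : (E p q)ᴴ = E q p := by
  rw [E, E, Matrix.conjTranspose_single, star_one]

omit [Fintype J] in
private theorem E_T (p q : J) : (E p q)ᵀ = E q p := by
  rw [E, E, Matrix.transpose_single]

private noncomputable def P (a c a' c' : J) : Matrix J J ℂ := E a a + E c c + E a' a' + E c' c'

private noncomputable def Q (a c a' c' : J) : Matrix J J ℂ := E c a - E a c + E c' a' - E a' c'

private noncomputable def R (a c a' c' : J) (x y : ℂ) : Matrix J J ℂ :=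
  1 + (x - 1) • P a c a' c' + y • Q a c a' c'

/-- four different indices -/
private structure Four (a c a' c' : J) : Prop where
  h1 : a ≠ c
  h2 : a ≠ a'
  h3 : a ≠ c'
  h4 : c ≠ a'
  h5 : c ≠ c'
  h6 : a' ≠ c'

variable {a c a' c' : J}

private theorem PP (h : Four a c a' c') : P a c a' c' * P a c a' c' = P a c a' c' := by
  simp only [P, add_mul, mul_add, EE, h.h1, h.h2, h.h3, h.h4, h.h5, h.h6, h.h1.symm, h.h2.symm,
    h.h3.symm, h.h4.symm, h.h5.symm, h.h6.symm, if_true, if_false]
  abel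

private theorem PQ (h : Four a c a' c') : P a c a' c' * Q a c a' c' = Q a c a' c' := by
  simp only [P, Q, add_mul, mul_add, mul_sub, EE, h.h1, h.h2, h.h3, h.h4, h.h5, h.h6, h.h1.symm,
    h.h2.symm, h.h3.symm, h.h4.symm, h.h5.symm, h.h6.symm, if_true, if_false]
  abel

private theorem QP (h : Four a c a' c') : Q a c a' c' * P a c a' c' = Q a c a' c' := by
  simp only [P, Q, add_mul, mul_add, sub_mul, EE, h.h1, h.h2, h.h3, h.h4, h.h5, h.h6, h.h1.symm,
    h.h2.symm, h.h3.symm, h.h4.symm, h.h5.symm, h.h6.symm, if_true, if_false]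
  abel

private theorem QQ (h : Four a c a' c') : Q a c a' c' * Q a c a' c' = -P a c a' c' := by
  simp only [P, Q, add_mul, mul_add, sub_mul, mul_sub, EE, h.h1, h.h2, h.h3, h.h4, h.h5, h.h6,
    h.h1.symm, h.h2.symm, h.h3.symm, h.h4.symm, h.h5.symm, h.h6.symm, if_true, if_false]
  abel

private theorem RR (h : Four a c a' c') (x y x' y' : ℂ) :
    R a c a' c' x y * R a c a' c' x' y' = R a c a' c' (x * x' - y * y') (x * y' + y * x') := by
  simp only [R, add_mul, mul_add, one_mul, mul_one, smul_mul_assoc, mul_smul_comm, PP h, PQ h,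
    QP h, QQ h]
  module

omit [Fintype J] in
private theorem R_one : R a c a' c' 1 0 = 1 := by
  rw [R, sub_self, zero_smul, zero_smul, add_zero, add_zero]

omit [Fintype J] in
private theorem R_T (x y : ℂ) : (R a c a' c' x y)ᵀ = R a c a' c' x (-y) := by
  simp only [R, P, Q, transpose_add, transpose_smul, transpose_sub, transpose_one, E_T]
  module

omit [Fintype J] in
private theorem R_H (x y : ℝ) : (R a c a' c' x y)ᴴ = R a c a' c' x (-y) := by
  simp only [R, P, Q, conjTranspose_add, conjTranspose_smul, conjTranspose_sub,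
    conjTranspose_one, E_H, star_sub, star_one, RCLike.star_def, Complex.conj_ofReal]
  module

private theorem R_mul_T (h : Four a c a' c') {x y : ℂ} (hxy : x * x + y * y = 1) :
    R a c a' c' x y * R a c a' c' x (-y) = 1 := by
  rw [RR h, ← R_one (a := a) (c := c) (a' := a') (c' := c')]
  congr 1
  · linear_combination hxy
  · ring

private theorem R_det (h : Four a c a' c') {x y : ℂ} (hxy : x * x + y * y = 1) :
    (R a c a' c' (x * x - y * y) (x * y + y * x)).det = 1 := by
  have h1 := congrArg Matrix.det (R_mul_T h hxy)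
  rw [← R_T, det_mul, det_transpose, det_one] at h1
  rw [← RR h, det_mul, h1]

private theorem R_left_a (h : Four a c a' c') (x y : ℂ) (q : J) :
    R a c a' c' x y * E a q = x • E a q + y • E c q := by
  simp only [R, P, Q, add_mul, sub_mul, one_mul, smul_mul_assoc, EE, h.h1.symm, h.h2.symm,
    h.h3.symm, if_true, if_false]
  module

private theorem R_left_a' (h : Four a c a' c') (x y : ℂ) (q : J) :
    R a c a' c' x y * E a' q = x • E a' q + y • E c' q := by
  simp only [R, P, Q, add_mul, sub_mul, one_mul, smul_mul_assoc, EE, h.h2, h.h4, h.h6.symm,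
    if_true, if_false]
  module

private theorem R_right_a (h : Four a c a' c') (x y : ℂ) (q : J) :
    E q a * R a c a' c' x (-y) = x • E q a + y • E q c := by
  simp only [R, P, Q, mul_add, mul_sub, mul_one, mul_smul_comm, EE, h.h1, h.h2, h.h3, if_true,
    if_false]
  module

private theorem R_right_a' (h : Four a c a' c') (x y : ℂ) (q : J) :
    E q a' * R a c a' c' x (-y) = x • E q a' + y • E q c' := by
  simp only [R, P, Q, mul_add, mul_sub, mul_one, mul_smul_comm, EE, h.h6, h.h2.symm, h.h4.symm,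
    if_true, if_false]
  module

end Rot

private theorem commJ_add {A B : Matrix S.I S.I ℂ} (hA : CommJ S A) (hB : CommJ S B) :
    CommJ S (A + B) := by
  intro p q
  rw [Matrix.add_apply, Matrix.add_apply, hA, hB, star_add]
  ring

private theorem commJ_smul {A : Matrix S.I S.I ℂ} (hA : CommJ S A) (r : ℝ) :
    CommJ S ((r : ℂ) • A) := by
  intro p q
  rw [Matrix.smul_apply, Matrix.smul_apply, hA, smul_eq_mul, smul_eq_mul, star_mul',
    RCLike.star_def, Complex.conj_ofReal]
  ring

private theorem sgn_cast {p q : S.I} (h : S.sgn p * S.sgn q = 1) :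
    (S.sgn p : ℂ) * S.sgn q = 1 := by
  rw [← Complex.ofReal_mul, h, Complex.ofReal_one]

private theorem commJ_one (ok : Ok S N e) : CommJ S (1 : Matrix S.I S.I ℂ) := by
  intro p q
  rw [Matrix.one_apply, Matrix.one_apply]
  by_cases h : p = q
  · rw [if_pos (congrArg S.inv h), if_pos h, h, star_one, mul_one]
    exact (sgn_cast (ok.sq q)).symm
  · rw [if_neg h, if_neg (fun h' => h (by rw [← ok.inv_inv p, h', ok.inv_inv])), star_zero,
      mul_zero]

private theorem commJ_E (ok : Ok S N e) {p q : S.I} (h : S.sgn p * S.sgn q = 1) :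
    CommJ S (E p q + E (S.inv p) (S.inv q)) := by
  have hi : ∀ x y : S.I, (x = S.inv y) ↔ (S.inv x = y) := fun x y =>
    ⟨fun hx => by rw [hx, ok.inv_inv], fun hx => by rw [← hx, ok.inv_inv]⟩
  have hii : ∀ x y : S.I, (S.inv x = S.inv y) ↔ (x = y) := fun x y =>
    ⟨fun hx => by rw [← ok.inv_inv x, hx, ok.inv_inv], fun hx => by rw [hx]⟩
  have h' : S.sgn (S.inv p) * S.sgn (S.inv q) = 1 := by
    rw [ok.sgn_inv, ok.sgn_inv]
    linear_combination h + S.sgn p * S.sgn q * ok.e_sq
  intro i j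
  rw [Matrix.add_apply, Matrix.add_apply, E_apply, E_apply, E_apply, E_apply]
  simp only [hi p i, hi q j, hii p i, hii q j]
  by_cases h1 : p = i ∧ q = j
  · by_cases h2 : S.inv p = i ∧ S.inv q = j
    · rw [if_pos h1, if_pos h2, star_add, star_one, ← h1.1, ← h1.2, sgn_cast h, one_mul]
    · rw [if_pos h1, if_neg h2, ← h1.1, ← h1.2, sgn_cast h, one_mul, add_zero, zero_add,
        star_one]
  · by_cases h2 : S.inv p = i ∧ S.inv q = j
    · rw [if_neg h1, if_pos h2, ← h2.1, ← h2.2, sgn_cast h', one_mul, add_zero, zero_add,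
        star_one]
    · rw [if_neg h1, if_neg h2, add_zero, star_zero, mul_zero]

private theorem commJ_R (ok : Ok S N e) {a c : S.I} (hs : S.sgn a = S.sgn c) (x y : ℝ) :
    CommJ S (R a c (S.inv a) (S.inv c) x y) := by
  have haa := commJ_E ok (ok.sq a)
  have hcc := commJ_E ok (ok.sq c)
  have hac := commJ_E ok (p := a) (q := c) (by rw [hs, ok.sq])
  have hca := commJ_E ok (p := c) (q := a) (by rw [hs, ok.sq])
  have h1 := commJ_add (commJ_one ok) (commJ_add (commJ_smul (commJ_add haa hcc) (x - 1))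
    (commJ_add (commJ_smul hca y) (commJ_smul hac (-y))))
  have h2 : R a c (S.inv a) (S.inv c) x y = (1 : Matrix S.I S.I ℂ) +
      (((x - 1 : ℝ) : ℂ) • (E a a + E (S.inv a) (S.inv a) + (E c c + E (S.inv c) (S.inv c))) +
      ((y : ℂ) • (E c a + E (S.inv c) (S.inv a)) +
        ((-y : ℝ) : ℂ) • (E a c + E (S.inv a) (S.inv c)))) := by
    rw [R, P, Q]
    push_cast
    module
  rw [h2]
  exact h1

private theorem blk_R {a c a' c' : S.I} (h1 : S.blk a = S.blk c) (h2 : S.blk a' = S.blk c')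
    (x y : ℂ) (i j : S.I) (hij : S.blk i ≠ S.blk j) : R a c a' c' x y i j = 0 := by
  have hE : ∀ p q : S.I, S.blk p = S.blk q → E p q i j = 0 := by
    intro p q hpq
    rw [E_apply, if_neg]
    rintro ⟨h3, h4⟩
    exact hij (by rw [← h3, ← h4, hpq])
  have h5 : (1 : Matrix S.I S.I ℂ) i j = 0 := by
    rw [Matrix.one_apply, if_neg fun h => hij (by rw [h])]
  simp only [R, P, Q, Matrix.add_apply, Matrix.sub_apply, Matrix.smul_apply, h5, hE a a rfl,
    hE c c rfl, hE a' a' rfl, hE c' c' rfl, hE a c h1, hE c a h1.symm, hE a' c' h2,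
    hE c' a' h2.symm, smul_eq_mul, add_zero, sub_zero, mul_zero]

private theorem Fv_E (ok : Ok S N e) (he : e = 1) {a c : S.I} (hs : S.sgn a = S.sgn c)
    (h : S.blk a ≠ S.blk (S.inv c)) : (Fv ok a (S.inv c) 1 : Matrix S.I S.I ℂ) =
      E a (S.inv c) + E c (S.inv a) - (E (S.inv c) a + E (S.inv a) c) := by
  have hx : (S.sgn a : ℂ) * S.sgn (S.inv c) = -1 := by
    rw [ok.sgn_inv, he, ← hs]
    push_cast
    linear_combination -(sgn_cast (ok.sq a))
  have hx' : (S.sgn (S.inv c) : ℂ) * S.sgn a = -1 := by rw [mul_comm, hx]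
  have hneg : ∀ p q : S.I, Matrix.single p q (-1 : ℂ) = -E p q := by
    intro p q
    rw [E, ← Matrix.single_neg]
  rw [Fv_ne ok h, Um, Um, hx, hx', ok.inv_inv, star_one, one_smul, one_smul, hneg, hneg]
  simp only [E]
  abel

theorem exists_rot (ok : Ok S N e) (he : e = 1) {a c : S.I} (h : a ≠ c) (hb : S.blk a = S.blk c)
    (hs : S.sgn a = S.sgn c) (h1 : S.blk a ≠ S.blk (S.inv a)) :
    ∃ (U : Matrix S.I S.I ℂ) (hU : Isotropy S U), cj ok hU (Fv ok a (S.inv a) 1) =
      (1 / 2 : ℝ) • Fv ok a (S.inv a) 1 + (1 / 2 : ℝ) • Fv ok c (S.inv c) 1 +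
        Fv ok a (S.inv c) 1 := by
  have hb' : S.blk (S.inv a) = S.blk (S.inv c) := by rw [ok.blk_inv, ok.blk_inv, hb]
  have hf : Four a c (S.inv a) (S.inv c) := by
    refine ⟨h, ?_, ?_, ?_, ?_, ?_⟩
    · intro hh
      exact h1 (congrArg S.blk hh)
    · intro hh
      exact h1 ((congrArg S.blk hh).trans hb'.symm)
    · intro hh
      exact h1 (hb.trans (congrArg S.blk hh))
    · intro hh
      exact h1 ((hb.trans (congrArg S.blk hh)).trans hb'.symm)
    · intro hh
      exact h (by rw [← ok.inv_inv a, hh, ok.inv_inv])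
  -- the numbers
  obtain ⟨x, y, hxy, hx2, hy2⟩ : ∃ x y : ℝ, x * x + y * y = 1 ∧
      x * x - y * y = Real.sqrt 2 / 2 ∧ x * y + y * x = Real.sqrt 2 / 2 := by
    refine ⟨Real.cos (Real.pi / 8), Real.sin (Real.pi / 8), ?_, ?_, ?_⟩
    · have := Real.sin_sq_add_cos_sq (Real.pi / 8)
      linarith
    · have h2 : Real.cos (2 * (Real.pi / 8)) = Real.sqrt 2 / 2 := by
        rw [← Real.cos_pi_div_four]
        congr 1
        ring
      rw [Real.cos_two_mul] at h2
      have := Real.sin_sq_add_cos_sq (Real.pi / 8)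
      linarith
    · have h2 : Real.sin (2 * (Real.pi / 8)) = Real.sqrt 2 / 2 := by
        rw [← Real.sin_pi_div_four]
        congr 1
        ring
      rw [Real.sin_two_mul] at h2
      linarith
  set s : ℝ := Real.sqrt 2 / 2 with hsdef
  have hss : s * s = 1 / 2 := by
    have := Real.mul_self_sqrt (show (0 : ℝ) ≤ 2 by norm_num)
    rw [hsdef]
    linarith
  have hssC : (s : ℂ) * s = 1 / 2 := by
    rw [← Complex.ofReal_mul, hss]
    push_cast
    ring
  have hUH : (R a c (S.inv a) (S.inv c) (s : ℂ) s)ᴴ =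
      R a c (S.inv a) (S.inv c) (s : ℂ) (-s) := R_H s s
  have hdet : (R a c (S.inv a) (S.inv c) (s : ℂ) s).det = 1 := by
    have h2 := R_det hf (x := (x : ℂ)) (y := (y : ℂ)) (by
      rw [← Complex.ofReal_mul, ← Complex.ofReal_mul, ← Complex.ofReal_add, hxy,
        Complex.ofReal_one])
    have h3 : (x : ℂ) * x - y * y = s := by
      rw [← Complex.ofReal_mul, ← Complex.ofReal_mul, ← Complex.ofReal_sub, hx2]
    have h4 : (x : ℂ) * y + y * x = s := by
      rw [← Complex.ofReal_mul, ← Complex.ofReal_mul, ← Complex.ofReal_add, hy2]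
    rw [h3, h4] at h2
    exact h2
  have hU : Isotropy S (R a c (S.inv a) (S.inv c) (s : ℂ) s) := by
    refine ⟨?_, commJ_R ok hs s s, fun i j hij => blk_R hb hb' _ _ i j hij⟩
    rw [Matrix.mem_specialUnitaryGroup_iff]
    refine ⟨?_, hdet⟩
    rw [Matrix.mem_unitaryGroup_iff, Matrix.star_eq_conjTranspose, hUH]
    exact R_mul_T hf (by linear_combination 2 * hssC)
  refine ⟨_, hU, ?_⟩
  apply Subtype.ext
  rw [cj_coe, Submodule.coe_add, Submodule.coe_add, Submodule.coe_smul, Submodule.coe_smul,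
    Fv_E ok he rfl h1, Fv_E ok he rfl (by rw [← hb, ← hb']; exact h1),
    Fv_E ok he hs (by rw [← hb']; exact h1), hUH]
  have e1 : R a c (S.inv a) (S.inv c) (s : ℂ) s * E a (S.inv a) *
      R a c (S.inv a) (S.inv c) (s : ℂ) (-s) = (1 / 2 : ℂ) • (E a (S.inv a) + E a (S.inv c) +
        E c (S.inv a) + E c (S.inv c)) := by
    rw [R_left_a hf, add_mul, smul_mul_assoc, smul_mul_assoc, R_right_a' hf, R_right_a' hf,
      ← hssC]
    module
  have e2 : R a c (S.inv a) (S.inv c) (s : ℂ) s * E (S.inv a) a *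
      R a c (S.inv a) (S.inv c) (s : ℂ) (-s) = (1 / 2 : ℂ) • (E (S.inv a) a + E (S.inv a) c +
        E (S.inv c) a + E (S.inv c) c) := by
    rw [R_left_a' hf, add_mul, smul_mul_assoc, smul_mul_assoc, R_right_a hf, R_right_a hf,
      ← hssC]
    module
  rw [mul_sub, mul_add, mul_add, sub_mul, add_mul, add_mul, e1, e2]
  have hr : ∀ M : Matrix S.I S.I ℂ, (1 / 2 : ℝ) • M = (1 / 2 : ℂ) • M := by
    intro M
    ext i j
    rw [Matrix.smul_apply, Matrix.smul_apply, Complex.real_smul, smul_eq_mul]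
    push_cast
    ring
  rw [hr, hr]
  module

end Pool.Agent.H43.BC
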