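import Pool.Agent.H43.BC.Rat
import Pool.Agent.H43.BC.Pres

/-!
# Module SchA: the function `ξ` of an invariant metric

Call `(c, d)` good if `blk c ≠ blk d` and (`d = σc` implies `e = 1`); let `ρ (c, d) = 1/2 kp c d` if `d ≠ σc` and `1/4 kp c d` if `d = σc`. For good pairs `ρ` depends only on the blocks of `c` and `d`: `tr2` (two
pairs with `d ≠ σc`), `tr3` (two pairs with `d = σc`), `rat` together with `tr2` or `tr3` (mixed: `(c, d)` with `d ≠ σc` and `(c', σc')`, `blk d = blk (σc') = blk (σc)`: `kp c' (σc') = kp c (σc) = 2 kp c d`).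
`ρ (d, c) = ρ (c, d)` (`kp_symm`; `c = σd` iff `d = σc`), `ρ (σc, σd) = ρ (c, d)` (`kp_inv`), and goodness is invariant too. `ρ > 0` for good pairs: `Fv ok c d 1 ≠ 0`, its entry `(c, d)` is
`1` if `d ≠ σc` and `1 - s_c s_{σc} = 1 + e = 2` if `d = σc` (`Fv_entry`; `c ≠ d`; `c = σc ∧ d = σd` is impossible because of the blocks), and `hg.pos`. Define `ξ α β = ρ (c, d)` for a chosen good pair with
`blk c = α`, `blk d = β` if there is one, and `1` otherwise.
-/

set_option autoImplicit false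

namespace Pool.Agent.H43.BC

open Matrix Stmt

variable {k : ℕ} {S : Setup k} {N : Pb k → ℕ} {e : ℝ}

/-- good pairs -/
private def SchA_gd (S : Setup k) (e : ℝ) (c d : S.I) : Prop :=
  S.blk c ≠ S.blk d ∧ (d = S.inv c → e = 1)

open Classical in
private noncomputable def SchA_rho (ok : Ok S N e) (g : LinearMap.BilinForm ℝ (tt S))
    (c d : S.I) : ℝ := if d = S.inv c then kp ok g c d / 4 else kp ok g c d / 2

private theorem SchA_dep1 (ok : Ok S N e) (okk : Okk S e) {g : LinearMap.BilinForm ℝ (tt S)}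
    (hg : IsInvMetric S g) {c d c' : S.I} (h : SchA_gd S e c d)
    (h' : SchA_gd S e c' (S.inv c')) (hc : S.blk c = S.blk c')
    (hd : S.blk d = S.blk (S.inv c')) (h1 : d ≠ S.inv c) :
    kp ok g c d / 2 = kp ok g c' (S.inv c') / 4 := by
  have he : e = 1 := h'.2 rfl
  have e1 : S.blk (S.inv c) = S.blk d := by rw [hd, ok.blk_inv, ok.blk_inv, hc]
  have e2 : S.blk c ≠ S.blk (S.inv c) := by rw [e1]; exact h.1
  have h3 := tr3 ok okk hg he hc e2
  have h4 := rat ok okk hg he e2 e1.symm h1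
  linarith

private theorem SchA_dep (ok : Ok S N e) (okk : Okk S e) {g : LinearMap.BilinForm ℝ (tt S)}
    (hg : IsInvMetric S g) {c d c' d' : S.I} (h : SchA_gd S e c d) (h' : SchA_gd S e c' d')
    (hc : S.blk c = S.blk c') (hd : S.blk d = S.blk d') :
    SchA_rho ok g c d = SchA_rho ok g c' d' := by
  classical
  unfold SchA_rho
  by_cases h1 : d = S.inv c
  · by_cases h2 : d' = S.inv c'
    · rw [if_pos h1, if_pos h2]
      subst h1
      subst h2
      rw [tr3 ok okk hg (h.2 rfl) hc h.1]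
    · rw [if_pos h1, if_neg h2]
      subst h1
      exact (SchA_dep1 ok okk hg h' h hc.symm hd.symm h2).symm
  · by_cases h2 : d' = S.inv c'
    · rw [if_neg h1, if_pos h2]
      subst h2
      exact SchA_dep1 ok okk hg h h' hc hd h1
    · rw [if_neg h1, if_neg h2, tr2 ok okk hg hc hd h.1 h1 h2]

private theorem SchA_swap (ok : Ok S N e) {c d : S.I} : (c = S.inv d) ↔ (d = S.inv c) := by
  constructor
  · rintro rfl
    rw [ok.inv_inv]
  · rintro rfl
    rw [ok.inv_inv]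

private theorem SchA_gd_symm (ok : Ok S N e) {c d : S.I} (h : SchA_gd S e c d) :
    SchA_gd S e d c := ⟨h.1.symm, fun h1 => h.2 ((SchA_swap ok).1 h1)⟩

private theorem SchA_gd_inv (ok : Ok S N e) {c d : S.I} (h : SchA_gd S e c d) :
    SchA_gd S e (S.inv c) (S.inv d) := by
  refine ⟨fun h1 => h.1 ?_, fun h1 => h.2 ?_⟩
  · rw [ok.blk_inv, ok.blk_inv, fl_inj] at h1
    exact h1
  · rw [ok.inv_inv] at h1
    exact (SchA_swap ok).1 h1.symm

private theorem SchA_rho_symm (ok : Ok S N e) (g : LinearMap.BilinForm ℝ (tt S)) (c d : S.I) :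
    SchA_rho ok g d c = SchA_rho ok g c d := by
  classical
  unfold SchA_rho
  rw [kp_symm ok g c d]
  by_cases h1 : d = S.inv c
  · rw [if_pos h1, if_pos ((SchA_swap ok).2 h1)]
  · rw [if_neg h1, if_neg fun h2 => h1 ((SchA_swap ok).1 h2)]

private theorem SchA_rho_inv (ok : Ok S N e) (g : LinearMap.BilinForm ℝ (tt S)) (c d : S.I) :
    SchA_rho ok g (S.inv c) (S.inv d) = SchA_rho ok g c d := by
  classical
  unfold SchA_rho
  rw [kp_inv ok g c d, ok.inv_inv]
  by_cases h1 : d = S.inv c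
  · rw [if_pos h1, if_pos ((SchA_swap ok).2 h1).symm]
  · rw [if_neg h1, if_neg fun h2 => h1 ((SchA_swap ok).1 h2.symm)]

private theorem SchA_none {p : Pb k} (h : fl p = p) : p = none := by
  rcases p with _ | ⟨i, b⟩
  · rfl
  · rw [fl_some] at h
    cases b <;> simp at h

private theorem SchA_pos (ok : Ok S N e) {g : LinearMap.BilinForm ℝ (tt S)}
    (hg : IsInvMetric S g) {c d : S.I} (h : SchA_gd S e c d) : 0 < SchA_rho ok g c d := by
  classical
  have hne : Fv ok c d 1 ≠ 0 := by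
    intro h0
    have h1 : (Fv ok c d 1 : Matrix S.I S.I ℂ) c d = 0 := by
      rw [h0]; rfl
    have h2 : ¬ (d = c ∧ c = d) := fun h3 => h.1 (by rw [← h3.2])
    have h3 : ¬ (S.inv c = c ∧ S.inv d = d) := by
      rintro ⟨h4, h5⟩
      have h6 : fl (S.blk c) = S.blk c := by rw [← ok.blk_inv, h4]
      have h7 : fl (S.blk d) = S.blk d := by rw [← ok.blk_inv, h5]
      exact h.1 (by rw [SchA_none h6, SchA_none h7])
    rw [Fv_entry ok h.1, if_pos ⟨rfl, rfl⟩, if_neg h2, if_neg h3] at h1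
    by_cases h4 : d = S.inv c
    · have he := h.2 h4
      have h5 : (S.sgn c : ℂ) * S.sgn d = -1 := by
        rw [h4, ← Complex.ofReal_mul, ok.sgn_inv, he]
        have := ok.sq c
        have e1 : S.sgn c * (-1 * S.sgn c) = -1 := by linarith
        rw [e1]
        simp
      rw [if_pos ⟨((SchA_swap ok).2 h4).symm, h4.symm⟩, h5] at h1
      norm_num at h1
    · rw [if_neg fun h5 => h4 h5.2.symm] at h1
      norm_num at h1
  have hk : 0 < kp ok g c d := hg.pos _ hne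
  unfold SchA_rho
  split_ifs <;> linarith

theorem schA (ok : Ok S N e) (okk : Okk S e) {g : LinearMap.BilinForm ℝ (tt S)}
    (hg : IsInvMetric S g) :
    ∃ ξ : Pb k → Pb k → ℝ, (∀ α β, ξ α β = ξ β α) ∧ (∀ α β, ξ (fl α) (fl β) = ξ α β) ∧
      (∀ α β, 0 < ξ α β) ∧
      (∀ c d, S.blk c ≠ S.blk d → d ≠ S.inv c → kp ok g c d = 2 * ξ (S.blk c) (S.blk d)) ∧
      (e = 1 → ∀ c, S.blk c ≠ S.blk (S.inv c) →
        kp ok g c (S.inv c) = 4 * ξ (S.blk c) (S.blk (S.inv c))) := by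
  classical
  set ξ : Pb k → Pb k → ℝ := fun α β =>
    if h : ∃ p : S.I × S.I, SchA_gd S e p.1 p.2 ∧ S.blk p.1 = α ∧ S.blk p.2 = β then
      SchA_rho ok g h.choose.1 h.choose.2 else 1 with hξ
  have key : ∀ c d, SchA_gd S e c d → ξ (S.blk c) (S.blk d) = SchA_rho ok g c d := by
    intro c d hcd
    have h : ∃ p : S.I × S.I, SchA_gd S e p.1 p.2 ∧ S.blk p.1 = S.blk c ∧ S.blk p.2 = S.blk d :=
      ⟨(c, d), hcd, rfl, rfl⟩
    simp only [hξ]
    rw [dif_pos h]
    exact SchA_dep ok okk hg h.choose_spec.1 hcd h.choose_spec.2.1 h.choose_spec.2.2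
  have none1 : ∀ α β, (¬ ∃ p : S.I × S.I, SchA_gd S e p.1 p.2 ∧ S.blk p.1 = α ∧ S.blk p.2 = β) →
      ξ α β = 1 := by
    intro α β h
    simp only [hξ]
    rw [dif_neg h]
  refine ⟨ξ, ?_, ?_, ?_, ?_, ?_⟩
  · intro α β
    by_cases h : ∃ p : S.I × S.I, SchA_gd S e p.1 p.2 ∧ S.blk p.1 = α ∧ S.blk p.2 = β
    · obtain ⟨⟨c, d⟩, h1, rfl, rfl⟩ := h
      simp only at h1 ⊢
      rw [key c d h1, key d c (SchA_gd_symm ok h1), SchA_rho_symm]
    · rw [none1 α β h, none1 β α]
      rintro ⟨⟨c, d⟩, h1, h2, h3⟩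
      exact h ⟨(d, c), SchA_gd_symm ok h1, h3, h2⟩
  · intro α β
    by_cases h : ∃ p : S.I × S.I, SchA_gd S e p.1 p.2 ∧ S.blk p.1 = α ∧ S.blk p.2 = β
    · obtain ⟨⟨c, d⟩, h1, rfl, rfl⟩ := h
      simp only at h1 ⊢
      rw [← ok.blk_inv, ← ok.blk_inv, key c d h1, key _ _ (SchA_gd_inv ok h1), SchA_rho_inv]
    · rw [none1 α β h, none1 (fl α) (fl β)]
      rintro ⟨⟨c, d⟩, h1, h2, h3⟩
      refine h ⟨(S.inv c, S.inv d), SchA_gd_inv ok h1, ?_, ?_⟩
      · show S.blk (S.inv c) = α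
        rw [ok.blk_inv]
        exact fl_eq_iff.2 h2
      · show S.blk (S.inv d) = β
        rw [ok.blk_inv]
        exact fl_eq_iff.2 h3
  · intro α β
    by_cases h : ∃ p : S.I × S.I, SchA_gd S e p.1 p.2 ∧ S.blk p.1 = α ∧ S.blk p.2 = β
    · obtain ⟨⟨c, d⟩, h1, rfl, rfl⟩ := h
      simp only at h1 ⊢
      rw [key c d h1]
      exact SchA_pos ok hg h1
    · rw [none1 α β h]
      exact one_pos
  · intro c d h1 h2
    have h3 : SchA_gd S e c d := ⟨h1, fun h => absurd h h2⟩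
    rw [key c d h3]
    unfold SchA_rho
    rw [if_neg h2]
    ring
  · intro he c h1
    have h3 : SchA_gd S e c (S.inv c) := ⟨h1, fun _ => he⟩
    rw [key c (S.inv c) h3]
    unfold SchA_rho
    rw [if_pos rfl]
    ring

end Pool.Agent.H43.BC
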