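import Pool.Agent.H43.BC.SchA
import Pool.Agent.H43.BC.GxF

/-!
# Module SchB: invariant metrics are of the form `gx S ξ`

Let `ξ` be as in `schA`. It suffices that `g X (Fv c d w) = gx S ξ X (Fv c d w)` for all `X`, `c, d, w` (`expand` for the second argument). If `blk c = blk d` both are `0`. `gx_Fv`: the right side is
`2 ξ Re (X_cd star w)`. By `expand` the left side is `1/4 ∑_ab g (Fv a b X_ab) (Fv c d w)`, and by `van` only the pairs `(a, b)` with `Eqv S a b c d`, i.e. (`Eqv` is symmetric) `(a, b)` one of `(c, d), (d, c), (σc, σd), (σd, σc)`,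
contribute. The four terms are equal: `Fv d c X_dc = Fv c d X_cd` (`Fv_swap`, `tt_skew`), `Fv (σc) (σd) X_{σc,σd} = Fv c d X_cd` (`Fv_inv`, `tt_comm`, `s² = 1`), and the fourth by both. If `d ≠ σc` the four pairs are
different (`c ≠ d`; `c = σc, d = σd` impossible because of the blocks) and the sum is `g (Fv c d X_cd) (Fv c d w) = kp c d Re (X_cd star w)` (`rot`) `= 2 ξ Re`. If `d = σc`: the pairs are `(c, σc)` and
`(σc, c)`, two terms, the sum is `1/2 kp c (σc) Re`; for `e = 1` this is `2 ξ Re`; for `e = -1` `Fv c (σc) w = 0` (`X_{c,σc} = 0` as well: `Um c (σc) = (1 + e) E = 0` since `s_c s_{σc} = -e`).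
(`e * e = 1` gives `e = 1` or `e = -1`.)
-/

set_option autoImplicit false

namespace Pool.Agent.H43.BC

open Matrix Stmt

variable {k : ℕ} {S : Setup k} {N : Pb k → ℕ} {e : ℝ}

private theorem SchB_swap (ok : Ok S N e) (X : tt S) (c d : S.I) :
    Fv ok d c ((X : Matrix S.I S.I ℂ) d c) = Fv ok c d ((X : Matrix S.I S.I ℂ) c d) := by
  rw [Fv_swap ok c d, tt_skew X c d, star_neg, star_star, neg_neg]

private theorem SchB_inv (ok : Ok S N e) (X : tt S) (c d : S.I) :
    Fv ok (S.inv c) (S.inv d) ((X : Matrix S.I S.I ℂ) (S.inv c) (S.inv d)) =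
      Fv ok c d ((X : Matrix S.I S.I ℂ) c d) := by
  rw [Fv_inv, tt_comm X c d]
  have h : star ((S.sgn c : ℂ) * S.sgn d * star ((X : Matrix S.I S.I ℂ) c d)) =
      ((S.sgn c * S.sgn d : ℝ) : ℂ) * (X : Matrix S.I S.I ℂ) c d := by
    simp only [star_mul', RCLike.star_def, Complex.conj_ofReal, Complex.conj_conj]
    push_cast
    ring
  rw [h, Fv_smul, smul_smul]
  have h2 : S.sgn c * S.sgn d * (S.sgn c * S.sgn d) = 1 := by
    linear_combination S.sgn d * S.sgn d * ok.sq c + ok.sq d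
  rw [h2, one_smul]

private theorem SchB_eqv (ok : Ok S N e) (X : tt S) {a b c d : S.I} (h : Eqv S a b c d) :
    Fv ok a b ((X : Matrix S.I S.I ℂ) a b) = Fv ok c d ((X : Matrix S.I S.I ℂ) c d) := by
  rcases h with ⟨h1, h2⟩ | ⟨h1, h2⟩ | ⟨h1, h2⟩ | ⟨h1, h2⟩
  · rw [h1, h2]
  · rw [h1, h2, SchB_swap ok X a b]
  · rw [h1, h2, SchB_inv ok X a b]
  · rw [h1, h2, SchB_inv ok X b a, SchB_swap ok X a b]

private theorem SchB_eqv_iff (ok : Ok S N e) (a b c d : S.I) : Eqv S a b c d ↔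
    (a, b) = (c, d) ∨ (a, b) = (d, c) ∨ (a, b) = (S.inv c, S.inv d) ∨
      (a, b) = (S.inv d, S.inv c) := by
  have hi : ∀ x y : S.I, x = S.inv y ↔ y = S.inv x := fun x y =>
    ⟨fun h => by rw [h, ok.inv_inv], fun h => by rw [h, ok.inv_inv]⟩
  unfold Eqv
  simp only [Prod.mk.injEq]
  rw [hi c a, hi d b, hi c b, hi d a]
  constructor
  · rintro (⟨h1, h2⟩ | ⟨h1, h2⟩ | ⟨h1, h2⟩ | ⟨h1, h2⟩)
    · exact Or.inl ⟨h1.symm, h2.symm⟩
    · exact Or.inr (Or.inl ⟨h2.symm, h1.symm⟩)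
    · exact Or.inr (Or.inr (Or.inl ⟨h1, h2⟩))
    · exact Or.inr (Or.inr (Or.inr ⟨h2, h1⟩))
  · rintro (⟨h1, h2⟩ | ⟨h1, h2⟩ | ⟨h1, h2⟩ | ⟨h1, h2⟩)
    · exact Or.inl ⟨h1.symm, h2.symm⟩
    · exact Or.inr (Or.inl ⟨h2.symm, h1.symm⟩)
    · exact Or.inr (Or.inr (Or.inl ⟨h1, h2⟩))
    · exact Or.inr (Or.inr (Or.inr ⟨h2, h1⟩))

private theorem SchB_sum (ok : Ok S N e) {c d : S.I} (h : S.blk c ≠ S.blk d) (f : S.I → S.I → ℝ)
    (V : ℝ) (h0 : ∀ a b, ¬ Eqv S a b c d → f a b = 0) (h1 : ∀ a b, Eqv S a b c d → f a b = V) :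
    ∑ a, ∑ b, f a b = if d = S.inv c then 2 * V else 4 * V := by
  have hcd : c ≠ d := fun h' => h (by rw [h'])
  have e1 : ∑ a, ∑ b, f a b = ∑ p : S.I × S.I, f p.1 p.2 := (Fintype.sum_prod_type' f).symm
  have hi : ∀ x y : S.I, x = S.inv y ↔ y = S.inv x := fun x y =>
    ⟨fun h => by rw [h, ok.inv_inv], fun h => by rw [h, ok.inv_inv]⟩
  rw [e1]
  by_cases hd : d = S.inv c
  · rw [if_pos hd]
    have hc : S.inv d = c := by rw [hd, ok.inv_inv]
    have hs : ∑ p : S.I × S.I, f p.1 p.2 = ∑ p ∈ ({(c, d), (d, c)} : Finset (S.I × S.I)),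
        f p.1 p.2 := by
      symm
      refine Finset.sum_subset (Finset.subset_univ _) fun p _ hp => h0 _ _ fun hE => hp ?_
      rw [SchB_eqv_iff ok] at hE
      rw [hc, ← hd] at hE
      rw [Finset.mem_insert, Finset.mem_singleton]
      rcases hE with hE | hE | hE | hE
      · exact Or.inl hE
      · exact Or.inr hE
      · exact Or.inr hE
      · exact Or.inl hE
    have h2 : f c d = V := h1 _ _ (Or.inl ⟨rfl, rfl⟩)
    have h3 : f d c = V := h1 _ _ (Or.inr (Or.inl ⟨rfl, rfl⟩))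
    rw [hs, Finset.sum_insert, Finset.sum_singleton]
    · change f c d + f d c = 2 * V
      rw [h2, h3]
      ring
    · rw [Finset.mem_singleton]
      intro h'
      exact hcd (congrArg Prod.fst h')
  · rw [if_neg hd]
    have hs : ∑ p : S.I × S.I, f p.1 p.2 =
        ∑ p ∈ ({(c, d), (d, c), (S.inv c, S.inv d), (S.inv d, S.inv c)} :
          Finset (S.I × S.I)), f p.1 p.2 := by
      symm
      refine Finset.sum_subset (Finset.subset_univ _) fun p _ hp => h0 _ _ fun hE => hp ?_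
      rw [SchB_eqv_iff ok] at hE
      simp only [Finset.mem_insert, Finset.mem_singleton]
      exact hE
    have h2 : f c d = V := h1 _ _ (Or.inl ⟨rfl, rfl⟩)
    have h3 : f d c = V := h1 _ _ (Or.inr (Or.inl ⟨rfl, rfl⟩))
    have h4 : f (S.inv c) (S.inv d) = V :=
      h1 _ _ (Or.inr (Or.inr (Or.inl ⟨(ok.inv_inv c).symm, (ok.inv_inv d).symm⟩)))
    have h5 : f (S.inv d) (S.inv c) = V :=
      h1 _ _ (Or.inr (Or.inr (Or.inr ⟨(ok.inv_inv c).symm, (ok.inv_inv d).symm⟩)))
    have hfix : ¬ (c = S.inv c ∧ d = S.inv d) := by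
      rintro ⟨k1, k2⟩
      have m1 : S.blk c = fl (S.blk c) := by
        rw [← ok.blk_inv, ← k1]
      have m2 : S.blk d = fl (S.blk d) := by
        rw [← ok.blk_inv, ← k2]
      have m3 : ∀ p : Pb k, p = fl p → p = none := by
        intro p hp
        rcases p with _ | ⟨i, b⟩
        · rfl
        · rw [fl_some] at hp
          simp at hp
      exact h ((m3 _ m1).trans (m3 _ m2).symm)
    have hd' : c ≠ S.inv d := fun h' => hd ((hi _ _).1 h')
    have hii : S.inv c ≠ S.inv d := fun h' => hcd (by rw [← ok.inv_inv c, h', ok.inv_inv])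
    rw [hs, Finset.sum_insert, Finset.sum_insert, Finset.sum_insert, Finset.sum_singleton]
    · change f c d + (f d c + (f (S.inv c) (S.inv d) + f (S.inv d) (S.inv c))) = 4 * V
      rw [h2, h3, h4, h5]
      ring
    · rw [Finset.mem_singleton]
      intro h'
      exact hii (congrArg Prod.fst h')
    · simp only [Finset.mem_insert, Finset.mem_singleton, Prod.mk.injEq]
      rintro (⟨k1, k2⟩ | ⟨k1, k2⟩)
      · exact hd k1
      · exact hfix ⟨k2, k1⟩
    · simp only [Finset.mem_insert, Finset.mem_singleton, Prod.mk.injEq]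
      rintro (⟨k1, k2⟩ | ⟨k1, k2⟩ | ⟨k1, k2⟩)
      · exact hcd k1
      · exact hfix ⟨k1, k2⟩
      · exact hd' k1

private theorem SchB_zero (ok : Ok S N e) (he : e ≠ 1) (c : S.I) (w : ℂ) :
    Fv ok c (S.inv c) w = 0 := by
  have he' : e = -1 := by
    have h1 : (e - 1) * (e + 1) = 0 := by linear_combination ok.e_sq
    rcases mul_eq_zero.1 h1 with h2 | h2
    · exact absurd (by linarith) he
    · linarith
  have hs : S.sgn (S.inv c) = S.sgn c := by rw [ok.sgn_inv, he']; ring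
  have h1 : (S.sgn c : ℂ) * S.sgn c = 1 := by
    rw [← Complex.ofReal_mul, ok.sq, Complex.ofReal_one]
  by_cases h : S.blk c = S.blk (S.inv c)
  · exact Fv_same ok h w
  · apply Subtype.ext
    rw [Fv_ne ok h]
    have m1 : Um S c (S.inv c) = 0 := by
      ext p q
      rw [Um_apply, ok.inv_inv, hs, h1, sub_self, Matrix.zero_apply]
    have m2 : Um S (S.inv c) c = 0 := by
      ext p q
      rw [Um_apply, ok.inv_inv, hs, h1, sub_self, Matrix.zero_apply]
    rw [m1, m2, smul_zero, smul_zero, sub_zero]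
    rfl

theorem schur (ok : Ok S N e) (okk : Okk S e) {g : LinearMap.BilinForm ℝ (tt S)}
    (hg : IsInvMetric S g) :
    ∃ ξ : Pb k → Pb k → ℝ, (∀ α β, ξ α β = ξ β α) ∧ (∀ α β, ξ (fl α) (fl β) = ξ α β) ∧
      (∀ α β, 0 < ξ α β) ∧ g = gx S ξ := by
  obtain ⟨ξ, hsy, hfl, hpo, hA, hB⟩ := schA ok okk hg
  refine ⟨ξ, hsy, hfl, hpo, ?_⟩
  have key : ∀ (X : tt S) (c d : S.I) (w : ℂ), g X (Fv ok c d w) = gx S ξ X (Fv ok c d w) := by
    intro X c d w
    by_cases hF : Fv ok c d w = 0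
    · rw [hF, map_zero, map_zero]
    have h : S.blk c ≠ S.blk d := fun h => hF (Fv_same ok h w)
    rw [gx_Fv ok hsy hfl]
    set V := g (Fv ok c d ((X : Matrix S.I S.I ℂ) c d)) (Fv ok c d w) with hV
    have hVr : V = kp ok g c d * ((X : Matrix S.I S.I ℂ) c d * star w).re := rot ok hg c d _ w
    have hsum := SchB_sum ok h
      (fun a b => g (Fv ok a b ((X : Matrix S.I S.I ℂ) a b)) (Fv ok c d w)) V
      (fun a b hn => van ok okk hg a b c d hn _ _)
      (fun a b hE => by rw [hV, SchB_eqv ok X hE])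
    have hX : g X (Fv ok c d w) =
        (1 / 4) * ∑ a, ∑ b, g (Fv ok a b ((X : Matrix S.I S.I ℂ) a b)) (Fv ok c d w) := by
      conv_lhs => rw [expand ok X]
      simp only [map_smul, map_sum, LinearMap.smul_apply, LinearMap.sum_apply, smul_eq_mul]
    rw [hX, hsum]
    by_cases hd : d = S.inv c
    · rw [if_pos hd, hVr]
      have he : e = 1 := by
        by_contra he
        exact hF (by rw [hd]; exact SchB_zero ok he c w)
      have h3 := hB he c (by rw [← hd]; exact h)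
      rw [← hd] at h3
      rw [h3]
      ring
    · rw [if_neg hd, hVr, hA c d h hd]
      ring
  refine LinearMap.ext fun X => LinearMap.ext fun Y => ?_
  rw [expand ok Y]
  simp only [map_smul, map_sum, smul_eq_mul, key]

end Pool.Agent.H43.BC
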