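import Mathlib

/-!
# Invariant Einstein metrics on the flag manifolds of the classical types B, C, D

`SO(2 n_1 + ... + 2 n_k + m) / (U(n_1) x ... x U(n_k) x SO(m))` and
`Sp(n_1 + ... + n_k + m) / (U(n_1) x ... x U(n_k) x Sp(m))`.

Both families are described by complex matrices: `SO(M)` is the group of the unitary `M x M` matrices
of determinant 1 which commute with an antilinear map `J` of square 1, and `Sp(M/2)` is the group of
the unitary `M x M` matrices which commute with an antilinear map `J` of square -1; here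
`(J v) a = sgn a * conj (v (inv a))`.  The rows and columns are grouped in blocks `(i, true)` and
`(i, false)` of size `n_i`, exchanged by `inv`, and a block 0 (`none`) of size `m` resp. `2 m`.
The isotropy group consists of the block diagonal matrices in the group (in the blocks `(i, true)`
arbitrary unitary matrices, in `(i, false)` their conjugates, in the block 0 a matrix of `SO(m)`
resp. `Sp(m)`).  The tangent space of the flag manifold at the base point is the orthogonal complement
of its Lie algebra, i.e. the space of the matrices of the Lie algebra whose diagonal blocks vanish;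
invariant Riemannian metrics are the same as Ad(K)-invariant inner products on it.  The Ricci
curvature of an invariant metric on a compact homogeneous space is given by formula (7.38) of Besse,
Einstein manifolds, which is `ricci` below.
-/

namespace Pool.Agent.H43.BC.Stmt

open Matrix

/-- A compact classical group with a block structure: index set of the rows and columns, the
involution and the signs of the antilinear map `J`, the block of an index, and the factor `kil` of the
Killing form `B(X, Y) = kil * tr (X Y)`. -/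
structure Setup (k : ℕ) where
  I : Type
  fin : Fintype I
  dec : DecidableEq I
  inv : I → I
  sgn : I → ℝ
  blk : I → Option (Fin k × Bool)
  kil : ℝ

attribute [instance] Setup.fin Setup.dec

/-- `SO(M)`, `M = 2 (n_1 + ... + n_k) + m`, with blocks of sizes `n_1, n_1, ..., n_k, n_k, m`. -/
def orthogonal {k : ℕ} (n : Fin k → ℕ) (m : ℕ) : Setup k where
  I := ((Σ i : Fin k, Fin (n i)) × Bool) ⊕ Fin m
  fin := inferInstance
  dec := inferInstance
  inv := Sum.elim (fun a => Sum.inl (a.1, !a.2)) Sum.inr
  sgn := fun _ => 1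
  blk := Sum.elim (fun a => some (a.1.1, a.2)) fun _ => none
  kil := 2 * (∑ i, (n i : ℝ)) + m - 2

/-- `Sp(n_1 + ... + n_k + m)`, with blocks of sizes `n_1, n_1, ..., n_k, n_k, 2 m`. -/
def symplectic {k : ℕ} (n : Fin k → ℕ) (m : ℕ) : Setup k where
  I := ((Σ i : Fin k, Fin (n i)) ⊕ Fin m) × Bool
  fin := inferInstance
  dec := inferInstance
  inv := fun a => (a.1, !a.2)
  sgn := fun a => if a.2 then 1 else -1
  blk := fun a => Sum.elim (fun p => some (p.1, a.2)) (fun _ => none) a.1
  kil := 2 * (∑ i, (n i : ℝ)) + 2 * m + 2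

variable {k : ℕ}

/-- `U` commutes with `J`. -/
def CommJ (S : Setup k) (U : Matrix S.I S.I ℂ) : Prop :=
  ∀ a b, U (S.inv a) (S.inv b) = S.sgn a * S.sgn b * star (U a b)

/-- The isotropy group `K`: block diagonal matrices in the group. -/
def Isotropy (S : Setup k) (U : Matrix S.I S.I ℂ) : Prop :=
  U ∈ Matrix.specialUnitaryGroup S.I ℂ ∧ CommJ S U ∧ ∀ a b, S.blk a ≠ S.blk b → U a b = 0

/-- Tangent vectors at the base point: matrices of the Lie algebra with vanishing diagonal
blocks. -/
def Tangent (S : Setup k) (X : Matrix S.I S.I ℂ) : Prop :=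
  Xᴴ = -X ∧ CommJ S X ∧ ∀ a b, S.blk a = S.blk b → X a b = 0

/-- The matrix with its diagonal blocks replaced by zero. -/
def offDiag (S : Setup k) (X : Matrix S.I S.I ℂ) : Matrix S.I S.I ℂ :=
  Matrix.of fun a b => if S.blk a = S.blk b then 0 else X a b

/-- The projection to the tangent space of the Lie bracket `[X, Y] = X Y - Y X`. -/
def bracket (S : Setup k) (X Y : Matrix S.I S.I ℂ) : Matrix S.I S.I ℂ :=
  offDiag S (X * Y - Y * X)

/-- The Killing form (a real number on skew-Hermitian matrices). -/
noncomputable def killingForm (S : Setup k) (X Y : Matrix S.I S.I ℂ) : ℝ :=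
  S.kil * (Matrix.trace (X * Y)).re

/-- `g` is a real inner product on the tangent space (its values outside do not matter). -/
def InnerProd (S : Setup k) (g : Matrix S.I S.I ℂ → Matrix S.I S.I ℂ → ℝ) : Prop :=
  (∀ X Y Z, Tangent S X → Tangent S Y → Tangent S Z → g (X + Y) Z = g X Z + g Y Z) ∧
  (∀ (c : ℝ) (X Y), Tangent S X → Tangent S Y → g (c • X) Y = c * g X Y) ∧
  (∀ X Y, Tangent S X → Tangent S Y → g X Y = g Y X) ∧
  ∀ X, Tangent S X → X ≠ 0 → 0 < g X X

/-- `g` is an invariant Riemannian metric: an Ad(K)-invariant inner product on the tangent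
space. -/
def InvMetric (S : Setup k) (g : Matrix S.I S.I ℂ → Matrix S.I S.I ℂ → ℝ) : Prop :=
  InnerProd S g ∧ ∀ U, Isotropy S U → ∀ X Y, Tangent S X → Tangent S Y →
    g (U * X * Uᴴ) (U * Y * Uᴴ) = g X Y

/-- `e` is an orthonormal basis of the tangent space for `g`. -/
def OrthoBasis (S : Setup k) (g : Matrix S.I S.I ℂ → Matrix S.I S.I ℂ → ℝ) {r : ℕ}
    (e : Fin r → Matrix S.I S.I ℂ) : Prop :=
  (∀ i, Tangent S (e i)) ∧ (∀ i j, g (e i) (e j) = if i = j then 1 else 0) ∧
    ∀ X, Tangent S X → ∃ c : Fin r → ℝ, X = ∑ i, c i • e i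

/-- The Ricci curvature `Ric(X, X)` of the invariant metric `g`, in terms of a `g`-orthonormal
basis `e` (it does not depend on the basis). -/
noncomputable def ricci (S : Setup k) (g : Matrix S.I S.I ℂ → Matrix S.I S.I ℂ → ℝ) {r : ℕ}
    (e : Fin r → Matrix S.I S.I ℂ) (X : Matrix S.I S.I ℂ) : ℝ :=
  -(1 / 2) * ∑ j, g (bracket S X (e j)) (bracket S X (e j)) - (1 / 2) * killingForm S X X
    + (1 / 4) * ∑ i, ∑ j, (g (bracket S (e i) (e j)) X) ^ 2

/-- Invariant Einstein metrics: `Ric = c g` for a constant `c`. -/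
def EinsteinMetric (S : Setup k) (g : Matrix S.I S.I ℂ → Matrix S.I S.I ℂ → ℝ) : Prop :=
  InvMetric S g ∧ ∃ (c : ℝ) (r : ℕ) (e : Fin r → Matrix S.I S.I ℂ), OrthoBasis S g e ∧
    ∀ X, Tangent S X → ricci S g e X = c * g X X

/-- There are only finitely many invariant Einstein metrics up to homothety: a finite set of
functions such that every invariant Einstein metric is (on the tangent space) a positive multiple of
one of them. -/
def FinitelyManyEinstein (S : Setup k) : Prop :=
  ∃ G : Set (Matrix S.I S.I ℂ → Matrix S.I S.I ℂ → ℝ), G.Finite ∧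
    ∀ g, EinsteinMetric S g → ∃ g₀ ∈ G, ∃ c : ℝ, 0 < c ∧
      ∀ X Y, Tangent S X → Tangent S Y → g X Y = c * g₀ X Y

/-- The numbers `n_i n_j` (`i < j`), `n_i (n_i + e)` and, if `m ≠ 0`, `n_i m` have no nonzero integer
linear relation with coefficients of absolute value at most `B`. -/
def NoRelation (e : ℤ) (B : ℕ) (n : Fin k → ℕ) (m : ℕ) : Prop :=
  ∀ (w : Fin k → Fin k → ℤ) (v t : Fin k → ℤ), (∀ i j, |w i j| ≤ B) → (∀ i, |v i| ≤ B) →
    (∀ i, |t i| ≤ B) →
    (∑ i, ∑ j ∈ Finset.Ioi i, w i j * (n i * n j)) + (∑ i, v i * (n i * (n i + e))) +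
      (∑ i, t i * (n i * m)) = 0 →
    (∀ i j, i < j → w i j = 0) ∧ (∀ i, v i = 0) ∧ (m ≠ 0 → ∀ i, t i = 0)

end Pool.Agent.H43.BC.Stmt
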