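import Pool.Agent.H43.BC.Mono
import Pool.Agent.H43.BC.Rt

/-!
# Module TrA: exchange of two indices of the same block, with their images

`inv_mono` with `π = swap a a' * swap (σa) (σa')` (`a, a', σa, σa'` are four different indices), `θ = 1`. `sign π = 1` (`Equiv.Perm.sign_mul`, `Equiv.Perm.sign_swap`);
`π` preserves the blocks (`blk (σa) = fl (blk a) = fl (blk a')`), commutes with `σ` (check at `a, a', σa, σa'` and elsewhere), and `s_{πx} = s_x` (`s_{σa} = -e s_a`), so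
`h4` is `1 = s_x s_x`. `π a = a'`, `π (σa) = σa'`, and `π b = b` for the other indices.
-/

set_option autoImplicit false

namespace Pool.Agent.H43.BC

open Matrix Stmt

variable {k : ℕ} {S : Setup k} {N : Pb k → ℕ} {e : ℝ}

theorem tr_swap (ok : Ok S N e) {g : LinearMap.BilinForm ℝ (tt S)} (hg : IsInvMetric S g)
    {a a' : S.I} (h : a ≠ a') (hb : S.blk a = S.blk a') (hs : S.sgn a = S.sgn a')
    (h1 : S.inv a ≠ a) (h2 : S.inv a' ≠ a') (h3 : S.inv a ≠ a') :
    (∀ b, b ≠ a → b ≠ a' → b ≠ S.inv a → b ≠ S.inv a' → kp ok g a b = kp ok g a' b) ∧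
      kp ok g a (S.inv a) = kp ok g a' (S.inv a') := by
  classical
  have h4 : S.inv a' ≠ a := fun h5 => h3 (by rw [← h5, ok.inv_inv])
  have h5 : S.inv a ≠ S.inv a' := fun h6 => h (by rw [← ok.inv_inv a, h6, ok.inv_inv])
  set π : Equiv.Perm S.I := Equiv.swap a a' * Equiv.swap (S.inv a) (S.inv a') with hπ
  have p1 : π a = a' := by
    rw [hπ, Equiv.Perm.mul_apply, Equiv.swap_apply_of_ne_of_ne h1.symm h4.symm, Equiv.swap_apply_left]
  have p2 : π a' = a := by
    rw [hπ, Equiv.Perm.mul_apply, Equiv.swap_apply_of_ne_of_ne h3.symm h2.symm,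
      Equiv.swap_apply_right]
  have p3 : π (S.inv a) = S.inv a' := by
    rw [hπ, Equiv.Perm.mul_apply, Equiv.swap_apply_left, Equiv.swap_apply_of_ne_of_ne h4 h2]
  have p4 : π (S.inv a') = S.inv a := by
    rw [hπ, Equiv.Perm.mul_apply, Equiv.swap_apply_right, Equiv.swap_apply_of_ne_of_ne h1 h3]
  have p5 : ∀ x, x ≠ a → x ≠ a' → x ≠ S.inv a → x ≠ S.inv a' → π x = x := by
    intro x k1 k2 k3 k4
    rw [hπ, Equiv.Perm.mul_apply, Equiv.swap_apply_of_ne_of_ne k3 k4,
      Equiv.swap_apply_of_ne_of_ne k1 k2]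
  have hbi : S.blk (S.inv a) = S.blk (S.inv a') := by rw [ok.blk_inv, ok.blk_inv, hb]
  have hsi : S.sgn (S.inv a) = S.sgn (S.inv a') := by rw [ok.sgn_inv, ok.sgn_inv, hs]
  have hcase : ∀ P : S.I → Prop, P a → P a' → P (S.inv a) → P (S.inv a') →
      (∀ x, x ≠ a → x ≠ a' → x ≠ S.inv a → x ≠ S.inv a' → P x) → ∀ x, P x := by
    intro P q1 q2 q3 q4 q5 x
    by_cases k1 : x = a
    · rw [k1]; exact q1
    by_cases k2 : x = a'
    · rw [k2]; exact q2
    by_cases k3 : x = S.inv a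
    · rw [k3]; exact q3
    by_cases k4 : x = S.inv a'
    · rw [k4]; exact q4
    exact q5 x k1 k2 k3 k4
  have g1 : ∀ x, S.blk (π x) = S.blk x := by
    apply hcase
    · rw [p1, hb]
    · rw [p2, hb]
    · rw [p3, hbi]
    · rw [p4, hbi]
    · intro x k1 k2 k3 k4
      rw [p5 x k1 k2 k3 k4]
  have gs : ∀ x, S.sgn (π x) = S.sgn x := by
    apply hcase
    · rw [p1, hs]
    · rw [p2, hs]
    · rw [p3, hsi]
    · rw [p4, hsi]
    · intro x k1 k2 k3 k4
      rw [p5 x k1 k2 k3 k4]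
  have g2 : ∀ x, π (S.inv x) = S.inv (π x) := by
    apply hcase
    · rw [p3, p1]
    · rw [p4, p2]
    · rw [ok.inv_inv, p1, p3, ok.inv_inv]
    · rw [ok.inv_inv, p2, p4, ok.inv_inv]
    · intro x k1 k2 k3 k4
      rw [p5 x k1 k2 k3 k4]
      apply p5
      · intro k5; exact k3 (by rw [← k5, ok.inv_inv])
      · intro k5; exact k4 (by rw [← k5, ok.inv_inv])
      · intro k5; exact k1 (by rw [← ok.inv_inv x, k5, ok.inv_inv])
      · intro k5; exact k2 (by rw [← ok.inv_inv x, k5, ok.inv_inv])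
  have g4 : ∀ x, (1 : ℝ) = S.sgn (π x) * S.sgn x * 1 := by
    intro x
    rw [gs, ok.sq, mul_one]
  have g5 : ((Equiv.Perm.sign π : ℤ) : ℝ) * ∏ _x : S.I, (1 : ℝ) = 1 := by
    rw [Finset.prod_const_one, mul_one, hπ, Equiv.Perm.sign_mul, Equiv.Perm.sign_swap h,
      Equiv.Perm.sign_swap h5]
    norm_num
  have key : ∀ x y, kp ok g x y = kp ok g (π x) (π y) := by
    intro x y
    have h6 := inv_mono ok hg π (fun _ => 1) g1 g2 (fun _ => by norm_num) g4 g5 x y x y 1 1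
    simp only [mul_one, Complex.ofReal_one] at h6
    exact h6.symm
  refine ⟨fun b k1 k2 k3 k4 => ?_, ?_⟩
  · rw [key a b, p1, p5 b k1 k2 k3 k4]
  · rw [key a (S.inv a), p1, p3]

end Pool.Agent.H43.BC
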